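import Pool.Agent.H84R3.WeylCrit

set_option autoImplicit false

namespace Pool.Agent.W28.NR

open Finset Filter Topology

/-- `ex x = exp(2πix)` -/
noncomputable def ex (x : ℝ) : ℂ := Complex.exp (Complex.I * ((2 * Real.pi * x : ℝ) : ℂ))

lemma norm_ex (x : ℝ) : ‖ex x‖ = 1 := by
  unfold ex
  rw [mul_comm, Complex.norm_exp_ofReal_mul_I]

/-- normality in base `r` -/
def NormalBase (r : ℕ) (x : ℝ) : Prop :=
  ∀ k : ℕ, 1 ≤ k → ∀ m : ℤ, 0 ≤ m → m < (r : ℤ) ^ k →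
    Tendsto (fun N : ℕ =>
      (((Finset.range N).filter
          (fun n : ℕ => ⌊(r : ℝ) ^ (n + k) * x⌋ % (r : ℤ) ^ k = m)).card : ℝ) / (N : ℝ))
      atTop (𝓝 (1 / (r : ℝ) ^ k))

lemma floor_mod_iff (r : ℕ) (hr : 2 ≤ r) (ξ : ℝ) (k n : ℕ) (m : ℤ) (hm0 : 0 ≤ m)
    (hm : m < (r : ℤ) ^ k) :
    ⌊(r : ℝ) ^ (n + k) * ξ⌋ % (r : ℤ) ^ k = m ↔
      ((m : ℝ) / (r : ℝ) ^ k ≤ Int.fract ((r : ℝ) ^ n * ξ) ∧
        Int.fract ((r : ℝ) ^ n * ξ) < ((m : ℝ) + 1) / (r : ℝ) ^ k) := by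
  have hr0 : (0 : ℝ) < (r : ℝ) := by positivity
  have hrk : (0 : ℝ) < (r : ℝ) ^ k := by positivity
  set z := (r : ℝ) ^ n * ξ with hz
  have e1 : (r : ℝ) ^ (n + k) * ξ = (r : ℝ) ^ k * Int.fract z + (((r : ℤ) ^ k * ⌊z⌋ : ℤ) : ℝ) := by
    push_cast
    have : Int.fract z = z - ⌊z⌋ := rfl
    rw [this, hz, pow_add]; ring
  rw [e1, Int.floor_add_intCast, Int.add_mul_emod_self_left]
  have h0 : 0 ≤ Int.fract z := Int.fract_nonneg z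
  have h1 : Int.fract z < 1 := Int.fract_lt_one z
  have hfl0 : 0 ≤ ⌊(r : ℝ) ^ k * Int.fract z⌋ := Int.floor_nonneg.2 (by positivity)
  have hfl1 : ⌊(r : ℝ) ^ k * Int.fract z⌋ < (r : ℤ) ^ k := by
    rw [Int.floor_lt]; push_cast
    nlinarith
  rw [Int.emod_eq_of_lt hfl0 hfl1, Int.floor_eq_iff]
  rw [div_le_iff₀ hrk, lt_div_iff₀ hrk, mul_comm (Int.fract z)]

theorem normal_of_weyl (r : ℕ) (hr : 2 ≤ r) (ξ : ℝ)
    (h : ∀ k : ℕ, 1 ≤ k → Tendsto (fun N : ℕ => (∑ n ∈ Finset.range N, ex (k * ((r : ℝ) ^ n * ξ))) / (N : ℂ))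
      atTop (𝓝 0)) : NormalBase r ξ := by
  have hud := Pool.Agent.H84R3.ud_of_weyl (fun n => (r : ℝ) ^ n * ξ) (fun k hk => h k hk)
  intro k hk m hm0 hm
  have hr0 : (0 : ℝ) < (r : ℝ) := by positivity
  have hrk : (0 : ℝ) < (r : ℝ) ^ k := by positivity
  have hm0' : (0 : ℝ) ≤ m := by exact_mod_cast hm0
  have hm' : (m : ℝ) + 1 ≤ (r : ℝ) ^ k := by exact_mod_cast hm
  have := hud ((m : ℝ) / (r : ℝ) ^ k) (((m : ℝ) + 1) / (r : ℝ) ^ k) (by positivity)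
    (by apply div_le_div_of_nonneg_right _ hrk.le; linarith) (by rw [div_le_one hrk]; exact hm')
  have e : ((m : ℝ) + 1) / (r : ℝ) ^ k - (m : ℝ) / (r : ℝ) ^ k = 1 / (r : ℝ) ^ k := by
    rw [← sub_div]; congr 1; ring
  rw [e] at this
  refine this.congr (fun N => ?_)
  congr 2
  apply congrArg
  apply Finset.filter_congr
  intro n _
  exact (floor_mod_iff r hr ξ k n m hm0 hm).symm

end Pool.Agent.W28.NR
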