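import Pool.Agent.W28.NRStageRecip

set_option autoImplicit false

namespace Pool.Agent.W28.NR

open Finset Filter Topology

lemma sq_mul_pow_small (C ρ : ℝ) (hρ0 : 0 ≤ ρ) (hρ : ρ < 1) :
    ∀ᶠ K : ℕ in atTop, C * ρ ^ K * (4 * (K : ℝ)) ^ 2 ≤ 1 := by
  have h := tendsto_pow_const_mul_const_pow_of_lt_one 2 hρ0 hρ
  have h2 : Tendsto (fun K : ℕ => (16 * C) * ((K : ℝ) ^ 2 * ρ ^ K)) atTop (𝓝 ((16 * C) * 0)) :=
    h.const_mul _
  rw [mul_zero] at h2
  have h3 := h2.eventually (gt_mem_nhds (show (0 : ℝ) < 1 by norm_num))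
  filter_upwards [h3] with K hK
  have e : C * ρ ^ K * (4 * (K : ℝ)) ^ 2 = (16 * C) * ((K : ℝ) ^ 2 * ρ ^ K) := by ring
  rw [e]; exact hK.le

theorem stage_recip : Stage 2 2 (fun y => y⁻¹) := by
  obtain ⟨σ, hσ, C, hC, hsec⟩ := second_bound
  intro ε hε H
  obtain ⟨q, hq⟩ := exists_nat_gt (max (8 * H * (4 * 16 + 1) / (ε / 2) ^ 2) (max (3 / (ε / 2)) 1))
  have hq1 : 8 * H * (4 * (16 : ℝ) + 1) / (ε / 2) ^ 2 < q := lt_of_le_of_lt (le_max_left _ _) hq
  have hq2 : 3 / (ε / 2) < q :=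
    lt_of_le_of_lt ((le_max_left _ _).trans (le_max_right _ _)) hq
  have hq3 : (1 : ℝ) < q := lt_of_le_of_lt ((le_max_right _ _).trans (le_max_right _ _)) hq
  have hq4 : 1 ≤ q := by
    have : 1 < q := by exact_mod_cast hq3
    omega
  refine ⟨q ^ 2, ?_⟩
  intro L hL a ha1 ha2 N0
  set ρ : ℝ := (2 : ℝ) ^ (-σ) with hρ
  have hρ0 : 0 ≤ ρ := by positivity
  have hρ1 : ρ < 1 := by
    rw [hρ]
    apply Real.rpow_lt_one_of_one_lt_of_neg (by norm_num) (by linarith)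
  obtain ⟨K0, hK0⟩ : ∃ K0 : ℕ, 8 * H ≤ 2 ^ K0 := ⟨8 * H, Nat.lt_two_pow_self.le⟩
  obtain ⟨K, hK1, hK2⟩ := ((sq_mul_pow_small C ρ hρ0 hρ1).and
    (eventually_ge_atTop (N0 + 4 * K0 + (6 * L + 12)))).exists
  refine ⟨L + K, by omega, by omega, ?_⟩
  have eK : L + K - L = K := by omega
  rw [eK]
  set F : ℕ → ℕ → ℕ → ℂ := fun h m p =>
    ex (h * ((2 : ℝ) ^ m * (((a * 2 ^ K + p : ℕ) : ℝ) / (2 : ℝ) ^ (L + K))⁻¹)) with hF
  have hKL : (L : ℝ) ≤ K := by
    have : L ≤ K := by omega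
    exact_mod_cast this
  obtain ⟨G, hG1, hG2, hG3⟩ := cheb (2 ^ K) H L (L + K + (L + K) / 2) F (fun h m p => norm_ex _)
    16 (C * ρ ^ K) (ε / 2) (by norm_num) (by positivity) (by positivity) Nat.one_le_two_pow
    (by omega)
    (by
      refine le_trans ?_ hK1
      have h1 : ((L + K + (L + K) / 2 - L : ℕ) : ℝ) ≤ 4 * (K : ℝ) := by
        have h2 : L + K + (L + K) / 2 - L ≤ 4 * K := by omega
        exact_mod_cast h2
      gcongr)
    q hq4 hL hq1 hq2.le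
    (by
      intro h hh1 hh2 m' m hm1 hm2 hm3
      have e : ∑ p ∈ range (2 ^ K), F h m p * (starRingEnd ℂ) (F h m' p)
          = ∑ p ∈ range (2 ^ K),
            ex ((h * ((2 : ℝ) ^ m - 2 ^ m') * 2 ^ (L + K)) / (((a * 2 ^ K : ℕ) : ℝ) + p)) := by
        apply sum_congr rfl
        intro p _
        simp only [hF]
        rw [ex_mul_conj]
        congr 1
        rw [inv_div]
        push_cast
        ring
      rw [e]
      rcases le_or_gt (2 * m) (L + K) with hcase | hcase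
      · refine (pair_small L K a m m' h K0 H ha1 ha2 hm1 hm2 hcase hh1 hh2 hK0 (by omega)).trans ?_
        apply mul_le_mul_of_nonneg_left _ (Nat.cast_nonneg _)
        have : 0 ≤ C * ρ ^ K := by positivity
        linarith
      · refine (pair_large σ C hsec L K a m m' h K0 H ha1 ha2 hm2 hcase hm3 hh1 hh2 hK0
          (by omega) (by omega)).trans ?_
        apply mul_le_mul_of_nonneg_left _ (Nat.cast_nonneg _)
        have : (0 : ℝ) ≤ 16 / 2 ^ (m - L) := by positivity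
        linarith)
  have hGne : G.Nonempty := by
    rw [nonempty_iff_ne_empty]
    rintro rfl
    simp at hG2
  obtain ⟨p, hp⟩ := hGne
  refine ⟨p, mem_range.1 (hG1 hp), ?_⟩
  intro h hh1 hh2 M hM1 hM2
  have := hG3 p hp h hh1 hh2 M hM1 hM2
  simp only [hF] at this
  refine le_trans (le_of_eq ?_) (this.trans (le_of_eq ?_))
  · norm_num
  · ring

theorem recip_normal : ∃ x : ℝ, NormalBase 2 x ∧ ¬ NormalBase 2 x⁻¹ := by
  obtain ⟨y, hy1, hy2, h1, h2⟩ := chain 2 2 le_rfl (by norm_num) (fun y => y⁻¹) 4 (by norm_num)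
    (by
      intro x y hx1 hx2 hy1 hy2
      have hx0 : x ≠ 0 := by intro h; rw [h] at hx1; norm_num at hx1
      have hy0 : y ≠ 0 := by intro h; rw [h] at hy1; norm_num at hy1
      rw [inv_sub_inv hx0 hy0, abs_div, abs_sub_comm, div_le_iff₀ (by positivity), abs_mul,
        abs_of_pos (by linarith : 0 < x), abs_of_pos (by linarith : 0 < y)]
      have : 1 ≤ 4 * (x * y) := by nlinarith
      nlinarith [abs_nonneg (x - y)]) stage_recip
  refine ⟨y⁻¹, h1, ?_⟩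
  rw [inv_inv]; exact h2

end Pool.Agent.W28.NR
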