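import Pool.Agent.W28.EPFin

set_option autoImplicit false

namespace Pool.Agent.W28.EP

open Finset Real

/-- coefficient of the `j`-th derivative of `F0` -/
noncomputable def cf (j : ℕ) : ℝ := (2 / 3 ^ (3 / 2 : ℝ)) * (descPochhammer ℝ j).eval (3 / 2 : ℝ)

lemma desc_ne (j : ℕ) : (descPochhammer ℝ j).eval (3 / 2 : ℝ) ≠ 0 := by
  induction j with
  | zero => simp
  | succ j ih =>
    rw [descPochhammer_succ_right, Polynomial.eval_mul]
    apply mul_ne_zero ih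
    simp only [Polynomial.eval_sub, Polynomial.eval_X, Polynomial.eval_natCast]
    intro h
    have h2 : (3 : ℝ) = 2 * j := by linarith
    have h3 : (3 : ℕ) = 2 * j := by exact_mod_cast h2
    omega

lemma cf_ne (j : ℕ) : cf j ≠ 0 := by
  unfold cf
  exact mul_ne_zero (by positivity) (desc_ne j)

lemma iter_F0 (j : ℕ) {N x : ℝ} (hN : 0 < N) (hx : x ∈ Set.Icc N (2 * N)) :
    iteratedDerivWithin j F0 (Set.Icc N (2 * N)) x = cf j * x ^ (3 / 2 - j : ℝ) := by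
  have hx0 : x ≠ 0 := by have := hx.1; intro h; linarith
  have hc : ContDiffAt ℝ j F0 x := by
    unfold F0
    exact contDiffAt_const.mul (contDiffAt_rpow_const_of_ne hx0)
  rw [iteratedDerivWithin_eq_iteratedDeriv (uniqueDiffOn_Icc (by linarith)) hc hx]
  have h1 : F0 = fun x : ℝ => (2 / 3 ^ (3 / 2 : ℝ)) * x ^ (3 / 2 : ℝ) := rfl
  rw [h1, iteratedDeriv_const_mul_field, iteratedDeriv_eq_iterate, iter_deriv_rpow_const]
  unfold cf; ring

lemma smooth_F0 {N : ℝ} (hN : 0 < N) :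
    ContDiffOn ℝ (⊤ : ℕ∞) F0 (Set.Icc N (2 * N)) := by
  intro x hx
  have hx0 : x ≠ 0 := by have := hx.1; intro h; linarith
  apply ContDiffAt.contDiffWithinAt
  unfold F0
  exact contDiffAt_const.mul (contDiffAt_rpow_const_of_ne hx0)

/-- `(x/N)^r` is between `2^{-|r|}` and `2^{|r|}`. -/
lemma rpow_between {y r : ℝ} (h1 : 1 ≤ y) (h2 : y ≤ 2) :
    (2 : ℝ) ^ (-|r|) ≤ y ^ r ∧ y ^ r ≤ (2 : ℝ) ^ |r| := by
  have hy : 0 < y := by linarith
  rcases le_total 0 r with hr | hr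
  · rw [abs_of_nonneg hr]
    constructor
    · calc (2 : ℝ) ^ (-r) ≤ 1 := by
            apply rpow_le_one_of_one_le_of_nonpos (by norm_num) (by linarith)
        _ ≤ y ^ r := one_le_rpow h1 hr
    · exact rpow_le_rpow hy.le h2 hr
  · rw [abs_of_nonpos hr, neg_neg]
    constructor
    · exact rpow_le_rpow_of_nonpos hy h2 hr
    · calc y ^ r ≤ 1 := rpow_le_one_of_one_le_of_nonpos h1 hr
        _ ≤ (2 : ℝ) ^ (-r) := one_le_rpow (by norm_num) (by linarith)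

/-- admissibility constants -/
noncomputable def cLow (j : ℕ) : ℝ := |cf j| * (2 : ℝ) ^ (-|(3 / 2 - j : ℝ)|)
noncomputable def cUp (j : ℕ) : ℝ := |cf j| * (2 : ℝ) ^ |(3 / 2 - j : ℝ)|

lemma cLow_pos (j : ℕ) : 0 < cLow j := by
  unfold cLow; have := abs_pos.2 (cf_ne j); positivity

lemma cUp_pos (j : ℕ) : 0 < cUp j := by
  unfold cUp; have := abs_pos.2 (cf_ne j); positivity

lemma admissible (j : ℕ) {N x : ℝ} (hN : 0 < N) (hx : x ∈ Set.Icc N (2 * N)) :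
    cLow j * N ^ (3 / 2 : ℝ) / N ^ j ≤ |iteratedDerivWithin j F0 (Set.Icc N (2 * N)) x| ∧
    |iteratedDerivWithin j F0 (Set.Icc N (2 * N)) x| ≤ cUp j * N ^ (3 / 2 : ℝ) / N ^ j := by
  rw [iter_F0 j hN hx, abs_mul]
  have hx0 : 0 < x := by linarith [hx.1]
  have hy1 : 1 ≤ x / N := by rw [le_div_iff₀ hN]; linarith [hx.1]
  have hy2 : x / N ≤ 2 := by rw [div_le_iff₀ hN]; linarith [hx.2]
  have h1 : |x ^ (3 / 2 - j : ℝ)| = (x / N) ^ (3 / 2 - j : ℝ) * (N ^ (3 / 2 : ℝ) / N ^ j) := by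
    rw [abs_of_pos (by positivity), div_rpow hx0.le hN.le]
    have h2 : N ^ (3 / 2 : ℝ) / N ^ j = N ^ (3 / 2 - j : ℝ) := by
      rw [rpow_sub hN, rpow_natCast]
    rw [h2]
    have : N ^ (3 / 2 - j : ℝ) ≠ 0 := by positivity
    field_simp
  have h3 := rpow_between (r := (3 / 2 - j : ℝ)) hy1 hy2
  rw [h1]
  unfold cLow cUp
  have h4 : 0 ≤ |cf j| := abs_nonneg _
  have h5 : 0 ≤ N ^ (3 / 2 : ℝ) / N ^ j := by positivity
  constructor
  · calc |cf j| * (2 : ℝ) ^ (-|(3 / 2 - j : ℝ)|) * N ^ (3 / 2 : ℝ) / N ^ j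
        = |cf j| * ((2 : ℝ) ^ (-|(3 / 2 - j : ℝ)|) * (N ^ (3 / 2 : ℝ) / N ^ j)) := by ring
      _ ≤ _ := by gcongr; exact h3.1
  · calc |cf j| * ((x / N) ^ (3 / 2 - j : ℝ) * (N ^ (3 / 2 : ℝ) / N ^ j))
        ≤ |cf j| * ((2 : ℝ) ^ |(3 / 2 - j : ℝ)| * (N ^ (3 / 2 : ℝ) / N ^ j)) := by
          gcongr; exact h3.2
      _ = _ := by ring

end Pool.Agent.W28.EP
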