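import Pool.Agent.W28.CF3

/-!
# Words whose orbits are equidistributed whatever follows
-/

set_option autoImplicit false

namespace Pool.Agent.W28.CF

open Filter Topology Set

/-- indicator of `v < t` -/
noncomputable def ind (v t : ℝ) : ℝ := if v < t then 1 else 0

lemma ind_nonneg (v t : ℝ) : 0 ≤ ind v t := by unfold ind; split_ifs <;> norm_num
lemma ind_le_one (v t : ℝ) : ind v t ≤ 1 := by unfold ind; split_ifs <;> norm_num

lemma ind_mono {v v' t t' : ℝ} (h : v' - v ≤ t' - t) : ind v t ≤ ind v' t' := by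
  unfold ind
  split_ifs with h1 h2
  · exact le_rfl
  · linarith
  · norm_num
  · exact le_rfl

/-- number of positions of the word `w` with tail `s` at which the orbit is `< t` -/
noncomputable def cnt : List ℕ → ℝ → ℝ → ℝ
  | [], _, _ => 0
  | (a :: w), s, t => ind (ev (a :: w) s) t + cnt w s t

lemma cnt_append (w v : List ℕ) (s t : ℝ) : cnt (w ++ v) s t = cnt w (ev v s) t + cnt v s t := by
  induction w with
  | nil => simp [cnt]
  | cons a w ih =>
    simp only [List.cons_append, cnt, ih]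
    rw [show a :: (w ++ v) = (a :: w) ++ v from rfl, ev_append]
    ring

lemma cnt_nonneg (w : List ℕ) (s t : ℝ) : 0 ≤ cnt w s t := by
  induction w with
  | nil => simp [cnt]
  | cons a w ih => simp only [cnt]; linarith [ind_nonneg (ev (a :: w) s) t]

lemma cnt_le (w : List ℕ) (s t : ℝ) : cnt w s t ≤ w.length := by
  induction w with
  | nil => simp [cnt]
  | cons a w ih =>
    simp only [cnt, List.length_cons]
    push_cast
    linarith [ind_le_one (ev (a :: w) s) t]

lemma cnt_eq_sum (w : List ℕ) (s t : ℝ) :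
    cnt w s t = ∑ i ∈ Finset.range w.length, ind (ev (w.drop i) s) t := by
  induction w with
  | nil => simp [cnt]
  | cons a w ih =>
    simp only [cnt, List.length_cons]
    rw [Finset.sum_range_succ', ih]
    simp only [List.drop_succ_cons, List.drop_zero]
    ring

/-- the orbit of `ev w s` -/
lemma G_iter_drop {w : List ℕ} (hw : ∀ a ∈ w, 1 ≤ a) {s : ℝ} (hs : s ∈ Ioo (0 : ℝ) 1) {i : ℕ}
    (hi : i ≤ w.length) : G^[i] (ev w s) = ev (w.drop i) s := by
  have h1 := G_iter_append (w := w.take i) (fun a ha => hw a (List.mem_of_mem_take ha))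
    (v := w.drop i) (fun a ha => hw a (List.mem_of_mem_drop ha)) hs
  rw [List.take_append_drop, List.length_take, min_eq_left hi] at h1
  exact h1

lemma orbit_count {w : List ℕ} (hw : ∀ a ∈ w, 1 ≤ a) {s : ℝ} (hs : s ∈ Ioo (0 : ℝ) 1) (t : ℝ) :
    (((Finset.range w.length).filter (fun n => G^[n] (ev w s) < t)).card : ℝ) = cnt w s t := by
  rw [cnt_eq_sum, Finset.card_filter]
  push_cast
  apply Finset.sum_congr rfl
  intro n hn
  rw [G_iter_drop hw hs (Finset.mem_range.mp hn).le]
  rfl

/-- the discrepancy of `w` is at most `E`, whatever the tail -/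
def BD (w : List ℕ) (E : ℝ) : Prop :=
  (∀ a ∈ w, 1 ≤ a) ∧ ∀ s ∈ Icc (0 : ℝ) 1, ∀ t ∈ Icc (0 : ℝ) 1, |cnt w s t - w.length * lam t| ≤ E

lemma BD.append {w v : List ℕ} {E F : ℝ} (hw : BD w E) (hv : BD v F) : BD (w ++ v) (E + F) := by
  refine ⟨?_, ?_⟩
  · intro a ha
    rcases List.mem_append.mp ha with h | h
    · exact hw.1 a h
    · exact hv.1 a h
  · intro s hs t ht
    have h1 := hv.2 s hs t ht
    have h2 := hw.2 (ev v s) (ev_Icc hv.1 hs) t ht
    rw [cnt_append, List.length_append]
    push_cast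
    have : cnt w (ev v s) t + cnt v s t - ((w.length : ℝ) + v.length) * lam t
        = (cnt w (ev v s) t - w.length * lam t) + (cnt v s t - v.length * lam t) := by ring
    rw [this]
    exact (abs_add_le _ _).trans (add_le_add h2 h1)

lemma BD.mono {w : List ℕ} {E F : ℝ} (hw : BD w E) (h : E ≤ F) : BD w F :=
  ⟨hw.1, fun s hs t ht => (hw.2 s hs t ht).trans h⟩

lemma BD_trivial {w : List ℕ} (hw : ∀ a ∈ w, 1 ≤ a) : BD w w.length := by
  refine ⟨hw, fun s _ t _ => ?_⟩
  have h1 := cnt_nonneg w s t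
  have h2 := cnt_le w s t
  have h3 := lam_nonneg t
  have h4 := lam_le_one t
  have h5 : (0 : ℝ) ≤ w.length := Nat.cast_nonneg _
  rw [abs_le]
  constructor <;> nlinarith

lemma BD_nil : BD [] 0 := ⟨by simp, fun s _ t _ => by simp [cnt]⟩

lemma BD_rep {w : List ℕ} {E : ℝ} (hw : BD w E) (m : ℕ) :
    BD (List.replicate m w).flatten (m * E) := by
  induction m with
  | zero => simpa using BD_nil
  | succ m ih =>
    rw [List.replicate_succ, List.flatten_cons]
    exact (hw.append ih).mono (by push_cast; linarith)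

/-- comparison of a block of digits of `z` with the orbit of `z` -/
lemma block {z : ℝ} {C : List ℕ} (hC : ∀ a ∈ C, 1 ≤ a) {u : ℝ} (hu : u ∈ Ioo (0 : ℝ) 1)
    (hz : z = ev C u) {K l0 : ℕ} (hK : 1 ≤ K) (hl0 : 2 * K ≤ 2 ^ l0) {s : ℝ}
    (hs : s ∈ Icc (0 : ℝ) 1) (t : ℝ) :
    cnt C s t ≤ ∑ i ∈ Finset.range C.length, ind (G^[i] z) (t + 1 / K) + l0 ∧
    ∑ i ∈ Finset.range C.length, ind (G^[i] z) (t - 1 / K) - l0 ≤ cnt C s t := by
  have hKR : (1 : ℝ) ≤ K := by exact_mod_cast hK
  have hclose : ∀ i ∈ Finset.range C.length, ¬ (C.length < i + l0) →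
      |ev (C.drop i) s - G^[i] z| ≤ 1 / K := by
    intro i hi hil
    rw [hz, G_iter_drop hC hu (Finset.mem_range.mp hi).le]
    refine (ev_contr (fun a ha => hC a (List.mem_of_mem_drop ha)) hs ⟨hu.1.le, hu.2.le⟩).trans ?_
    rw [List.length_drop, div_le_div_iff₀ (by positivity) (by positivity), one_mul]
    have h1 : l0 ≤ C.length - i := by omega
    have h2 : (2 : ℝ) ^ l0 ≤ 2 ^ (C.length - i) := pow_le_pow_right₀ (by norm_num) h1
    have h3 : (2 : ℝ) * K ≤ 2 ^ l0 := by exact_mod_cast hl0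
    linarith
  have hcard : ∑ i ∈ Finset.range C.length, (if C.length < i + l0 then (1 : ℝ) else 0) ≤ l0 := by
    rw [← Finset.sum_filter, Finset.sum_const, nsmul_eq_mul, mul_one]
    have : (Finset.range C.length).filter (fun i => C.length < i + l0)
        ⊆ Finset.Ico (C.length - l0) C.length := by
      intro i hi
      simp only [Finset.mem_filter, Finset.mem_range] at hi
      rw [Finset.mem_Ico]
      omega
    have h2 := Finset.card_le_card this
    rw [Nat.card_Ico] at h2
    exact_mod_cast h2.trans (by omega)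
  rw [cnt_eq_sum]
  constructor
  · refine le_trans ?_ (add_le_add_right hcard _)
    rw [← Finset.sum_add_distrib]
    apply Finset.sum_le_sum
    intro i hi
    by_cases h : C.length < i + l0
    · rw [if_pos h]
      linarith [ind_le_one (ev (C.drop i) s) t, ind_nonneg (G^[i] z) (t + 1 / K)]
    · rw [if_neg h, add_zero]
      apply ind_mono
      have := abs_le.mp (hclose i hi h)
      linarith
  · rw [sub_le_iff_le_add]
    refine le_trans ?_ (add_le_add_right hcard _)
    rw [← Finset.sum_add_distrib]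
    apply Finset.sum_le_sum
    intro i hi
    by_cases h : C.length < i + l0
    · rw [if_pos h]
      linarith [ind_nonneg (ev (C.drop i) s) t, ind_le_one (G^[i] z) (t - 1 / K)]
    · rw [if_neg h, add_zero]
      apply ind_mono
      have := abs_le.mp (hclose i hi h)
      linarith

lemma good_word {ε : ℝ} (hε : 0 < ε) : ∃ w : List ℕ, w ≠ [] ∧ BD w (ε * w.length) := by
  obtain ⟨z, hz, hlln⟩ := sample
  obtain ⟨K, hK⟩ := exists_nat_ge (16 / ε + 1)
  have hKR : (1 : ℝ) ≤ K := by
    have : 0 < 16 / ε := by positivity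
    linarith
  have hK1 : 1 ≤ K := by exact_mod_cast hKR
  have hKε : 1 / (K : ℝ) ≤ ε / 16 := by
    rw [div_le_div_iff₀ (by positivity) (by norm_num)]
    have : 16 / ε ≤ K := by linarith
    rw [div_le_iff₀ hε] at this
    linarith
  set l0 := 2 * K with hl0
  have hl0' : 2 * K ≤ 2 ^ l0 := Nat.lt_two_pow_self.le
  set L := l0 * K with hL
  have hL1 : 1 ≤ L := by rw [hL, hl0]; nlinarith
  have hl0L : (l0 : ℝ) = L * (1 / K) := by
    rw [hL]; push_cast; field_simp
  have hev : ∀ᶠ J : ℕ in atTop, ∀ i ∈ Finset.range L, ∀ k ∈ Finset.range (K + 1),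
      |(((Finset.range J).filter (fun j => G^[i] (z j) < ((((k : ℚ) - 1) / K : ℚ) : ℝ))).card : ℝ) / J
        - lam ((((k : ℚ) - 1) / K : ℚ) : ℝ)| ≤ ε / 4 ∧
      |(((Finset.range J).filter (fun j => G^[i] (z j) < ((((k : ℚ) + 2) / K : ℚ) : ℝ))).card : ℝ) / J
        - lam ((((k : ℚ) + 2) / K : ℚ) : ℝ)| ≤ ε / 4 := by
    rw [Filter.eventually_all_finset]
    intro i _
    rw [Filter.eventually_all_finset]
    intro k _
    have h1 := (hlln i (((k : ℚ) - 1) / K)).eventually (Metric.closedBall_mem_nhds _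
      (show (0 : ℝ) < ε / 4 by positivity))
    have h2 := (hlln i (((k : ℚ) + 2) / K)).eventually (Metric.closedBall_mem_nhds _
      (show (0 : ℝ) < ε / 4 by positivity))
    filter_upwards [h1, h2] with J h3 h4
    exact ⟨by simpa [Real.dist_eq] using h3, by simpa [Real.dist_eq] using h4⟩
  obtain ⟨J, hJ, hJ1⟩ := (hev.and (eventually_ge_atTop 1)).exists
  have hJR : (1 : ℝ) ≤ J := by exact_mod_cast hJ1
  choose C hC1 hC2 hC3 _ hC5 using fun j => digits (hz j).1 (hz j).2 L
  -- the concatenation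
  have hcat : ∀ J : ℕ, ∃ w : List ℕ, w.length = J * L ∧ (∀ a ∈ w, 1 ≤ a) ∧
      ∀ s ∈ Icc (0 : ℝ) 1, ∀ t : ℝ,
        cnt w s t ≤ ∑ j ∈ Finset.range J, (∑ i ∈ Finset.range L, ind (G^[i] (z j)) (t + 1 / K) + l0) ∧
        ∑ j ∈ Finset.range J, (∑ i ∈ Finset.range L, ind (G^[i] (z j)) (t - 1 / K) - l0)
          ≤ cnt w s t := by
    intro J
    induction J with
    | zero => exact ⟨[], by simp, by simp, fun s _ t => by simp [cnt]⟩
    | succ J ih =>
      obtain ⟨w, h1, h2, h3⟩ := ih
      refine ⟨w ++ C J, by rw [List.length_append, h1, hC1]; ring, ?_, ?_⟩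
      · intro a ha
        rcases List.mem_append.mp ha with h | h
        · exact h2 a h
        · exact hC2 J a h
      · intro s hs t
        obtain ⟨h4, h5⟩ := h3 (ev (C J) s) (ev_Icc (hC2 J) hs) t
        obtain ⟨h6, h7⟩ := block (hC2 J) (hC3 J) (hC5 J) hK1 hl0' hs t
        rw [hC1] at h6 h7
        rw [cnt_append, Finset.sum_range_succ, Finset.sum_range_succ]
        exact ⟨add_le_add h4 h6, add_le_add h5 h7⟩
  obtain ⟨w, hw1, hw2, hw3⟩ := hcat J
  refine ⟨w, ?_, hw2, ?_⟩
  · intro h
    rw [h] at hw1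
    simp at hw1
    omega
  intro s hs t ht
  obtain ⟨hup, hlo⟩ := hw3 s hs t
  rw [hw1]
  push_cast
  set k := ⌊t * K⌋₊ with hk
  have htK : 0 ≤ t * K := mul_nonneg ht.1 (by positivity)
  have hk1 : (k : ℝ) ≤ t * K := Nat.floor_le htK
  have hk2 : t * K < k + 1 := Nat.lt_floor_add_one _
  have hkK : k ∈ Finset.range (K + 1) := by
    rw [Finset.mem_range]
    have : (k : ℝ) < K + 1 := by nlinarith [ht.2]
    exact_mod_cast this
  have hKpos : (0 : ℝ) < K := by linarith
  set tp : ℝ := ((((k : ℚ) + 2) / K : ℚ) : ℝ) with htp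
  set tm : ℝ := ((((k : ℚ) - 1) / K : ℚ) : ℝ) with htm
  have htp' : tp = (k + 2) / K := by rw [htp]; push_cast; rfl
  have htm' : tm = (k - 1) / K := by rw [htm]; push_cast; rfl
  have hp1 : t + 1 / K ≤ tp := by
    rw [htp', le_div_iff₀ hKpos, add_mul, one_div, inv_mul_cancel₀ hKpos.ne']; linarith
  have hp2 : tp ≤ t + 2 * (1 / K) := by
    rw [htp', div_le_iff₀ hKpos, add_mul, mul_assoc, one_div, inv_mul_cancel₀ hKpos.ne']; linarith
  have hm1 : tm ≤ t - 1 / K := by
    rw [htm', div_le_iff₀ hKpos, sub_mul, one_div, inv_mul_cancel₀ hKpos.ne']; linarith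
  have hm2 : t - 2 * (1 / K) ≤ tm := by
    rw [htm', le_div_iff₀ hKpos, sub_mul, mul_assoc, one_div, inv_mul_cancel₀ hKpos.ne']; linarith
  have hcardsum : ∀ (i : ℕ) (τ : ℝ), (((Finset.range J).filter (fun j => G^[i] (z j) < τ)).card : ℝ)
      = ∑ j ∈ Finset.range J, ind (G^[i] (z j)) τ := by
    intro i τ
    rw [Finset.card_filter]
    push_cast
    rfl
  have hUP : cnt w s t ≤ J * L * (lam t + ε) := by
    refine hup.trans ?_
    rw [Finset.sum_add_distrib, Finset.sum_comm]
    have h1 : ∑ i ∈ Finset.range L, ∑ j ∈ Finset.range J, ind (G^[i] (z j)) (t + 1 / K)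
        ≤ ∑ i ∈ Finset.range L, J * (lam tp + ε / 4) := by
      apply Finset.sum_le_sum
      intro i hi
      have h2 := (hJ i hi k hkK).2
      rw [hcardsum] at h2
      have h3 := (abs_le.mp h2).2
      rw [sub_le_iff_le_add, div_le_iff₀ (by positivity)] at h3
      refine le_trans (Finset.sum_le_sum (fun j _ => ind_mono ?_)) (h3.trans (le_of_eq (by ring)))
      linarith
    rw [Finset.sum_const, Finset.card_range, nsmul_eq_mul] at h1
    rw [Finset.sum_const, Finset.card_range, nsmul_eq_mul]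
    have h4 := (lam_lip (show t ≤ tp by linarith [show (0 : ℝ) < 1 / K by positivity])).2
    have h5 : lam tp + ε / 4 ≤ lam t + ε / 2 := by linarith
    have h6 : (J : ℝ) * l0 ≤ J * (L * (ε / 16)) := by
      rw [hl0L]
      apply mul_le_mul_of_nonneg_left _ (by positivity)
      apply mul_le_mul_of_nonneg_left hKε (by positivity)
    have h7 : (L : ℝ) * (J * (lam tp + ε / 4)) ≤ L * (J * (lam t + ε / 2)) := by
      apply mul_le_mul_of_nonneg_left _ (by positivity)
      apply mul_le_mul_of_nonneg_left h5 (by positivity)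
    have h8 : (0 : ℝ) ≤ J * L * ε := by positivity
    have h9 : (L : ℝ) * (J * (lam t + ε / 2)) + J * (L * (ε / 16)) + 7 / 16 * (J * L * ε)
        = J * L * (lam t + ε) := by ring
    linarith
  have hLO : J * L * (lam t - ε) ≤ cnt w s t := by
    refine le_trans ?_ hlo
    rw [Finset.sum_sub_distrib, Finset.sum_comm]
    have h1 : ∑ i ∈ Finset.range L, (J : ℝ) * (lam tm - ε / 4)
        ≤ ∑ i ∈ Finset.range L, ∑ j ∈ Finset.range J, ind (G^[i] (z j)) (t - 1 / K) := by
      apply Finset.sum_le_sum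
      intro i hi
      have h2 := (hJ i hi k hkK).1
      rw [hcardsum] at h2
      have h3 := (abs_le.mp h2).1
      rw [le_sub_iff_add_le, le_div_iff₀ (by positivity)] at h3
      refine le_trans ?_ (Finset.sum_le_sum (fun j _ => ind_mono (t := tm) (v := G^[i] (z j)) ?_))
      · refine le_trans (le_of_eq (by ring)) h3
      · linarith
    rw [Finset.sum_const, Finset.card_range, nsmul_eq_mul] at h1
    rw [Finset.sum_const, Finset.card_range, nsmul_eq_mul]
    have h4 := (lam_lip (show tm ≤ t by linarith [show (0 : ℝ) < 1 / K by positivity])).2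
    have h5 : lam t - ε / 2 ≤ lam tm - ε / 4 := by linarith
    have h6 : (J : ℝ) * l0 ≤ J * (L * (ε / 16)) := by
      rw [hl0L]
      apply mul_le_mul_of_nonneg_left _ (by positivity)
      apply mul_le_mul_of_nonneg_left hKε (by positivity)
    have h7 : (L : ℝ) * (J * (lam t - ε / 2)) ≤ L * (J * (lam tm - ε / 4)) := by
      apply mul_le_mul_of_nonneg_left _ (by positivity)
      apply mul_le_mul_of_nonneg_left h5 (by positivity)
    have h8 : (0 : ℝ) ≤ J * L * ε := by positivity
    have h9 : (L : ℝ) * (J * (lam t - ε / 2)) - J * (L * (ε / 16)) - 7 / 16 * (J * L * ε)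
        = J * L * (lam t - ε) := by ring
    linarith
  have h8 : (0 : ℝ) ≤ J * L * ε := by positivity
  have h10 : (J : ℝ) * L * (lam t + ε) = J * L * lam t + ε * (J * L) := by ring
  have h11 : (J : ℝ) * L * (lam t - ε) = J * L * lam t - ε * (J * L) := by ring
  rw [abs_le]
  constructor <;> linarith

end Pool.Agent.W28.CF
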