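import Pool.Agent.W28.CF2
import Pool.Agent.W28.CF4

/-!
# A CF-normal `x` such that `√2 (x + 1)` is not CF-normal
-/

set_option autoImplicit false

namespace Pool.Agent.W28.CF

open Filter Topology Set

lemma ev_Ioo_of_two {w : List ℕ} (hw : ∀ a ∈ w, 1 ≤ a) (h2 : 2 ≤ w.length) {s : ℝ}
    (hs : s ∈ Icc (0 : ℝ) 1) : ev w s ∈ Ioo (0 : ℝ) 1 := by
  match w, h2 with
  | a :: b :: w, _ =>
    have ha : (1 : ℝ) ≤ a := by exact_mod_cast hw a (by simp)
    have hb : (1 : ℝ) ≤ b := by exact_mod_cast hw b (by simp)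
    have h := ev_Icc (w := w) (fun c hc => hw c (by simp [hc])) hs
    simp only [ev]
    have h0 : 0 < 1 / ((b : ℝ) + ev w s) := by
      have := h.1
      positivity
    constructor
    · positivity
    · rw [div_lt_one (by positivity)]
      linarith

/-- prefixes of a power -/
lemma take_pow (w T : List ℕ) (m : ℕ) : ∀ n : ℕ, ∃ (q : ℕ) (r : List ℕ),
    ((List.replicate m w).flatten ++ T).take n = (List.replicate q w).flatten ++ r ∧
      r.length ≤ w.length + T.length := by
  induction m with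
  | zero =>
    intro n
    refine ⟨0, T.take n, by simp, ?_⟩
    rw [List.length_take]
    omega
  | succ m ih =>
    intro n
    rcases le_or_gt n w.length with h | h
    · refine ⟨0, w.take n, ?_, ?_⟩
      · rw [List.replicate_succ, List.flatten_cons, List.append_assoc,
          List.take_append_of_le_length h]
        simp
      · rw [List.length_take]; omega
    · obtain ⟨q, r, h1, h2⟩ := ih (n - w.length)
      refine ⟨q + 1, r, ?_, h2⟩
      rw [List.replicate_succ, List.flatten_cons, List.append_assoc, List.take_append,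
        List.take_of_length_le h.le, h1, List.replicate_succ, List.flatten_cons, List.append_assoc]

lemma length_rep (w : List ℕ) (m : ℕ) : (List.replicate m w).flatten.length = m * w.length := by
  induction m with
  | zero => simp
  | succ m ih => rw [List.replicate_succ, List.flatten_cons, List.length_append, ih]; ring

theorem main_construction : ∃ x : ℝ, x ∈ Ioo (0 : ℝ) 1 ∧ Irrational x ∧
    (∀ t ∈ Icc (0 : ℝ) 1, Tendsto (fun N : ℕ =>
      (((Finset.range N).filter (fun n => G^[n] x < t)).card : ℝ) / N) atTop (𝓝 (lam t))) ∧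
    ∀ M0 : ℕ, ∃ m : ℕ, M0 ≤ m ∧ ∃ C : List ℕ, C.length = m ∧ (∀ a ∈ C, 1 ≤ a) ∧
      ∃ s' ∈ Ioo (0 : ℝ) 1, Int.fract (√2 * (x + 1)) = ev (C ++ List.replicate (m / 8) 1) s' := by
  have hgw : ∀ j : ℕ, ∃ w : List ℕ, w ≠ [] ∧ BD w (1 / ((j : ℝ) + 1) * w.length) :=
    fun j => good_word (by positivity)
  choose w hw0 hw using hgw
  have hwlen : ∀ j, 1 ≤ (w j).length := fun j => List.length_pos_iff.mpr (hw0 j)
  have hT : ∀ (v : List ℕ) (M0 : ℕ), ∃ T : List ℕ, T.length = 3 ∧ (∀ a ∈ T, 1 ≤ a) ∧
      ((∀ a ∈ v, 1 ≤ a) → ∃ m : ℕ, M0 ≤ m ∧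
      ∀ s ∈ Icc (0 : ℝ) 1, ∃ C : List ℕ, C.length = m ∧ (∀ a ∈ C, 1 ≤ a) ∧
        ∃ s' ∈ Ioo (0 : ℝ) 1,
          Int.fract (√2 * (ev (v ++ T) s + 1)) = ev (C ++ List.replicate (m / 8) 1) s') := by
    intro v M0
    by_cases hv : ∀ a ∈ v, 1 ≤ a
    · obtain ⟨T, h1, h2, h3⟩ := anomaly hv M0
      exact ⟨T, h1, h2, fun _ => h3⟩
    · exact ⟨[1, 1, 1], rfl, by simp, fun h => absurd h hv⟩
  choose T hT1 hT2 hT3 using hT
  set m : ℕ → ℕ := fun j => (j + 1) * (w (j + 1)).length with hm
  set U : ℕ → List ℕ := fun j => (List.replicate (m j) (w j)).flatten with hU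
  set L : ℕ → List ℕ := fun n => Nat.rec [] (fun j l => l ++ (U j ++ T (l ++ U j) j)) n with hL
  have hL0 : L 0 = [] := rfl
  have hLs : ∀ j, L (j + 1) = L j ++ (U j ++ T (L j ++ U j) j) := fun j => rfl
  have hUBD : ∀ j, BD (U j) (1 / ((j : ℝ) + 1) * (U j).length) := by
    intro j
    have := BD_rep (hw j) (m j)
    refine this.mono (le_of_eq ?_)
    rw [hU]
    simp only
    rw [length_rep]
    push_cast
    ring
  have hBDT : ∀ v j, BD (T v j) 3 := by
    intro v j
    have := BD_trivial (hT2 v j)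
    rw [hT1] at this
    exact_mod_cast this
  -- discrepancy of `L j`
  set E : ℕ → ℝ := fun j => ∑ i ∈ Finset.range j, (1 / ((i : ℝ) + 1) * (U i).length + 3) with hE
  have hLBD : ∀ j, BD (L j) (E j) := by
    intro j
    induction j with
    | zero =>
      have hE0 : E 0 = 0 := by simp [hE]
      rw [hL0, hE0]
      exact BD_nil
    | succ j ih =>
      rw [hLs]
      have h1 := ih.append ((hUBD j).append (hBDT (L j ++ U j) j))
      refine h1.mono (le_of_eq ?_)
      rw [hE]
      simp only
      rw [Finset.sum_range_succ]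
  have hLpos : ∀ j, ∀ a ∈ L j, 1 ≤ a := fun j => (hLBD j).1
  have hlenS : ∀ j, (L (j + 1)).length = (L j).length + (U j).length + 3 := by
    intro j
    rw [hLs, List.length_append, List.length_append, hT1]
    ring
  have hUlen : ∀ j, (U j).length = (j + 1) * (w (j + 1)).length * (w j).length := by
    intro j
    rw [hU]
    simp only
    rw [length_rep]
  -- the point `x`
  have hnest : ∀ j, ev (L (j + 1)) '' Icc (0 : ℝ) 1 ⊆ ev (L j) '' Icc (0 : ℝ) 1 := by
    intro j y hy
    obtain ⟨s, hs, rfl⟩ := hy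
    refine ⟨ev (U j ++ T (L j ++ U j) j) s, ev_Icc ?_ hs, ?_⟩
    · exact ((hUBD j).append (hBDT (L j ++ U j) j)).1
    · rw [hLs, ← ev_append]
  obtain ⟨x, hx⟩ := IsCompact.nonempty_iInter_of_sequence_nonempty_isCompact_isClosed
    (fun j => ev (L j) '' Icc (0 : ℝ) 1) hnest (fun j => (nonempty_Icc.mpr zero_le_one).image _)
    (isCompact_Icc.image_of_continuousOn (ev_cont (hLpos 0)))
    (fun j => (isCompact_Icc.image_of_continuousOn (ev_cont (hLpos j))).isClosed)
  rw [mem_iInter] at hx
  have hx' : ∀ j, ∃ s ∈ Ioo (0 : ℝ) 1, x = ev (L j) s := by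
    intro j
    obtain ⟨s, hs, hsx⟩ := hx (j + 1)
    refine ⟨ev (U j ++ T (L j ++ U j) j) s, ev_Ioo_of_two ?_ ?_ hs, ?_⟩
    · exact ((hUBD j).append (hBDT (L j ++ U j) j)).1
    · rw [List.length_append, hT1]; omega
    · rw [← ev_append, ← hLs, hsx]
  have hx01 : x ∈ Ioo (0 : ℝ) 1 := by
    obtain ⟨s, hs, h⟩ := hx' 0
    rw [h, hL0]
    exact hs
  have hSj : ∀ j, j ≤ (L j).length := by
    intro j
    induction j with
    | zero => simp
    | succ j ih => rw [hlenS]; omega
  have hirr : Irrational x := by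
    rintro ⟨r, hr⟩
    set b : ℕ := r.den with hb
    obtain ⟨s, hs, hxs⟩ := hx' (2 * b + 2)
    set W := L (2 * b + 2) with hW
    have hWpos : ∀ a ∈ W, 1 ≤ a := hLpos (2 * b + 2)
    have hq : (1 : ℝ) ≤ (q0 W : ℝ) := by exact_mod_cast (q_pos hWpos).1
    have hqb : (b : ℝ) < q0 W := by
      have h1 := (q_lower hWpos).1
      have h2 : 2 ^ (2 * b + 2) ≤ 2 ^ W.length := Nat.pow_le_pow_right (by norm_num) (hSj _)
      have h3 : b < 2 ^ b := Nat.lt_two_pow_self
      have h4 : 2 ^ (2 * b + 2) = 4 * (2 ^ b) ^ 2 := by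
        rw [pow_add, mul_comm 2 b, pow_mul]; ring
      have h5 : b ^ 2 < (q0 W) ^ 2 := by nlinarith
      have h6 : b < q0 W := lt_of_pow_lt_pow_left₀ 2 (Nat.zero_le _) h5
      exact_mod_cast h6
    have hrx : x * b = r.num := by
      rw [← hr, hb]
      exact_mod_cast Rat.mul_den_eq_num r
    have hbpos : (0 : ℝ) < b := by rw [hb]; exact_mod_cast r.den_pos
    have hsub := ev_sub hWpos hs.1.le (le_refl (0 : ℝ))
    rw [← hxs, ev_eq hWpos le_rfl] at hsub
    simp only [mul_zero, add_zero, sub_zero] at hsub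
    set N : ℤ := r.num * (q0 W : ℤ) - (b : ℤ) * (p0 W : ℤ) with hN
    have hNR : (N : ℝ) = b * (q0 W) * ((-1) ^ W.length * s / (((q0 W : ℝ) + q1 W * s) * q0 W)) := by
      rw [← hsub, hN]
      push_cast
      rw [← hrx]
      field_simp
    have hden : (q0 W : ℝ) ≤ (q0 W : ℝ) + q1 W * s := by
      have : (0 : ℝ) ≤ q1 W * s := mul_nonneg (Nat.cast_nonneg _) hs.1.le
      linarith
    have hNR' : (N : ℝ) = (-1) ^ W.length * (b * s / ((q0 W : ℝ) + q1 W * s)) := by
      rw [hNR]
      field_simp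
    have hval : 0 < b * s / ((q0 W : ℝ) + q1 W * s) := by
      have := hs.1
      apply div_pos (by positivity)
      linarith
    have hval1 : b * s / ((q0 W : ℝ) + q1 W * s) < 1 := by
      rw [div_lt_one (by linarith)]
      nlinarith [hs.2, hs.1]
    rcases neg_one_pow_eq_or ℝ W.length with h | h
    · rw [h, one_mul] at hNR'
      have h1 : (0 : ℝ) < N := by rw [hNR']; exact hval
      have h2 : (N : ℝ) < 1 := by rw [hNR']; exact hval1
      have h3 : (0 : ℤ) < N := by exact_mod_cast h1
      have h4 : N < (1 : ℤ) := by exact_mod_cast h2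
      omega
    · rw [h, neg_one_mul] at hNR'
      have h1 : (N : ℝ) < 0 := by rw [hNR']; linarith
      have h2 : (-1 : ℝ) < N := by rw [hNR']; linarith
      have h3 : N < (0 : ℤ) := by exact_mod_cast h1
      have h4 : (-1 : ℤ) < N := by exact_mod_cast h2
      omega
  refine ⟨x, hx01, hirr, ?_, ?_⟩
  · -- equidistribution
    intro t ht
    have hEj : ∀ δ : ℝ, ∀ j0 : ℕ, 4 / ((j0 : ℝ) + 1) ≤ δ → ∀ i, E (j0 + i) ≤ E j0 +
        δ * (((L (j0 + i)).length : ℝ) - (L j0).length) := by
      intro δ j0 hj0 i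
      induction i with
      | zero => simp
      | succ i ih =>
        have h1 : E (j0 + (i + 1)) = E (j0 + i) + (1 / (((j0 + i : ℕ) : ℝ) + 1) * (U (j0 + i)).length + 3) := by
          rw [hE]
          simp only
          rw [← add_assoc, Finset.sum_range_succ]
        have h2 : ((L (j0 + (i + 1))).length : ℝ) = (L (j0 + i)).length + (U (j0 + i)).length + 3 := by
          rw [← add_assoc, hlenS]; push_cast; ring
        rw [h1, h2]
        have h3 : 1 / (((j0 + i : ℕ) : ℝ) + 1) ≤ δ / 4 := by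
          have : 1 / (((j0 + i : ℕ) : ℝ) + 1) ≤ 1 / ((j0 : ℝ) + 1) := by
            apply one_div_le_one_div_of_le (by positivity)
            push_cast
            linarith [show (0 : ℝ) ≤ i from Nat.cast_nonneg i]
          have h5 : 4 / ((j0 : ℝ) + 1) = 4 * (1 / ((j0 : ℝ) + 1)) := by ring
          linarith
        have h4 : 1 ≤ 1 / (((j0 + i : ℕ) : ℝ) + 1) * (U (j0 + i)).length := by
          rw [one_div_mul_eq_div, le_div_iff₀ (by positivity), one_mul]
          have h6 : j0 + i + 1 ≤ (U (j0 + i)).length := by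
            rw [hUlen]
            have := hwlen (j0 + i)
            have := hwlen (j0 + i + 1)
            calc j0 + i + 1 = (j0 + i + 1) * 1 * 1 := by ring
              _ ≤ _ := by gcongr
          exact_mod_cast h6
        have hUnn : (0 : ℝ) ≤ (U (j0 + i)).length := Nat.cast_nonneg _
        have h5 : 1 / (((j0 + i : ℕ) : ℝ) + 1) * (U (j0 + i)).length ≤ δ / 4 * (U (j0 + i)).length :=
          mul_le_mul_of_nonneg_right h3 hUnn
        have hδ : 0 ≤ δ := le_trans (by positivity) hj0
        nlinarith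
    rw [Metric.tendsto_atTop]
    intro ε hε
    obtain ⟨j0, hj0⟩ := exists_nat_ge (16 / ε)
    have hδ : 4 / ((j0 : ℝ) + 1) ≤ ε / 4 := by
      rw [div_le_div_iff₀ (by positivity) (by norm_num)]
      rw [div_le_iff₀ hε] at hj0
      linarith
    have hEnn : 0 ≤ E (j0 + 1) := Finset.sum_nonneg (fun i _ => by positivity)
    obtain ⟨N0, hN0⟩ := exists_nat_ge (4 * E (j0 + 1) / ε)
    refine ⟨N0 + (L (j0 + 1)).length + 1, ?_⟩
    intro N hN
    -- locate `N`
    have hex : ∃ j, N < (L (j + 1)).length := ⟨N, lt_of_lt_of_le (Nat.lt_succ_self N) (hSj _)⟩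
    classical
    set j := Nat.find hex with hj
    have hj1 : N < (L (j + 1)).length := Nat.find_spec hex
    have hj0j : j0 + 1 ≤ j := by
      by_contra hcon
      have hle : j + 1 ≤ j0 + 1 := by omega
      have hmono : Monotone (fun i => (L i).length) :=
        monotone_nat_of_le_succ (fun i => by rw [hlenS]; omega)
      have := hmono hle
      simp only at this
      omega
    have hj2 : (L j).length ≤ N := by
      have hne : j ≠ 0 := by omega
      obtain ⟨j', hj'⟩ := Nat.exists_eq_succ_of_ne_zero hne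
      rw [hj']
      have := Nat.find_min hex (m := j') (by omega)
      exact not_lt.mp this
    -- the prefix of length `N`
    obtain ⟨s, hs, hxs⟩ := hx' (j + 1)
    set P := (L (j + 1)).take N with hP
    have hPlen : P.length = N := by rw [hP, List.length_take, min_eq_left hj1.le]
    have hPpos : ∀ a ∈ P, 1 ≤ a := fun a ha => hLpos (j + 1) a (List.mem_of_mem_take ha)
    set s1 := ev ((L (j + 1)).drop N) s with hs1
    have hs1' : s1 ∈ Ioo (0 : ℝ) 1 :=
      ev_Ioo (fun a ha => hLpos (j + 1) a (List.mem_of_mem_drop ha)) hs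
    have hxP : x = ev P s1 := by
      rw [hP, hs1, ← ev_append, List.take_append_drop]; exact hxs
    have hcard := orbit_count hPpos hs1' t
    rw [← hxP, hPlen] at hcard
    obtain ⟨q, r, hqr, hr⟩ := take_pow (w j) (T (L j ++ U j) j) (m j) (N - (L j).length)
    have hPeq : P = L j ++ ((List.replicate q (w j)).flatten ++ r) := by
      rw [hP, hLs, List.take_append, List.take_of_length_le hj2, ← hqr]
    have hrpos : ∀ a ∈ r, 1 ≤ a := by
      intro a ha
      apply hPpos
      rw [hPeq]
      simp [ha]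
    have hBDP := (hLBD j).append ((BD_rep (hw j) q).append (BD_trivial hrpos))
    rw [← hPeq] at hBDP
    have hfin := hBDP.2 s1 ⟨hs1'.1.le, hs1'.2.le⟩ t ht
    rw [← hcard, hPlen] at hfin
    -- bounds
    have hlenP : (N : ℝ) = (L j).length + q * (w j).length + r.length := by
      have h1 := hPlen
      rw [hPeq, List.length_append, List.length_append, length_rep] at h1
      rw [← h1]; push_cast; ring
    have hEbound := hEj (ε / 4) (j0 + 1) (by
      refine le_trans ?_ hδ
      apply div_le_div_of_nonneg_left (by norm_num) (by positivity)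
      push_cast
      linarith) (j - (j0 + 1))
    rw [Nat.add_sub_cancel' hj0j] at hEbound
    have hjR : ((j0 : ℝ) + 1) ≤ j := by exact_mod_cast hj0j
    have hεj : 1 / ((j : ℝ) + 1) ≤ ε / 16 := by
      have : 4 / ((j0 : ℝ) + 1) = 4 * (1 / ((j0 : ℝ) + 1)) := by ring
      have h2 : 1 / ((j : ℝ) + 1) ≤ 1 / ((j0 : ℝ) + 1) :=
        one_div_le_one_div_of_le (by positivity) (by linarith)
      linarith
    have hrbound : (r.length : ℝ) ≤ ε / 4 * (L j).length := by
      obtain ⟨j', hj'⟩ := Nat.exists_eq_succ_of_ne_zero (show j ≠ 0 by omega)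
      have h1 : r.length ≤ (w j).length + 3 := by rw [hT1] at hr; exact hr
      have h2 : j * (w j).length ≤ (L j).length := by
        rw [hj']
        have h3 := hlenS j'
        have h4 := hUlen j'
        have h5 := hwlen j'
        have h6 : (j' + 1) * (w (j' + 1)).length * 1 ≤ (j' + 1) * (w (j' + 1)).length * (w j').length :=
          Nat.mul_le_mul_left _ h5
        rw [Nat.succ_eq_add_one, h3, h4]
        omega
      have h3 := hwlen j
      have h4 : r.length ≤ 4 * (w j).length := by omega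
      have h5 : (r.length : ℝ) ≤ 4 * (w j).length := by exact_mod_cast h4
      have h6 : (j : ℝ) * (w j).length ≤ (L j).length := by exact_mod_cast h2
      have h7 : (4 : ℝ) ≤ ε / 4 * j := by
        rw [div_le_iff₀ (by positivity)] at hδ
        nlinarith
      have h8 : (0 : ℝ) ≤ (w j).length := Nat.cast_nonneg _
      nlinarith
    have hN1 : (1 : ℝ) ≤ N := by
      have : 1 ≤ N := by omega
      exact_mod_cast this
    have hNbig : E (j0 + 1) ≤ ε / 4 * N := by
      rw [div_le_iff₀ hε] at hN0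
      have : (N0 : ℝ) ≤ N := by
        have : N0 ≤ N := by omega
        exact_mod_cast this
      nlinarith
    rw [Real.dist_eq]
    have hdiv : (((Finset.range N).filter (fun n => G^[n] x < t)).card : ℝ) / N - lam t
        = ((((Finset.range N).filter (fun n => G^[n] x < t)).card : ℝ) - N * lam t) / N := by
      field_simp
    rw [hdiv, abs_div, abs_of_pos (show (0 : ℝ) < N by linarith), div_lt_iff₀ (by linarith)]
    refine lt_of_le_of_lt hfin ?_
    have hLnn : (0 : ℝ) ≤ (L j).length := Nat.cast_nonneg _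
    have hL1nn : (0 : ℝ) ≤ (L (j0 + 1)).length := Nat.cast_nonneg _
    have hrnn : (0 : ℝ) ≤ r.length := Nat.cast_nonneg _
    have hqnn : (0 : ℝ) ≤ (q : ℝ) * (w j).length := by positivity
    have hq2 : (q : ℝ) * (1 / ((j : ℝ) + 1) * (w j).length) ≤ ε / 16 * (q * (w j).length) := by
      have := mul_le_mul_of_nonneg_right hεj hqnn
      linarith
    have hLN : ((L j).length : ℝ) ≤ N := by rw [hlenP]; linarith
    have hqN : (q : ℝ) * (w j).length ≤ N := by rw [hlenP]; linarith
    have e1 : ε / 4 * ((L j).length : ℝ) ≤ ε / 4 * N := mul_le_mul_of_nonneg_left hLN (by positivity)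
    have e2 : ε / 16 * ((q : ℝ) * (w j).length) ≤ ε / 16 * N :=
      mul_le_mul_of_nonneg_left hqN (by positivity)
    have e3 : 0 ≤ ε / 4 * ((L (j0 + 1)).length : ℝ) := by positivity
    have e4 : 0 < ε * (N : ℝ) := by positivity
    have e5 : ε / 4 * (((L j).length : ℝ) - (L (j0 + 1)).length)
        = ε / 4 * ((L j).length : ℝ) - ε / 4 * ((L (j0 + 1)).length : ℝ) := by ring
    linarith
  · -- the anomaly
    intro M0
    obtain ⟨mm, hmm, hall⟩ := hT3 (L M0 ++ U M0) M0 (by
      intro a ha
      rcases List.mem_append.mp ha with h | h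
      · exact hLpos M0 a h
      · exact (hUBD M0).1 a h)
    obtain ⟨s, hs, hxs⟩ := hx' (M0 + 1)
    obtain ⟨C, hC1, hC2, s', hs', hfin⟩ := hall s ⟨hs.1.le, hs.2.le⟩
    refine ⟨mm, hmm, C, hC1, hC2, s', hs', ?_⟩
    rw [← hfin, List.append_assoc, ← hLs, ← hxs]

end Pool.Agent.W28.CF
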