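import Pool.Agent.W217.BE.Stm

set_option autoImplicit false

namespace Pool.Agent.W28.BESTEP
open Pool.Agent.W217.BE Polynomial

theorem res_cyc {S M : Type} [CommRing S] [AddCommGroup M] [Module S M] {P : ℕ → Type}
    [∀ i, AddCommGroup (P i)] [∀ i, Module S (P i)] {d : ∀ i, P (i + 1) →ₗ[S] P i}
    {ε : P 0 →ₗ[S] M} (h : IsRes d ε) :
    (∀ x, ε (d 0 x) = 0) ∧ ∀ i x, d i (d (i + 1) x) = 0 := by
  obtain ⟨_, h0, h1⟩ := h
  refine ⟨fun x => ?_, fun i x => ?_⟩
  · have : d 0 x ∈ LinearMap.ker ε := h0 ▸ LinearMap.mem_range_self (d 0) x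
    exact this
  · have : d (i + 1) x ∈ LinearMap.ker (d i) := (h1 i) ▸ LinearMap.mem_range_self (d (i + 1)) x
    exact this

theorem main : LIFT → HTPY → EXR → SIGTAU → KILL → CORE → STEP := by
  intro hLIFT hHTPY hEXR hSIG hKILL hCORE
  intro C κ _ _ χ M N₁ N₂ _ _ _ _ _ _ _ _ ι₁ π₁ ι₂ π₂ s₁ s₂ b₁ b₂ hs₁ hs₂ hπX h11 hX2 h22
    hB₁ hB₂
  intro P _ _ _ d ε hres i
  letI iC : ∀ i, Module C (P i) := fun i => Module.compHom (P i) (Polynomial.C : C →+* C[X])
  haveI iT : ∀ i, IsScalarTower C C[X] (P i) :=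
    fun i => IsScalarTower.of_algebraMap_smul (fun r x => rfl)
  have hst := fun i => hSIG C (P i) inferInstance
  haveI iP : ∀ i, Module.Projective C (P i) := fun i => (hst i).1
  choose σ τ hστ1 hστ2 hστ3 using fun i => (hst i).2
  obtain ⟨F, _, _, _, dF, εF, hF⟩ := hEXR C N₁
  obtain ⟨G, _, _, _, dG, εG, hG⟩ := hEXR C N₂
  obtain ⟨cF0, cF⟩ := res_cyc hF
  obtain ⟨cG0, cG⟩ := res_cyc hG
  obtain ⟨cP0, cP⟩ := res_cyc hres
  let dC : ∀ i, P (i + 1) →ₗ[C] P i := fun i => (d i).restrictScalars C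
  let εC : P 0 →ₗ[C] M := ε.restrictScalars C
  have hresC : IsRes dC εC := by
    obtain ⟨h0, h1, h2⟩ := hres
    refine ⟨h0, ?_, fun i => ?_⟩
    · ext x
      have : x ∈ LinearMap.range (d 0) ↔ x ∈ LinearMap.ker ε := by rw [h1]
      simpa [dC, εC, LinearMap.mem_range, LinearMap.mem_ker] using this
    · ext x
      have : x ∈ LinearMap.range (d (i + 1)) ↔ x ∈ LinearMap.ker (d i) := by rw [h2]
      simpa [dC, LinearMap.mem_range, LinearMap.mem_ker] using this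
  obtain ⟨f, hf0, hf⟩ := hLIFT C N₁ M F P dF εF dC εC ι₁ cF0 cF hresC
  obtain ⟨g, hg0, hg⟩ := hLIFT C N₂ M G P dG εG dC εC ι₂ cG0 cG hresC
  obtain ⟨r, hr0, hr⟩ := hLIFT C M N₂ P G dC εC dG εG π₂ cP0 cP hG
  obtain ⟨p, hp0, hp, hpX⟩ := hKILL C M N₁ P F d ε dF εF π₁ σ τ iP hστ1 hστ2 hres hF hπX
  obtain ⟨h, hh0, hh⟩ := hHTPY C M G P dG dC εC
    (fun i => (Algebra.lsmul C C (P i) (X : C[X])).comp (g i)) cG hresC
    (by
      intro x
      show ε ((X : C[X]) • g 0 x) = 0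
      rw [map_smul]
      have : ε (g 0 x) = ι₂ (εG x) := hg0 x
      rw [this, hX2])
    (by
      intro i x
      show d i ((X : C[X]) • g (i + 1) x) = (X : C[X]) • g i (dG i x)
      rw [map_smul]
      have : d i (g (i + 1) x) = g i (dG i x) := hg i x
      rw [this])
  obtain ⟨u, hu0, hu⟩ := hHTPY C N₁ F F dF dF εF
    (fun i => (p i).comp (f i) - s₁ • LinearMap.id) cF hF
    (by
      intro x
      show εF (p 0 (f 0 x) - s₁ • x) = 0
      have h1 : ε (f 0 x) = ι₁ (εF x) := hf0 x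
      rw [map_sub, map_smul, hp0, h1, h11, sub_self])
    (by
      intro i x
      show dF i (p (i + 1) (f (i + 1) x) - s₁ • x) = p i (f i (dF i x)) - s₁ • dF i x
      have h1 : d i (f (i + 1) x) = f i (dF i x) := hf i x
      rw [map_sub, map_smul, hp, h1])
  obtain ⟨v, hv0, hv⟩ := hHTPY C N₂ G G dG dG εG
    (fun i => (r i).comp (g i) - s₂ • LinearMap.id) cG hG
    (by
      intro x
      show εG (r 0 (g 0 x) - s₂ • x) = 0
      have h1 : εC (g 0 x) = ι₂ (εG x) := hg0 x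
      rw [map_sub, map_smul, hr0, h1, h22, sub_self])
    (by
      intro i x
      show dG i (r (i + 1) (g (i + 1) x) - s₂ • x) = r i (g i (dG i x)) - s₂ • dG i x
      have h1 : dC i (g (i + 1) x) = g i (dG i x) := hg i x
      rw [map_sub, map_smul, hr, h1])
  have key := hCORE C κ χ P F G d dF dG f g p r h u v σ τ s₁ s₂ cP hf hp hpX hr hh0 hh
    (fun x => by
      have := hu0 x
      have h2 : p 0 (f 0 x) - s₁ • x = dF 0 (u 0 x) := this
      rw [← h2]; abel)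
    (fun i x => by
      have := hu i x
      have h2 : p (i + 1) (f (i + 1) x) - s₁ • x = dF (i + 1) (u (i + 1) x) + u i (dF i x) := this
      rw [← h2]; abel)
    (fun x => by
      have := hv0 x
      have h2 : r 0 (g 0 x) - s₂ • x = dG 0 (v 0 x) := this
      rw [← h2]; abel)
    (fun i x => by
      have := hv i x
      have h2 : r (i + 1) (g (i + 1) x) - s₂ • x = dG (i + 1) (v (i + 1) x) + v i (dG i x) := this
      rw [← h2]; abel)
    hστ1 hστ2 hστ3 hs₁ hs₂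
  have hFc := hB₁ F dF εF hF
  have hGc := hB₂ G dG εG hG
  rcases i with _ | k
  · simpa using key.1 (b₁ 0) (hFc 0)
  · simpa using key.2 k (b₁ (k + 1)) (b₂ k) (hFc (k + 1)) (hGc k)

end Pool.Agent.W28.BESTEP
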