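import Mathlib

/-!
# Finite continued fractions with a real tail

`ev w s` is the value of `[0; w_1, ..., w_k + s]`.  Continuants, the Gauss map, and digits of
irrational numbers.
-/

set_option autoImplicit false

namespace Pool.Agent.W28.CF

open Filter Topology Set

/-- value of the continued fraction with the partial quotients `w` and tail `s` -/
noncomputable def ev : List ℕ → ℝ → ℝ
  | [], s => s
  | (a :: w), s => 1 / ((a : ℝ) + ev w s)

/-- continuant data `(p, p', q, q')` with `ev w s = (p + p' s) / (q + q' s)` -/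
def pq : List ℕ → ℕ × ℕ × ℕ × ℕ
  | [] => (0, 1, 1, 0)
  | (a :: w) => ((pq w).2.2.1, (pq w).2.2.2, a * (pq w).2.2.1 + (pq w).1,
      a * (pq w).2.2.2 + (pq w).2.1)

def p0 (w : List ℕ) : ℕ := (pq w).1
def p1 (w : List ℕ) : ℕ := (pq w).2.1
def q0 (w : List ℕ) : ℕ := (pq w).2.2.1
def q1 (w : List ℕ) : ℕ := (pq w).2.2.2

lemma p0_nil : p0 [] = 0 := rfl
lemma p1_nil : p1 [] = 1 := rfl
lemma q0_nil : q0 [] = 1 := rfl
lemma q1_nil : q1 [] = 0 := rfl
lemma p0_cons (a : ℕ) (w : List ℕ) : p0 (a :: w) = q0 w := rfl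
lemma p1_cons (a : ℕ) (w : List ℕ) : p1 (a :: w) = q1 w := rfl
lemma q0_cons (a : ℕ) (w : List ℕ) : q0 (a :: w) = a * q0 w + p0 w := rfl
lemma q1_cons (a : ℕ) (w : List ℕ) : q1 (a :: w) = a * q1 w + p1 w := rfl

lemma snoc (w : List ℕ) (a : ℕ) : p0 (w ++ [a]) = a * p0 w + p1 w ∧ p1 (w ++ [a]) = p0 w ∧
    q0 (w ++ [a]) = a * q0 w + q1 w ∧ q1 (w ++ [a]) = q0 w := by
  induction w with
  | nil => simp [p0, p1, q0, q1, pq]
  | cons b w ih =>
    obtain ⟨h1, h2, h3, h4⟩ := ih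
    simp only [List.cons_append, p0_cons, p1_cons, q0_cons, q1_cons, h1, h2, h3, h4]
    refine ⟨trivial, trivial, by ring, trivial⟩

lemma ev_append (w v : List ℕ) (s : ℝ) : ev (w ++ v) s = ev w (ev v s) := by
  induction w with
  | nil => rfl
  | cons a w ih => simp only [List.cons_append, ev, ih]

lemma ev_Icc {w : List ℕ} (hw : ∀ a ∈ w, 1 ≤ a) {s : ℝ} (hs : s ∈ Icc (0 : ℝ) 1) :
    ev w s ∈ Icc (0 : ℝ) 1 := by
  induction w with
  | nil => exact hs
  | cons a w ih =>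
    have h := ih (fun b hb => hw b (List.mem_cons_of_mem _ hb))
    have ha : (1 : ℝ) ≤ (a : ℝ) := by exact_mod_cast hw a List.mem_cons_self
    simp only [ev]
    have h0 := h.1
    constructor
    · positivity
    · rw [div_le_one (by linarith)]
      linarith

lemma ev_Ioo {w : List ℕ} (hw : ∀ a ∈ w, 1 ≤ a) {s : ℝ} (hs : s ∈ Ioo (0 : ℝ) 1) :
    ev w s ∈ Ioo (0 : ℝ) 1 := by
  induction w with
  | nil => exact hs
  | cons a w ih =>
    have h := ih (fun b hb => hw b (List.mem_cons_of_mem _ hb))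
    have ha : (1 : ℝ) ≤ (a : ℝ) := by exact_mod_cast hw a List.mem_cons_self
    simp only [ev]
    have h0 := h.1
    constructor
    · positivity
    · rw [div_lt_one (by linarith)]
      linarith

lemma q_pos {w : List ℕ} (hw : ∀ a ∈ w, 1 ≤ a) : 1 ≤ q0 w ∧ q1 w ≤ q0 w := by
  induction w using List.reverseRecOn with
  | nil => simp [q0, q1, pq]
  | append_singleton w a ih =>
    have h := ih (fun b hb => hw b (List.mem_append_left _ hb))
    have ha : 1 ≤ a := hw a (by simp)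
    obtain ⟨-, -, h3, h4⟩ := snoc w a
    rw [h3, h4]
    constructor <;> nlinarith [h.1, h.2]

lemma ev_eq {w : List ℕ} (hw : ∀ a ∈ w, 1 ≤ a) {s : ℝ} (hs : 0 ≤ s) :
    ev w s = ((p0 w : ℝ) + p1 w * s) / ((q0 w : ℝ) + q1 w * s) := by
  induction w with
  | nil => simp [ev, p0, p1, q0, q1, pq]
  | cons a w ih =>
    have hw' : ∀ b ∈ w, 1 ≤ b := fun b hb => hw b (List.mem_cons_of_mem _ hb)
    have h := ih hw'
    have hq : (1 : ℝ) ≤ (q0 w : ℝ) := by exact_mod_cast (q_pos hw').1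
    have hden : 0 < (q0 w : ℝ) + q1 w * s := by positivity
    simp only [ev, h, p0_cons, p1_cons, q0_cons, q1_cons]
    push_cast
    have ha : (1 : ℝ) ≤ (a : ℝ) := by exact_mod_cast hw a List.mem_cons_self
    have : (a : ℝ) + ((p0 w : ℝ) + p1 w * s) / ((q0 w : ℝ) + q1 w * s)
        = (a * q0 w + p0 w + (a * q1 w + p1 w) * s) / ((q0 w : ℝ) + q1 w * s) := by
      field_simp
      ring
    rw [this, one_div_div]

lemma det_eq (w : List ℕ) : (p1 w : ℝ) * q0 w - p0 w * q1 w = (-1) ^ w.length := by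
  induction w with
  | nil => simp [p0, p1, q0, q1, pq]
  | cons a w ih =>
    simp only [p0_cons, p1_cons, q0_cons, q1_cons, List.length_cons, pow_succ]
    push_cast
    linear_combination (-1 : ℝ) * ih

lemma ev_sub {w : List ℕ} (hw : ∀ a ∈ w, 1 ≤ a) {s t : ℝ} (hs : 0 ≤ s) (ht : 0 ≤ t) :
    ev w s - ev w t = (-1) ^ w.length * (s - t) /
      (((q0 w : ℝ) + q1 w * s) * ((q0 w : ℝ) + q1 w * t)) := by
  rw [ev_eq hw hs, ev_eq hw ht]
  have hq : (1 : ℝ) ≤ (q0 w : ℝ) := by exact_mod_cast (q_pos hw).1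
  have h1 : 0 < (q0 w : ℝ) + q1 w * s := by positivity
  have h2 : 0 < (q0 w : ℝ) + q1 w * t := by positivity
  rw [div_sub_div _ _ h1.ne' h2.ne', ← det_eq w]
  congr 1
  ring

lemma q_lower {w : List ℕ} (hw : ∀ a ∈ w, 1 ≤ a) : 2 ^ w.length ≤ 2 * q0 w ^ 2 ∧
    (w ≠ [] → 2 ^ w.length ≤ 4 * q1 w ^ 2) := by
  induction w using List.reverseRecOn with
  | nil => simp [q0, pq]
  | append_singleton w a ih =>
    have hw' : ∀ b ∈ w, 1 ≤ b := fun b hb => hw b (List.mem_append_left _ hb)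
    obtain ⟨h1, h2⟩ := ih hw'
    have ha : 1 ≤ a := hw a (by simp)
    obtain ⟨-, -, h3, h4⟩ := snoc w a
    have hq := q_pos hw'
    rw [h3, h4, List.length_append, List.length_singleton, pow_succ]
    refine ⟨?_, fun _ => by nlinarith⟩
    have hge : q0 w + q1 w ≤ a * q0 w + q1 w := by nlinarith [hq.1]
    have hsq : (q0 w + q1 w) ^ 2 ≤ (a * q0 w + q1 w) ^ 2 := Nat.pow_le_pow_left hge 2
    rcases eq_or_ne w [] with h | h
    · subst h
      simp [q0, q1, pq]
      exact Nat.one_le_pow _ _ ha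
    · have h5 := h2 h
      nlinarith [hq.1, hq.2]

lemma ev_contr {w : List ℕ} (hw : ∀ a ∈ w, 1 ≤ a) {s t : ℝ} (hs : s ∈ Icc (0 : ℝ) 1)
    (ht : t ∈ Icc (0 : ℝ) 1) : |ev w s - ev w t| ≤ 2 / 2 ^ w.length := by
  rw [ev_sub hw hs.1 ht.1]
  have hq : (1 : ℝ) ≤ (q0 w : ℝ) := by exact_mod_cast (q_pos hw).1
  have hl : (2 : ℝ) ^ w.length ≤ 2 * (q0 w : ℝ) ^ 2 := by exact_mod_cast (q_lower hw).1
  rw [abs_div, abs_mul, abs_pow, abs_neg, abs_one, one_pow, one_mul]
  have h1 : |s - t| ≤ 1 := by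
    rw [abs_le]; constructor <;> linarith [hs.1, hs.2, ht.1, ht.2]
  have h2 : (q0 w : ℝ) ^ 2 ≤ ((q0 w : ℝ) + q1 w * s) * ((q0 w : ℝ) + q1 w * t) := by
    have e1 : (0 : ℝ) ≤ q1 w * s := mul_nonneg (Nat.cast_nonneg _) hs.1
    have e2 : (0 : ℝ) ≤ q1 w * t := mul_nonneg (Nat.cast_nonneg _) ht.1
    nlinarith
  rw [abs_of_pos (lt_of_lt_of_le (by positivity) h2)]
  rw [div_le_div_iff₀ (lt_of_lt_of_le (by positivity) h2) (by positivity)]
  have h3 : |s - t| * 2 ^ w.length ≤ 1 * (2 * (q0 w : ℝ) ^ 2) := by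
    apply mul_le_mul h1 hl (by positivity) (by norm_num)
  linarith

/-- the Gauss map -/
noncomputable def G (y : ℝ) : ℝ := Int.fract (1 / y)

lemma G_cons {a : ℕ} {w : List ℕ} {s : ℝ} (h : ev w s ∈ Ico (0 : ℝ) 1) :
    G (ev (a :: w) s) = ev w s := by
  unfold G
  simp only [ev, one_div_one_div]
  rw [show (a : ℝ) + ev w s = ((a : ℕ) : ℝ) + ev w s from rfl, Int.fract_natCast_add]
  exact Int.fract_eq_self.mpr h

lemma G_iter_append {w : List ℕ} (hw : ∀ a ∈ w, 1 ≤ a) {v : List ℕ} (hv : ∀ a ∈ v, 1 ≤ a)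
    {s : ℝ} (hs : s ∈ Ioo (0 : ℝ) 1) : G^[w.length] (ev (w ++ v) s) = ev v s := by
  induction w with
  | nil => rfl
  | cons a w ih =>
    have hw' : ∀ b ∈ w, 1 ≤ b := fun b hb => hw b (List.mem_cons_of_mem _ hb)
    rw [List.length_cons, Function.iterate_succ_apply, List.cons_append, G_cons]
    · exact ih hw'
    · have := ev_Ioo (w := w ++ v) (by
        intro b hb
        rcases List.mem_append.mp hb with h | h
        · exact hw' b h
        · exact hv b h) hs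
      exact ⟨this.1.le, this.2⟩

lemma G_irr {y : ℝ} (hy : Irrational y) : G y ∈ Ioo (0 : ℝ) 1 ∧ Irrational (G y) := by
  have h1 : Irrational (1 / y) := by
    rw [one_div]; exact hy.inv
  have h2 : Irrational (G y) := by
    unfold G
    have : Int.fract (1 / y) = 1 / y - (⌊1 / y⌋ : ℤ) := rfl
    rw [this]
    exact h1.sub_intCast _
  refine ⟨⟨lt_of_le_of_ne (Int.fract_nonneg _) ?_, Int.fract_lt_one _⟩, h2⟩
  intro h
  apply h2
  exact ⟨0, by rw [Rat.cast_zero]; exact h⟩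

/-- an irrational number of `(0,1)` has partial quotients -/
lemma digits {y : ℝ} (hy : Irrational y) (h01 : y ∈ Ioo (0 : ℝ) 1) (m : ℕ) :
    ∃ C : List ℕ, C.length = m ∧ (∀ a ∈ C, 1 ≤ a) ∧ G^[m] y ∈ Ioo (0 : ℝ) 1 ∧
      Irrational (G^[m] y) ∧ y = ev C (G^[m] y) := by
  induction m with
  | zero => exact ⟨[], rfl, by simp, h01, hy, rfl⟩
  | succ m ih =>
    obtain ⟨C, h1, h2, h3, h4, h5⟩ := ih
    set u := G^[m] y with hu
    have hu1 : 1 < 1 / u := by
      rw [lt_div_iff₀ h3.1]; linarith [h3.2]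
    have hfl : 1 ≤ ⌊1 / u⌋ := by
      rw [Int.le_floor]; exact_mod_cast hu1.le
    obtain ⟨c, hc⟩ := Int.eq_ofNat_of_zero_le (a := ⌊1 / u⌋) (by linarith)
    have hc1 : 1 ≤ c := by
      rw [hc] at hfl; exact_mod_cast hfl
    have hG := G_irr h4
    have hs : G^[m + 1] y = G u := by rw [Function.iterate_succ_apply']
    refine ⟨C ++ [c], by simp [h1], ?_, ?_, ?_, ?_⟩
    · intro a ha
      rcases List.mem_append.mp ha with h | h
      · exact h2 a h
      · simp at h; rw [h]; exact hc1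
    · rw [hs]; exact hG.1
    · rw [hs]; exact hG.2
    · rw [ev_append, hs]
      have : ev [c] (G u) = u := by
        simp only [ev]
        have h6 : (c : ℝ) + G u = 1 / u := by
          unfold G
          have h7 : (c : ℝ) = ((⌊1 / u⌋ : ℤ) : ℝ) := by rw [hc]; simp
          rw [h7]
          exact Int.floor_add_fract (1 / u)
        rw [h6, one_div_one_div]
      rw [this]
      exact h5

end Pool.Agent.W28.CF
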