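import Pool.Agent.W28.CF1

/-!
# A huge partial quotient of `x` produces a long run of ones in `√2 (x + 1)`
-/

set_option autoImplicit false

namespace Pool.Agent.W28.CF

open Filter Topology Set

lemma q_ones {w : List ℕ} (hw : ∀ a ∈ w, 1 ≤ a) (K : ℕ) :
    q0 (w ++ List.replicate K 1) ≤ 2 ^ K * q0 w := by
  induction K with
  | zero => simp
  | succ K ih =>
    rw [List.replicate_succ', ← List.append_assoc]
    obtain ⟨-, -, h3, -⟩ := snoc (w ++ List.replicate K 1) 1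
    rw [h3, pow_succ]
    have hpos : ∀ a ∈ w ++ List.replicate K 1, 1 ≤ a := by
      intro a ha
      rcases List.mem_append.mp ha with h | h
      · exact hw a h
      · rw [(List.mem_replicate.mp h).2]
    have := (q_pos hpos).2
    nlinarith

lemma pos_ones {w : List ℕ} (hw : ∀ a ∈ w, 1 ≤ a) (K : ℕ) :
    ∀ a ∈ w ++ List.replicate K 1, 1 ≤ a := by
  intro a ha
  rcases List.mem_append.mp ha with h | h
  · exact hw a h
  · rw [(List.mem_replicate.mp h).2]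

lemma ev_cont {w : List ℕ} (hw : ∀ a ∈ w, 1 ≤ a) : ContinuousOn (ev w) (Icc (0 : ℝ) 1) := by
  have h : ∀ s ∈ Icc (0 : ℝ) 1, ev w s
      = ((p0 w : ℝ) + p1 w * s) / ((q0 w : ℝ) + q1 w * s) := fun s hs => ev_eq hw hs.1
  refine ContinuousOn.congr ?_ h
  apply ContinuousOn.div (by fun_prop) (by fun_prop)
  intro s hs
  have hq : (1 : ℝ) ≤ (q0 w : ℝ) := by exact_mod_cast (q_pos hw).1
  have : (0 : ℝ) ≤ q1 w * s := mul_nonneg (Nat.cast_nonneg _) hs.1
  linarith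

/-- every number close to the middle of a cylinder is in the cylinder -/
lemma in_cyl {W : List ℕ} (hW : ∀ a ∈ W, 1 ≤ a) {ζ : ℝ}
    (h : |ζ - ev W (1 / 2)| < 1 / (8 * (q0 W : ℝ) ^ 2)) :
    ∃ s ∈ Ioo (0 : ℝ) 1, ev W s = ζ := by
  have hq : (1 : ℝ) ≤ (q0 W : ℝ) := by exact_mod_cast (q_pos hW).1
  have hq1 : (q1 W : ℝ) ≤ q0 W := by exact_mod_cast (q_pos hW).2
  have hq2 : (0 : ℝ) ≤ q1 W := Nat.cast_nonneg _
  have e0 := ev_sub hW (s := 1 / 2) (t := 0) (by norm_num) le_rfl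
  have e1 := ev_sub hW (s := 1) (t := 1 / 2) (by norm_num) (by norm_num)
  set r : ℝ := 1 / (8 * (q0 W : ℝ) ^ 2) with hr
  have hrpos : 0 < r := by positivity
  have hD0 : r ≤ (1 / 2 - 0) / (((q0 W : ℝ) + q1 W * (1 / 2)) * ((q0 W : ℝ) + q1 W * 0)) := by
    rw [hr, div_le_div_iff₀ (by positivity) (by positivity)]
    nlinarith
  have hD1 : r ≤ (1 - 1 / 2) / (((q0 W : ℝ) + q1 W * 1) * ((q0 W : ℝ) + q1 W * (1 / 2))) := by
    rw [hr, div_le_div_iff₀ (by positivity) (by positivity)]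
    nlinarith
  rw [mul_div_assoc] at e0 e1
  obtain ⟨ha, hb⟩ := abs_lt.mp h
  have hivt := intermediate_value_uIcc (f := ev W) (a := 0) (b := 1)
    (by rw [uIcc_of_le zero_le_one]; exact ev_cont hW)
  rw [uIcc_of_le (zero_le_one (α := ℝ))] at hivt
  rcases neg_one_pow_eq_or ℝ W.length with hs | hs
  · rw [hs, one_mul] at e0 e1
    have hmem : ζ ∈ uIcc (ev W 0) (ev W 1) := by
      rw [mem_uIcc]; left; constructor <;> linarith
    obtain ⟨s, hs01, hsζ⟩ := hivt hmem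
    refine ⟨s, ⟨lt_of_le_of_ne hs01.1 ?_, lt_of_le_of_ne hs01.2 ?_⟩, hsζ⟩
    · intro h0
      rw [← h0] at hsζ
      linarith
    · intro h0
      rw [h0] at hsζ
      linarith
  · rw [hs, neg_one_mul] at e0 e1
    have hmem : ζ ∈ uIcc (ev W 0) (ev W 1) := by
      rw [mem_uIcc]; right; constructor <;> linarith
    obtain ⟨s, hs01, hsζ⟩ := hivt hmem
    refine ⟨s, ⟨lt_of_le_of_ne hs01.1 ?_, lt_of_le_of_ne hs01.2 ?_⟩, hsζ⟩
    · intro h0
      rw [← h0] at hsζ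
      linarith
    · intro h0
      rw [h0] at hsζ
      linarith

set_option maxHeartbeats 1000000 in
lemma key {w : List ℕ} (hw : ∀ a ∈ w, 1 ≤ a) (tail : ℕ → List ℕ)
    (htail : ∀ h : ℕ, 1 ≤ h → ∀ s ∈ Icc (0 : ℝ) 1, ∃ κ ∈ Icc (0 : ℝ) 1,
      ev (tail h) s = 1 / ((h : ℝ) + κ))
    (c : ℝ) (hc0 : 0 < c) (C : ℕ → List ℕ) (hC : ∀ m, (C m).length = m)
    (hCpos : ∀ m, ∀ a ∈ C m, 1 ≤ a)
    (y : ℝ) (hy : y = Int.fract (c * (ev w 0 + 1)))
    (hyC : ∀ m, ∃ t ∈ Icc (0 : ℝ) 1, y = ev (C m) t)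
    (hfreq : ∃ᶠ m in atTop,
      0 < (-1 : ℝ) ^ w.length * (ev (C m ++ List.replicate (m / 8) 1) (1 / 2) - y))
    (hc1 : 1 ≤ c) (M0 : ℕ) :
    ∃ h : ℕ, 1 ≤ h ∧ ∃ m : ℕ, M0 ≤ m ∧ ∀ s ∈ Icc (0 : ℝ) 1, ∃ s' ∈ Ioo (0 : ℝ) 1,
      Int.fract (c * (ev (w ++ tail h) s + 1)) = ev (C m ++ List.replicate (m / 8) 1) s' := by
  have hqN := q_pos hw
  set q : ℝ := (q0 w : ℝ) with hqdef
  set q' : ℝ := (q1 w : ℝ) with hq'def
  have hq : 1 ≤ q := by rw [hqdef]; exact_mod_cast hqN.1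
  have hq' : q' ≤ q := by rw [hqdef, hq'def]; exact_mod_cast hqN.2
  have hq'0 : 0 ≤ q' := Nat.cast_nonneg _
  obtain ⟨m, hsign, hm⟩ := (hfreq.and_eventually (eventually_ge_atTop
    (M0 + 128 * (q0 w) ^ 2 + 100))).exists
  set K := m / 8 with hK
  set W := C m ++ List.replicate K 1 with hWdef
  have hW : ∀ a ∈ W, 1 ≤ a := pos_ones (hCpos m) K
  set Q : ℝ := (q0 (C m) : ℝ) with hQdef
  have hQ1 : 1 ≤ Q := by rw [hQdef]; exact_mod_cast (q_pos (hCpos m)).1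
  have hQW : (q0 W : ℝ) ≤ 2 ^ K * Q := by
    have := q_ones (hCpos m) K
    rw [hQdef]
    exact_mod_cast this
  -- the basic size inequality
  have hI : 32 * q ^ 2 * (2 ^ K) ^ 2 < Q ^ 2 := by
    have h1 : 2 ^ m ≤ 2 * (q0 (C m)) ^ 2 := by
      have := (q_lower (hCpos m)).1
      rwa [hC m] at this
    have h1' : (2 : ℝ) ^ m ≤ 2 * Q ^ 2 := by rw [hQdef]; exact_mod_cast h1
    have h2 : 2 * K + 64 * (q0 w) ^ 2 ≤ m := by omega
    have h3 : (2 : ℝ) ^ (2 * K + 64 * (q0 w) ^ 2) ≤ 2 ^ m :=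
      pow_le_pow_right₀ (by norm_num) h2
    have h4 : ((64 * (q0 w) ^ 2 : ℕ) : ℝ) < 2 ^ (64 * (q0 w) ^ 2) := by
      exact_mod_cast Nat.lt_two_pow_self (n := 64 * (q0 w) ^ 2)
    push_cast at h4
    rw [pow_add] at h3
    have h5 : (2 : ℝ) ^ (2 * K) = (2 ^ K) ^ 2 := by rw [← pow_mul, mul_comm]
    rw [h5] at h3
    have h6 : (0 : ℝ) < (2 ^ K) ^ 2 := by positivity
    have h7 : 64 * q ^ 2 * (2 ^ K) ^ 2 < 2 ^ (64 * (q0 w) ^ 2) * (2 ^ K) ^ 2 :=
      mul_lt_mul_of_pos_right h4 h6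
    nlinarith
  set θ := ev W (1 / 2) with hθ
  set e : ℝ := (-1 : ℝ) ^ w.length with he
  have hee : e * e = 1 := by
    rw [he, ← pow_add, ← two_mul, pow_mul]; norm_num
  set δ : ℝ := e * (θ - y) with hδ
  have hδpos : 0 < δ := hsign
  have habs : |θ - y| = δ := by
    have : |θ - y| = |e * (θ - y)| := by
      rw [abs_mul, he, abs_pow, abs_neg, abs_one, one_pow, one_mul]
    rw [this, abs_of_pos hδpos]
  have hδQ : δ ≤ 1 / Q ^ 2 := by
    obtain ⟨t, ht, hyt⟩ := hyC m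
    rw [← habs, hθ, hWdef, ev_append, hyt]
    have hs : ev (List.replicate K 1) (1 / 2) ∈ Icc (0 : ℝ) 1 :=
      ev_Icc (by intro a ha; rw [(List.mem_replicate.mp ha).2]) ⟨by norm_num, by norm_num⟩
    set s := ev (List.replicate K 1) (1 / 2)
    rw [ev_sub (hCpos m) hs.1 ht.1, abs_div, abs_mul, abs_pow, abs_neg, abs_one, one_pow, one_mul]
    have h1 : |s - t| ≤ 1 := by
      rw [abs_le]; constructor <;> linarith [hs.1, hs.2, ht.1, ht.2]
    have e1 : (0 : ℝ) ≤ q1 (C m) * s := mul_nonneg (Nat.cast_nonneg _) hs.1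
    have e2 : (0 : ℝ) ≤ q1 (C m) * t := mul_nonneg (Nat.cast_nonneg _) ht.1
    have h2 : Q ^ 2 ≤ (Q + q1 (C m) * s) * (Q + q1 (C m) * t) := by nlinarith
    have h3 : 0 < (Q + q1 (C m) * s) * (Q + q1 (C m) * t) := lt_of_lt_of_le (by positivity) h2
    rw [abs_of_pos h3]
    exact div_le_div₀ (by norm_num) h1 (by positivity) h2
  -- the choice of the partial quotient
  set A : ℝ := c / (q ^ 2 * δ) with hA
  have hAbig : 24 ≤ A := by
    rw [hA, le_div_iff₀ (by positivity)]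
    have h1 : q ^ 2 * δ ≤ q ^ 2 * (1 / Q ^ 2) := mul_le_mul_of_nonneg_left hδQ (by positivity)
    have h2 : 24 * (q ^ 2 * (1 / Q ^ 2)) ≤ 1 := by
      rw [mul_one_div, ← mul_div_assoc, div_le_one (by positivity)]
      have : (1 : ℝ) ≤ (2 ^ K) ^ 2 := one_le_pow₀ (one_le_pow₀ (by norm_num))
      nlinarith [sq_nonneg q]
    linarith
  have hh1 := Nat.floor_le (show (0 : ℝ) ≤ A by linarith)
  have hh2 := Nat.lt_floor_add_one A
  set h := ⌊A⌋₊ with hh
  have hh3 : 1 ≤ h := by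
    rw [hh]; exact Nat.le_floor (by push_cast; linarith)
  refine ⟨h, hh3, m, by omega, ?_⟩
  intro s hs
  obtain ⟨κ, hκ, hev⟩ := htail h hh3 s hs
  set u := ev (tail h) s with hu
  have hhR : (1 : ℝ) ≤ (h : ℝ) := by exact_mod_cast hh3
  have hhκ : 0 < (h : ℝ) + κ := by linarith [hκ.1]
  have hupos : 0 < u := by rw [hev]; positivity
  -- difference of the two numbers
  set H : ℝ := (h : ℝ) + κ + q' / q with hH
  have hq'q : 0 ≤ q' / q ∧ q' / q ≤ 1 := ⟨by positivity, by rw [div_le_one (by linarith)]; exact hq'⟩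
  have hHpos : 0 < H := by linarith [hq'q.1]
  have hdiff : c * (ev (w ++ tail h) s + 1) - c * (ev w 0 + 1) = e * (c / (q ^ 2 * H)) := by
    rw [ev_append, ← hu]
    have := ev_sub hw hupos.le (le_refl (0 : ℝ))
    have h2 : c * (ev w u + 1) - c * (ev w 0 + 1) = c * (ev w u - ev w 0) := by ring
    rw [h2, this, ← he, hev, hH, ← hqdef, ← hq'def]
    field_simp
    ring
  have hHA1 : A - 1 < H := by linarith [hκ.1, hq'q.1]
  have hHA2 : H ≤ A + 2 := by linarith [hκ.2, hq'q.2]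
  have hδA : δ = c / (q ^ 2 * A) := by
    rw [hA]; field_simp
  have hclose : |c / (q ^ 2 * H) - δ| ≤ 4 * q ^ 2 * δ ^ 2 := by
    have hApos : 0 < A := by linarith
    have e1 : c / (q ^ 2 * H) - c / (q ^ 2 * A) = c / q ^ 2 * ((A - H) / (H * A)) := by
      field_simp
    rw [hδA, e1, abs_mul, abs_of_pos (show (0 : ℝ) < c / q ^ 2 by positivity), abs_div,
      abs_of_pos (show (0 : ℝ) < H * A by positivity)]
    have h1 : |A - H| ≤ 2 := by rw [abs_le]; constructor <;> linarith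
    have h2 : |A - H| / (H * A) ≤ 2 / ((A / 2) * A) :=  by
      apply div_le_div₀ (by norm_num) h1 (by positivity)
      apply mul_le_mul_of_nonneg_right _ hApos.le
      linarith
    calc c / q ^ 2 * (|A - H| / (H * A)) ≤ c / q ^ 2 * (2 / ((A / 2) * A)) :=
          mul_le_mul_of_nonneg_left h2 (by positivity)
      _ = 4 * q ^ 2 * (c / (q ^ 2 * A)) ^ 2 * (1 / c) := by field_simp; ring
      _ ≤ 4 * q ^ 2 * (c / (q ^ 2 * A)) ^ 2 * 1 := by
          apply mul_le_mul_of_nonneg_left _ (by positivity)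
          rw [div_le_one hc0]; exact hc1
      _ = _ := by rw [mul_one]
  set F : ℝ := ((⌊c * (ev w 0 + 1)⌋ : ℤ) : ℝ) with hF
  have hyF : c * (ev w 0 + 1) = F + y := by rw [hy, hF]; exact (Int.floor_add_fract _).symm
  set ζ : ℝ := c * (ev (w ++ tail h) s + 1) - F with hζ
  have hζθ : |ζ - θ| ≤ 4 * q ^ 2 * δ ^ 2 := by
    have h1 : ζ - θ = e * (c / (q ^ 2 * H) - δ) := by
      have : ζ - θ = (c * (ev (w ++ tail h) s + 1) - c * (ev w 0 + 1)) - (θ - y) := by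
        rw [hyF, hζ]; ring
      rw [this, hdiff, hδ]
      linear_combination (θ - y) * hee
    rw [h1, abs_mul, he, abs_pow, abs_neg, abs_one, one_pow, one_mul]
    exact hclose
  have hlt : |ζ - θ| < 1 / (8 * (q0 W : ℝ) ^ 2) := by
    refine lt_of_le_of_lt hζθ ?_
    have hW1 : (1 : ℝ) ≤ (q0 W : ℝ) := by exact_mod_cast (q_pos hW).1
    have h1 : 1 / (8 * (2 ^ K * Q) ^ 2) ≤ 1 / (8 * (q0 W : ℝ) ^ 2) := by
      apply one_div_le_one_div_of_le (by positivity)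
      have := pow_le_pow_left₀ (by positivity) hQW 2
      linarith
    refine lt_of_lt_of_le ?_ h1
    have h2 : δ ^ 2 ≤ (1 / Q ^ 2) ^ 2 := pow_le_pow_left₀ hδpos.le hδQ 2
    have h3 : 4 * q ^ 2 * δ ^ 2 ≤ 4 * q ^ 2 * (1 / Q ^ 2) ^ 2 :=
      mul_le_mul_of_nonneg_left h2 (by positivity)
    refine lt_of_le_of_lt h3 ?_
    rw [one_div_pow, mul_one_div, div_lt_div_iff₀ (by positivity) (by positivity)]
    have hQ2 : 0 < Q ^ 2 := by positivity
    have h6 := mul_lt_mul_of_pos_right hI hQ2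
    calc _ = 32 * q ^ 2 * (2 ^ K) ^ 2 * Q ^ 2 := by ring
      _ < Q ^ 2 * Q ^ 2 := h6
      _ = _ := by ring
  obtain ⟨s', hs', hs'ζ⟩ := in_cyl hW hlt
  refine ⟨s', hs', ?_⟩
  have h5 : c * (ev (w ++ tail h) s + 1) = ((⌊c * (ev w 0 + 1)⌋ : ℤ) : ℝ) + ζ := by
    rw [hζ, hF]; ring
  rw [h5, Int.fract_intCast_add, ← hs'ζ]
  have := ev_Ioo hW hs'
  exact Int.fract_eq_self.mpr ⟨this.1.le, this.2⟩

lemma ev_rat (w : List ℕ) {s : ℝ} (hs : ∃ r : ℚ, s = (r : ℝ)) : ∃ r : ℚ, ev w s = (r : ℝ) := by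
  induction w with
  | nil => exact hs
  | cons a w ih =>
    obtain ⟨r, hr⟩ := ih
    exact ⟨1 / (a + r), by simp only [ev, hr]; push_cast; rfl⟩

/-- After every word `v` three more partial quotients can be chosen such that `√2 (x + 1)` has a
long run of ones. -/
theorem anomaly {v : List ℕ} (hv : ∀ a ∈ v, 1 ≤ a) (M0 : ℕ) :
    ∃ T : List ℕ, T.length = 3 ∧ (∀ a ∈ T, 1 ≤ a) ∧ ∃ m : ℕ, M0 ≤ m ∧
      ∀ s ∈ Icc (0 : ℝ) 1, ∃ C : List ℕ, C.length = m ∧ (∀ a ∈ C, 1 ≤ a) ∧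
        ∃ s' ∈ Ioo (0 : ℝ) 1,
          Int.fract (√2 * (ev (v ++ T) s + 1)) = ev (C ++ List.replicate (m / 8) 1) s' := by
  have hpos2 : ∀ a ∈ v ++ [2], 1 ≤ a := by
    intro a ha
    rcases List.mem_append.mp ha with h | h
    · exact hv a h
    · simp at h; omega
  have hpos11 : ∀ a ∈ v ++ [1, 1], 1 ≤ a := by
    intro a ha
    rcases List.mem_append.mp ha with h | h
    · exact hv a h
    · simp at h; omega
  have hρ : ev (v ++ [2]) 0 = ev (v ++ [1, 1]) 0 := by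
    rw [ev_append, ev_append]
    congr 1
    simp only [ev]; norm_num
  have hc0 : (0 : ℝ) < √2 := by positivity
  have hc1 : (1 : ℝ) ≤ √2 := by
    rw [show (1 : ℝ) = √1 by simp]
    exact Real.sqrt_le_sqrt (by norm_num)
  obtain ⟨r, hr⟩ := ev_rat (v ++ [2]) (s := 0) ⟨0, by simp⟩
  have hr0 : 0 ≤ ev (v ++ [2]) 0 := (ev_Icc hpos2 ⟨le_rfl, zero_le_one⟩).1
  have hirr : Irrational (√2 * (ev (v ++ [2]) 0 + 1)) := by
    have h1 : (r + 1 : ℚ) ≠ 0 := by
      intro h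
      have : (r : ℝ) + 1 = 0 := by exact_mod_cast h
      rw [← hr] at this
      linarith
    have := irrational_sqrt_two.mul_ratCast h1
    rw [hr]
    push_cast at this
    exact this
  set y := Int.fract (√2 * (ev (v ++ [2]) 0 + 1)) with hy
  have hyirr : Irrational y := by
    have : y = √2 * (ev (v ++ [2]) 0 + 1) - (⌊√2 * (ev (v ++ [2]) 0 + 1)⌋ : ℤ) := rfl
    rw [this]
    exact hirr.sub_intCast _
  have hy01 : y ∈ Ioo (0 : ℝ) 1 := by
    refine ⟨lt_of_le_of_ne (Int.fract_nonneg _) ?_, Int.fract_lt_one _⟩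
    intro h
    apply hyirr
    exact ⟨0, by rw [Rat.cast_zero]; exact h⟩
  choose C hC1 hC2 hC3 _ hC5 using fun m => digits hyirr hy01 m
  have hyC : ∀ m, ∃ t ∈ Icc (0 : ℝ) 1, y = ev (C m) t := fun m =>
    ⟨_, ⟨(hC3 m).1.le, (hC3 m).2.le⟩, hC5 m⟩
  have hne : ∀ m, ev (C m ++ List.replicate (m / 8) 1) (1 / 2) - y ≠ 0 := by
    intro m h
    obtain ⟨r', hr'⟩ := ev_rat (C m ++ List.replicate (m / 8) 1) (s := 1 / 2)
      ⟨1 / 2, by push_cast; rfl⟩
    apply hyirr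
    exact ⟨r', by rw [← hr']; linarith⟩
  have hlen2 : (v ++ [2]).length = v.length + 1 := by simp
  have hlen11 : (v ++ [1, 1]).length = v.length + 2 := by simp
  have hor : (∃ᶠ m in atTop, 0 < (-1 : ℝ) ^ (v ++ [2]).length *
        (ev (C m ++ List.replicate (m / 8) 1) (1 / 2) - y)) ∨
      (∃ᶠ m in atTop, 0 < (-1 : ℝ) ^ (v ++ [1, 1]).length *
        (ev (C m ++ List.replicate (m / 8) 1) (1 / 2) - y)) := by
    rw [← Filter.frequently_or_distrib]
    apply Filter.Frequently.of_forall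
    intro m
    rw [hlen2, hlen11, pow_succ (-1 : ℝ) (v.length + 1)]
    have h1 : (-1 : ℝ) ^ (v.length + 1) * (ev (C m ++ List.replicate (m / 8) 1) (1 / 2) - y) ≠ 0 :=
      mul_ne_zero (pow_ne_zero _ (by norm_num)) (hne m)
    rcases lt_or_gt_of_ne h1 with h2 | h2
    · right; linarith
    · left; exact h2
  rcases hor with hf | hf
  · obtain ⟨h, hh, m, hm, hall⟩ := key hpos2 (fun h => [h, 1])
      (by
        intro h hh s hs
        refine ⟨1 / (1 + s), ⟨by have := hs.1; positivity, ?_⟩, ?_⟩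
        · rw [div_le_one (by linarith [hs.1])]; linarith [hs.1]
        · simp only [ev]; norm_num)
      √2 hc0 C hC1 hC2 y hy hyC hf hc1 M0
    refine ⟨[2, h, 1], rfl, ?_, m, hm, ?_⟩
    · intro a ha; simp at ha; omega
    · intro s hs
      obtain ⟨s', hs', hs'e⟩ := hall s hs
      refine ⟨C m, hC1 m, hC2 m, s', hs', ?_⟩
      rw [← hs'e]
      simp only [List.append_assoc, List.cons_append, List.nil_append]
  · obtain ⟨h, hh, m, hm, hall⟩ := key hpos11 (fun h => [h])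
      (by
        intro h hh s hs
        exact ⟨s, hs, rfl⟩)
      √2 hc0 C hC1 hC2 y (by rw [← hρ]) hyC hf hc1 M0
    refine ⟨[1, 1, h], rfl, ?_, m, hm, ?_⟩
    · intro a ha; simp at ha; omega
    · intro s hs
      obtain ⟨s', hs', hs'e⟩ := hall s hs
      refine ⟨C m, hC1 m, hC2 m, s', hs', ?_⟩
      rw [← hs'e]
      simp only [List.append_assoc, List.cons_append, List.nil_append]

end Pool.Agent.W28.CF
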