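import Pool.Agent.W28.CF1

/-!
# The Gauss measure and its invariance; a sample of typical numbers
-/

set_option autoImplicit false

namespace Pool.Agent.W28.CF

open Filter Topology Set MeasureTheory

/-- distribution function of the Gauss measure -/
noncomputable def lam (t : ℝ) : ℝ := Real.log (1 + max 0 (min t 1)) / Real.log 2

lemma lam_eq {t : ℝ} (h0 : 0 ≤ t) (h1 : t ≤ 1) : lam t = Real.log (1 + t) / Real.log 2 := by
  unfold lam
  rw [min_eq_left h1, max_eq_right h0]

lemma lam_nonneg (t : ℝ) : 0 ≤ lam t := by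
  unfold lam
  have : (1 : ℝ) ≤ 1 + max 0 (min t 1) := by linarith [le_max_left (0 : ℝ) (min t 1)]
  exact div_nonneg (Real.log_nonneg this) (Real.log_nonneg (by norm_num))

lemma lam_le_one (t : ℝ) : lam t ≤ 1 := by
  unfold lam
  have h2 : 0 < Real.log 2 := Real.log_pos (by norm_num)
  rw [div_le_one h2]
  have h3 : (0 : ℝ) ≤ max 0 (min t 1) := le_max_left _ _
  apply Real.log_le_log (by linarith)
  have : max 0 (min t 1) ≤ 1 := max_le (by norm_num) (min_le_right _ _)
  linarith

lemma lam_lip {s t : ℝ} (h : s ≤ t) : lam s ≤ lam t ∧ lam t ≤ lam s + 2 * (t - s) := by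
  unfold lam
  have h2 : 0 < Real.log 2 := Real.log_pos (by norm_num)
  have h3 : (0 : ℝ) ≤ max 0 (min s 1) := le_max_left _ _
  have h4 : max 0 (min s 1) ≤ max 0 (min t 1) := max_le_max le_rfl (min_le_min h le_rfl)
  have h5 : max 0 (min t 1) - max 0 (min s 1) ≤ t - s := by
    rcases le_total s 0 with hs | hs <;> rcases le_total t 0 with ht | ht <;>
    rcases le_total s 1 with hs1 | hs1 <;> rcases le_total t 1 with ht1 | ht1 <;>
    simp [*] <;> linarith
  constructor
  · apply div_le_div_of_nonneg_right _ h2.le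
    exact Real.log_le_log (by linarith) (by linarith)
  · rw [div_add' _ _ _ h2.ne', div_le_div_iff_of_pos_right h2]
    set a := max 0 (min s 1)
    set b := max 0 (min t 1)
    have h6 : Real.log (1 + b) - Real.log (1 + a) ≤ b - a := by
      rw [← Real.log_div (by linarith) (by linarith)]
      have h7 : 0 < (1 + b) / (1 + a) := by apply div_pos <;> linarith
      refine (Real.log_le_sub_one_of_pos h7).trans ?_
      rw [div_sub_one (by linarith), div_le_iff₀ (by linarith)]
      nlinarith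
    have h8 : (1 : ℝ) / 2 ≤ Real.log 2 := by
      have := Real.log_two_gt_d9
      linarith
    have h9 : 0 ≤ t - s := by linarith
    nlinarith

/-- the Gauss measure, as the law of `2 ^ U - 1` for `U` uniform on `(0,1)` -/
noncomputable def gam : Measure ℝ := (volume.restrict (Ioo (0 : ℝ) 1)).map (fun u => (2 : ℝ) ^ u - 1)

lemma meas_phi : Measurable (fun u : ℝ => (2 : ℝ) ^ u - 1) := by
  apply Measurable.sub_const
  exact (Real.continuous_const_rpow (by norm_num)).measurable

instance : IsProbabilityMeasure gam := by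
  constructor
  unfold gam
  rw [Measure.map_apply meas_phi MeasurableSet.univ]
  simp

lemma two_rpow_lam {t : ℝ} (h0 : 0 ≤ t) (h1 : t ≤ 1) : (2 : ℝ) ^ (lam t) = 1 + t := by
  rw [lam_eq h0 h1]
  exact Real.rpow_logb (b := 2) (x := 1 + t) (by norm_num) (by norm_num) (by linarith)

lemma phi_le_iff {t : ℝ} (h0 : 0 ≤ t) (h1 : t ≤ 1) (u : ℝ) : (2 : ℝ) ^ u - 1 ≤ t ↔ u ≤ lam t := by
  rw [sub_le_iff_le_add, add_comm t 1, ← two_rpow_lam h0 h1]
  exact Real.rpow_le_rpow_left_iff (by norm_num)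

lemma le_phi_iff {t : ℝ} (h0 : 0 ≤ t) (h1 : t ≤ 1) (u : ℝ) : t ≤ (2 : ℝ) ^ u - 1 ↔ lam t ≤ u := by
  rw [le_sub_iff_add_le, add_comm t 1, ← two_rpow_lam h0 h1]
  exact Real.rpow_le_rpow_left_iff (by norm_num)

lemma gam_Icc {a b : ℝ} (ha : 0 ≤ a) (hab : a ≤ b) (hb : b ≤ 1) :
    gam (Icc a b) = ENNReal.ofReal (lam b - lam a) := by
  unfold gam
  rw [Measure.map_apply meas_phi measurableSet_Icc]
  have h : (fun u : ℝ => (2 : ℝ) ^ u - 1) ⁻¹' Icc a b = Icc (lam a) (lam b) := by
    ext u
    simp only [mem_preimage, mem_Icc]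
    rw [phi_le_iff (ha.trans hab) hb, le_phi_iff ha (hab.trans hb)]
  rw [h, Measure.restrict_apply measurableSet_Icc]
  have h2 : volume (Icc (lam a) (lam b) ∩ Ioo 0 1) = volume (Icc (lam a) (lam b)) := by
    apply measure_congr
    have h3 : (Ioo (0 : ℝ) 1 : Set ℝ) =ᵐ[volume] Icc 0 1 := Ioo_ae_eq_Icc
    have h4 : (Icc (lam a) (lam b) ∩ Ioo 0 1 : Set ℝ) =ᵐ[volume] (Icc (lam a) (lam b) ∩ Icc 0 1 : Set ℝ) :=
      (ae_eq_refl _).inter h3
    refine h4.trans (Filter.EventuallyEq.of_eq ?_)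
    exact inter_eq_left.mpr (Icc_subset_Icc (lam_nonneg _) (lam_le_one _))
  rw [h2, Real.volume_Icc]

lemma gam_Ioo_compl : gam (Ioo (0 : ℝ) 1)ᶜ = 0 := by
  unfold gam
  rw [Measure.map_apply meas_phi measurableSet_Ioo.compl, Measure.restrict_apply
    (meas_phi measurableSet_Ioo.compl)]
  convert measure_empty (μ := volume)
  rw [eq_empty_iff_forall_notMem]
  rintro u ⟨hu1, hu2⟩
  apply hu1
  simp only [mem_Ioo] at hu2 ⊢
  constructor
  · have := Real.one_lt_rpow (x := 2) (by norm_num) hu2.1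
    linarith
  · have := Real.rpow_lt_rpow_of_exponent_lt (x := 2) (by norm_num) hu2.2
    rw [Real.rpow_one] at this
    linarith

lemma gam_singleton (a : ℝ) : gam {a} = 0 := by
  unfold gam
  rw [Measure.map_apply meas_phi (measurableSet_singleton a)]
  have : ((fun u : ℝ => (2 : ℝ) ^ u - 1) ⁻¹' {a}).Subsingleton := by
    intro u hu v hv
    simp only [mem_preimage, mem_singleton_iff] at hu hv
    have h : (2 : ℝ) ^ u = 2 ^ v := by linarith
    have h1 := (Real.rpow_le_rpow_left_iff (x := 2) (y := u) (z := v) (by norm_num)).mp h.le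
    have h2 := (Real.rpow_le_rpow_left_iff (x := 2) (y := v) (z := u) (by norm_num)).mp h.ge
    exact le_antisymm h1 h2
  exact this.measure_zero _

instance : NullSingletonClass gam := ⟨gam_singleton⟩

lemma gam_irr : ∀ᵐ y ∂gam, Irrational y ∧ y ∈ Ioo (0 : ℝ) 1 := by
  have h1 : ∀ᵐ y ∂gam, Irrational y := by
    have : (range ((↑) : ℚ → ℝ)).Countable := countable_range _
    exact this.ae_notMem gam
  have h2 : ∀ᵐ y ∂gam, y ∈ Ioo (0 : ℝ) 1 := by
    rw [ae_iff]
    exact gam_Ioo_compl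
  exact h1.and h2

lemma meas_G : Measurable G := by
  unfold G
  fun_prop

/-- the telescoping sum behind the invariance -/
lemma tele {t : ℝ} (h0 : 0 ≤ t) (h1 : t ≤ 1) :
    HasSum (fun n : ℕ => lam (1 / ((n : ℝ) + 1)) - lam (1 / ((n : ℝ) + 1 + t))) (lam t) := by
  have h2 : 0 < Real.log 2 := Real.log_pos (by norm_num)
  have hle : ∀ n : ℕ, 1 / ((n : ℝ) + 1 + t) ≤ 1 / ((n : ℝ) + 1) := fun n =>
    one_div_le_one_div_of_le (by positivity) (by linarith)
  have hle1 : ∀ n : ℕ, 1 / ((n : ℝ) + 1) ≤ 1 := fun n => by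
    rw [div_le_one (by positivity)]
    have : (0 : ℝ) ≤ n := Nat.cast_nonneg n
    linarith
  rw [hasSum_iff_tendsto_nat_of_nonneg (fun n => sub_nonneg.mpr (lam_lip (hle n)).1)]
  have hsum : ∀ N : ℕ, ∑ n ∈ Finset.range N, (lam (1 / ((n : ℝ) + 1)) - lam (1 / ((n : ℝ) + 1 + t)))
      = lam t - Real.log (1 + t * (1 / ((N : ℝ) + 1))) / Real.log 2 := by
    intro N
    induction N with
    | zero => simp [lam_eq h0 h1]
    | succ N ih =>
      rw [Finset.sum_range_succ, ih]
      have hN : (0 : ℝ) ≤ N := Nat.cast_nonneg N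
      rw [lam_eq (t := 1 / ((N : ℝ) + 1)) (by positivity) (hle1 N),
        lam_eq (t := 1 / ((N : ℝ) + 1 + t)) (by positivity) ((hle N).trans (hle1 N))]
      have e1 : (1 : ℝ) + 1 / (N + 1) = (N + 2) / (N + 1) := by field_simp; ring
      have e2 : (1 : ℝ) + 1 / (N + 1 + t) = (N + 2 + t) / (N + 1 + t) := by field_simp; ring
      have e3 : (1 : ℝ) + t * (1 / (N + 1)) = (N + 1 + t) / (N + 1) := by field_simp
      have e4 : (1 : ℝ) + t * (1 / (((N + 1 : ℕ) : ℝ) + 1)) = (N + 2 + t) / (N + 2) := by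
        push_cast
        field_simp
        ring
      rw [e1, e2, e3, e4, Real.log_div (by positivity) (by positivity),
        Real.log_div (by positivity) (by positivity), Real.log_div (by positivity) (by positivity),
        Real.log_div (by positivity) (by positivity)]
      field_simp
      ring
  simp_rw [hsum]
  have h3 : Tendsto (fun N : ℕ => 1 + t * (1 / ((N : ℝ) + 1))) atTop (𝓝 (1 + t * 0)) :=
    (tendsto_one_div_add_atTop_nhds_zero_nat.const_mul t).const_add 1
  have h4 : Tendsto (fun N : ℕ => Real.log (1 + t * (1 / ((N : ℝ) + 1)))) atTop (𝓝 (Real.log 1)) := by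
    apply (Real.continuousAt_log one_ne_zero).tendsto.comp
    simpa using h3
  have h5 := (h4.div_const (Real.log 2)).const_sub (lam t)
  simpa using h5

lemma G_le_iff {t y : ℝ} (h0 : 0 ≤ t) (h1 : t < 1) (hy : y ∈ Ioo (0 : ℝ) 1) :
    G y ≤ t ↔ ∃ n : ℕ, y ∈ Icc (1 / ((n : ℝ) + 1 + t)) (1 / ((n : ℝ) + 1)) := by
  have hy0 := hy.1
  have hy1 : 1 < 1 / y := by rw [lt_div_iff₀ hy.1]; linarith [hy.2]
  constructor
  · intro h
    have hfl : 1 ≤ ⌊1 / y⌋ := by rw [Int.le_floor]; exact_mod_cast hy1.le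
    obtain ⟨c, hc⟩ := Int.eq_ofNat_of_zero_le (a := ⌊1 / y⌋ - 1) (by linarith)
    refine ⟨c, ?_⟩
    have hc' : ((⌊1 / y⌋ : ℤ) : ℝ) = (c : ℝ) + 1 := by
      have : ⌊1 / y⌋ = (c : ℤ) + 1 := by linarith
      rw [this]; push_cast; ring
    have h3 : 1 / y = (c : ℝ) + 1 + G y := by
      unfold G
      rw [← hc']
      exact (Int.floor_add_fract _).symm
    have h4 : 0 ≤ G y := Int.fract_nonneg _
    have hc0 : (0 : ℝ) ≤ c := Nat.cast_nonneg c
    constructor
    · rw [div_le_iff₀ (by positivity)]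
      have : y * (1 / y) = 1 := by field_simp
      rw [h3] at this
      nlinarith
    · rw [le_div_iff₀ (by positivity)]
      have : y * (1 / y) = 1 := by field_simp
      rw [h3] at this
      nlinarith
  · rintro ⟨n, h5, h6⟩
    have hn : (0 : ℝ) ≤ n := Nat.cast_nonneg n
    rw [div_le_iff₀ (by positivity)] at h5
    rw [le_div_iff₀ (by positivity)] at h6
    have h7 : (n : ℝ) + 1 ≤ 1 / y := by rw [le_div_iff₀ hy.1]; linarith
    have h8 : 1 / y ≤ (n : ℝ) + 1 + t := by rw [div_le_iff₀ hy.1]; linarith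
    have h9 : ⌊1 / y⌋ = (n : ℤ) + 1 := by
      rw [Int.floor_eq_iff]
      push_cast
      constructor <;> linarith
    have h10 : G y = 1 / y - (n + 1) := by
      unfold G
      rw [Int.fract, h9]; push_cast; ring
    rw [h10]; linarith

lemma gam_preserving : MeasurePreserving G gam gam := by
  refine ⟨meas_G, ?_⟩
  have : IsProbabilityMeasure (gam.map G) := Measure.isProbabilityMeasure_map meas_G.aemeasurable
  apply Measure.ext_of_Iic
  intro t
  rw [Measure.map_apply meas_G measurableSet_Iic]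
  have hnull : ∀ S : Set ℝ, gam S = gam (S ∩ Ioo 0 1) := by
    intro S
    have : (S ∩ Ioo 0 1 : Set ℝ) =ᵐ[gam] S := by
      have h3 : (Ioo (0 : ℝ) 1 : Set ℝ) =ᵐ[gam] univ := by
        rw [ae_eq_univ]; exact gam_Ioo_compl
      have := (ae_eq_refl (μ := gam) S).inter h3
      simpa using this
    exact (measure_congr this).symm
  rcases lt_or_ge t 0 with ht | ht
  · have h1 : G ⁻¹' Iic t = ∅ := by
      rw [eq_empty_iff_forall_notMem]
      intro y hy
      have : 0 ≤ G y := Int.fract_nonneg _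
      simp only [mem_preimage, mem_Iic] at hy
      linarith
    rw [h1, measure_empty, hnull]
    convert (measure_empty (μ := gam)).symm
    rw [eq_empty_iff_forall_notMem]
    rintro y ⟨hy1, hy2⟩
    simp only [mem_Iic, mem_Ioo] at hy1 hy2
    linarith
  rcases lt_or_ge t 1 with ht1 | ht1
  · have hR : gam (Iic t) = ENNReal.ofReal (lam t) := by
      have h2 : gam (Iic t) = gam (Icc 0 t) := by
        rw [hnull (Iic t), hnull (Icc 0 t)]
        congr 1
        ext y
        simp only [mem_inter_iff, mem_Iic, mem_Ioo, mem_Icc]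
        constructor
        · rintro ⟨h, h', h''⟩; exact ⟨⟨h'.le, h⟩, h', h''⟩
        · rintro ⟨⟨h, h3⟩, h', h''⟩; exact ⟨h3, h', h''⟩
      rw [h2, gam_Icc le_rfl ht ht1.le, lam_eq (t := 0) le_rfl zero_le_one]
      simp
    have hL : gam (G ⁻¹' Iic t) = gam (⋃ n : ℕ, Icc (1 / ((n : ℝ) + 1 + t)) (1 / ((n : ℝ) + 1))) := by
      rw [hnull, hnull (⋃ n : ℕ, _)]
      congr 1
      ext y
      simp only [mem_inter_iff, mem_preimage, mem_Iic, mem_iUnion]
      constructor
      · rintro ⟨h, h'⟩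
        exact ⟨(G_le_iff ht ht1 h').mp h, h'⟩
      · rintro ⟨h, h'⟩
        exact ⟨(G_le_iff ht ht1 h').mpr h, h'⟩
    rw [hL, hR, measure_iUnion]
    · have hle : ∀ n : ℕ, 1 / ((n : ℝ) + 1 + t) ≤ 1 / ((n : ℝ) + 1) := fun n =>
        one_div_le_one_div_of_le (by positivity) (by linarith)
      have hle1 : ∀ n : ℕ, 1 / ((n : ℝ) + 1) ≤ 1 := fun n => by
        rw [div_le_one (by positivity)]
        have : (0 : ℝ) ≤ n := Nat.cast_nonneg n
        linarith
      have h3 : ∀ n : ℕ, gam (Icc (1 / ((n : ℝ) + 1 + t)) (1 / ((n : ℝ) + 1)))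
          = ENNReal.ofReal (lam (1 / ((n : ℝ) + 1)) - lam (1 / ((n : ℝ) + 1 + t))) :=
        fun n => gam_Icc (by positivity) (hle n) (hle1 n)
      simp_rw [h3]
      rw [← ENNReal.ofReal_tsum_of_nonneg (fun n => sub_nonneg.mpr (lam_lip (hle n)).1)
        (tele ht ht1.le).summable, (tele ht ht1.le).tsum_eq]
    · intro m n hmn
      rw [Function.onFun, Set.disjoint_left]
      rintro y ⟨h1, h2⟩ ⟨h3, h4⟩
      have key : ∀ a b : ℕ, a < b → y ≤ 1 / ((b : ℝ) + 1) → 1 / ((a : ℝ) + 1 + t) ≤ y → False := by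
        intro a b hab h5 h6
        have h7 : 1 / ((b : ℝ) + 1) < 1 / ((a : ℝ) + 1 + t) := by
          apply one_div_lt_one_div_of_lt (by positivity)
          have : (a : ℝ) + 1 ≤ b := by exact_mod_cast hab
          linarith
        linarith
      rcases lt_or_gt_of_ne hmn with h | h
      · exact key m n h h4 h1
      · exact key n m h h2 h3
    · intro n; exact measurableSet_Icc
  · have h1 : G ⁻¹' Iic t = univ := by
      rw [eq_univ_iff_forall]
      intro y
      have : G y < 1 := Int.fract_lt_one _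
      simp only [mem_preimage, mem_Iic]
      linarith
    rw [h1, hnull univ, hnull (Iic t)]
    congr 1
    ext y
    simp only [mem_inter_iff, mem_univ, true_and, mem_Iic, mem_Ioo]
    constructor
    · rintro ⟨h, h'⟩; exact ⟨by linarith, h, h'⟩
    · rintro ⟨_, h, h'⟩; exact ⟨h, h'⟩

lemma gam_Iio (t : ℝ) : (gam (Iio t)).toReal = lam t := by
  have h0 : gam (Iio t) = gam (Icc 0 (max 0 (min t 1))) := by
    have hae : (Iio t : Set ℝ) =ᵐ[gam] (Icc 0 (max 0 (min t 1)) : Set ℝ) := by
      have h1 : ∀ᵐ y ∂gam, y ≠ t := by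
        have := (countable_singleton t).ae_notMem gam
        simpa using this
      filter_upwards [gam_irr, h1] with y hy hyt
      apply propext
      change y < t ↔ y ∈ Icc 0 (max 0 (min t 1))
      rw [mem_Icc, le_max_iff, le_min_iff]
      obtain ⟨-, hy0, hy1⟩ := hy
      constructor
      · intro h; exact ⟨hy0.le, Or.inr ⟨h.le, hy1.le⟩⟩
      · rintro ⟨_, h | h⟩
        · linarith
        · exact lt_of_le_of_ne h.1 hyt
    exact measure_congr hae
  have h3 : (0 : ℝ) ≤ max 0 (min t 1) := le_max_left _ _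
  have h4 : max 0 (min t 1) ≤ 1 := max_le (by norm_num) (min_le_right _ _)
  rw [h0, gam_Icc le_rfl h3 h4, lam_eq (t := 0) le_rfl zero_le_one, lam_eq h3 h4]
  have h5 : Real.log (1 + max 0 (min t 1)) / Real.log 2 = lam t := rfl
  rw [h5]
  simp [ENNReal.toReal_ofReal (lam_nonneg t)]

/-- a sequence of typical numbers -/
lemma sample : ∃ z : ℕ → ℝ, (∀ j, Irrational (z j) ∧ z j ∈ Ioo (0 : ℝ) 1) ∧
    ∀ (i : ℕ) (t : ℚ), Tendsto (fun J : ℕ =>
      (((Finset.range J).filter (fun j => G^[i] (z j) < (t : ℝ))).card : ℝ) / J) atTop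
      (𝓝 (lam t)) := by
  obtain ⟨Ω, mΩ, P, X, hXm, hXlaw, hXind, hP⟩ := ProbabilityTheory.exists_iid ℕ gam
  have hirr : ∀ j, ∀ᵐ ω ∂P, Irrational (X j ω) ∧ X j ω ∈ Ioo (0 : ℝ) 1 := by
    intro j
    have h1 := gam_irr
    rw [← (hXlaw j).map_eq] at h1
    exact ae_of_ae_map (hXm j).aemeasurable h1
  have hlln : ∀ (i : ℕ) (t : ℚ), ∀ᵐ ω ∂P, Tendsto (fun J : ℕ =>
      (((Finset.range J).filter (fun j => G^[i] (X j ω) < (t : ℝ))).card : ℝ) / J) atTop
      (𝓝 (lam t)) := by
    intro i t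
    have hmeasi : Measurable (G^[i]) := meas_G.iterate i
    set f : ℝ → ℝ := fun y => Set.indicator {y | G^[i] y < (t : ℝ)} (fun _ => (1 : ℝ)) y with hf
    have hS : MeasurableSet {y : ℝ | G^[i] y < (t : ℝ)} := hmeasi measurableSet_Iio
    have hfm : Measurable f := measurable_const.indicator hS
    have hfb : ∀ y, |f y| ≤ 1 := by
      intro y
      simp only [hf, indicator]
      split_ifs <;> simp
    have hint : Integrable (fun ω => f (X 0 ω)) P := by
      apply Integrable.of_bound (hfm.comp (hXm 0)).aestronglyMeasurable 1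
      exact Eventually.of_forall (fun ω => hfb _)
    have hind : Pairwise (Function.onFun (fun a b => ProbabilityTheory.IndepFun a b P)
        (fun j ω => f (X j ω))) := by
      intro a b hab
      exact (hXind.indepFun hab).comp hfm hfm
    have hid : ∀ j, ProbabilityTheory.IdentDistrib (fun ω => f (X j ω)) (fun ω => f (X 0 ω)) P P := by
      intro j
      have : ProbabilityTheory.IdentDistrib (X j) (X 0) P P :=
        ⟨(hXm j).aemeasurable, (hXm 0).aemeasurable, by rw [(hXlaw j).map_eq, (hXlaw 0).map_eq]⟩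
      exact this.comp hfm
    have hE : ∫ ω, f (X 0 ω) ∂P = lam t := by
      have h1 : ∫ ω, f (X 0 ω) ∂P = ∫ y, f y ∂gam := by
        rw [← (hXlaw 0).map_eq, integral_map (hXm 0).aemeasurable hfm.aestronglyMeasurable]
      rw [h1, hf, integral_indicator hS]
      simp only [integral_const, smul_eq_mul, mul_one, MeasurableSet.univ, measureReal_restrict_apply,
        univ_inter]
      have h2 : gam {y : ℝ | G^[i] y < (t : ℝ)} = gam (Iio (t : ℝ)) :=
        (gam_preserving.iterate i).measure_preimage measurableSet_Iio.nullMeasurableSet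
      rw [measureReal_def, h2, gam_Iio]
    have hslln := ProbabilityTheory.strong_law_ae_real (fun j ω => f (X j ω)) hint hind hid
    filter_upwards [hslln] with ω hω
    rw [hE] at hω
    refine hω.congr (fun J => ?_)
    congr 1
    rw [Finset.card_filter]
    push_cast
    apply Finset.sum_congr rfl
    intro j _
    simp only [hf, indicator, mem_ofPred_eq]
  have h1 := ae_all_iff.mpr hirr
  have h2 := ae_all_iff.mpr (fun i => ae_all_iff.mpr (hlln i))
  obtain ⟨ω, hω1, hω2⟩ := (h1.and h2).exists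
  exact ⟨fun j => X j ω, hω1, hω2⟩

end Pool.Agent.W28.CF
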