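import Mathlib

set_option autoImplicit false

/-! Lower bound for the exponential sum with phase `2 (x/3)^(3/2)`, block by block. -/

namespace Pool.Agent.W28.EP

open Finset Real

/-- Abel summation. -/
lemma abel_id (s v k : ℕ → ℝ) (L : ℕ) :
    ∑ i ∈ range (L + 1), ((s i - s (i + 1)) + k i * (v (i + 1) - v i))
      = (s 0 - s (L + 1)) + (k L * v (L + 1) - k 0 * v 0
          + ∑ i ∈ range L, (k i - k (i + 1)) * v (i + 1)) := by
  induction L with
  | zero => simp; ring
  | succ L ih => rw [sum_range_succ, ih, sum_range_succ]; ring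

/-- cotangent of `π x`. -/
noncomputable def ct (x : ℝ) : ℝ := cos (π * x) / sin (π * x)

lemma sin_id (a b : ℝ) (h : sin (π * (b - a)) ≠ 0) :
    2 * sin (2 * π * a) = (sin (2 * π * a) - sin (2 * π * b))
      + ct (b - a) * ((1 - cos (2 * π * b)) - (1 - cos (2 * π * a))) := by
  have h1 : cos (2 * π * a) - cos (2 * π * b) = 2 * sin (π * (a + b)) * sin (π * (b - a)) := by
    have e1 : 2 * π * a = π * (a + b) - π * (b - a) := by ring
    have e2 : 2 * π * b = π * (a + b) + π * (b - a) := by ring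
    rw [e1, e2, cos_sub, cos_add]; ring
  have h2 : sin (2 * π * a) + sin (2 * π * b) = 2 * sin (π * (a + b)) * cos (π * (b - a)) := by
    have e1 : 2 * π * a = π * (a + b) - π * (b - a) := by ring
    have e2 : 2 * π * b = π * (a + b) + π * (b - a) := by ring
    rw [e1, e2, sin_sub, sin_add]; ring
  have h3 : ct (b - a) * ((1 - cos (2 * π * b)) - (1 - cos (2 * π * a)))
      = 2 * sin (π * (a + b)) * cos (π * (b - a)) := by
    have : (1 - cos (2 * π * b)) - (1 - cos (2 * π * a)) = 2 * sin (π * (a + b)) * sin (π * (b - a)) := by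
      linarith
    rw [this, ct]; field_simp
  rw [h3, ← h2]; ring

/-- `ct` is decreasing on intervals where `sin` keeps its sign. -/
lemma ct_anti {x y : ℝ} (hxy : x ≤ y) (hy : y - x ≤ 1) (hp : 0 < sin (π * x) * sin (π * y)) :
    ct y ≤ ct x := by
  have hx0 : sin (π * x) ≠ 0 := by
    intro h; rw [h] at hp; simp at hp
  have hy0 : sin (π * y) ≠ 0 := by
    intro h; rw [h] at hp; simp at hp
  have h : ct x - ct y = sin (π * (y - x)) / (sin (π * x) * sin (π * y)) := by
    have : π * (y - x) = π * y - π * x := by ring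
    rw [this, sin_sub, ct, ct]; field_simp
  have h2 : 0 ≤ sin (π * (y - x)) := by
    apply sin_nonneg_of_nonneg_of_le_pi
    · exact mul_nonneg pi_pos.le (by linarith)
    · nlinarith [pi_pos]
  have : 0 ≤ ct x - ct y := by rw [h]; exact div_nonneg h2 hp.le
  linarith

lemma sin_pi_pos {x : ℝ} (h0 : 0 < x) (h1 : x < 1) : 0 < sin (π * x) := by
  apply sin_pos_of_pos_of_lt_pi
  · positivity
  · nlinarith [pi_pos]

lemma sin_pi_neg {x : ℝ} (h0 : x < 0) (h1 : -1 < x) : sin (π * x) < 0 := by
  have := sin_pi_pos (x := -x) (by linarith) (by linarith)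
  rw [mul_neg, sin_neg] at this
  linarith

lemma ct_three_quarters : ct (3/4) = -1 := by
  unfold ct
  have e : π * (3/4) = π - π/4 := by ring
  rw [e, cos_pi_sub, sin_pi_sub, cos_pi_div_four, sin_pi_div_four]
  have : √2 / 2 ≠ 0 := by positivity
  field_simp

lemma ct_neg (x : ℝ) : ct (-x) = - ct x := by
  unfold ct; rw [mul_neg, cos_neg, sin_neg, div_neg]

/-- Right half block. -/
lemma block_right (g : ℕ → ℝ) (L : ℕ) (hg0 : cos (2 * π * g 0) = 1)
    (hpos : ∀ i ≤ L, 0 < g (i + 1) - g i) (hle : ∀ i ≤ L, g (i + 1) - g i ≤ 3 / 4) :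
    -4 + ∑ i ∈ range L, (ct (g (i + 1) - g i) - ct (g (i + 2) - g (i + 1)))
          * (1 - cos (2 * π * g (i + 1)))
      ≤ 2 * ∑ i ∈ range (L + 1), sin (2 * π * g i) := by
  have h1 : 2 * ∑ i ∈ range (L + 1), sin (2 * π * g i)
      = ∑ i ∈ range (L + 1), ((sin (2 * π * g i) - sin (2 * π * g (i + 1)))
        + ct (g (i + 1) - g i) * ((1 - cos (2 * π * g (i + 1))) - (1 - cos (2 * π * g i)))) := by
    rw [mul_sum]
    apply sum_congr rfl
    intro i hi
    rw [mem_range] at hi
    apply sin_id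
    have a := hpos i (by omega)
    have b := hle i (by omega)
    exact (sin_pi_pos a (by linarith)).ne'
  have h2 := abel_id (fun i => sin (2 * π * g i)) (fun i => 1 - cos (2 * π * g i))
    (fun i => ct (g (i + 1) - g i)) L
  rw [h1, h2, hg0]
  have h3 : -1 ≤ ct (g (L + 1) - g L) := by
    rw [← ct_three_quarters]
    have a := hpos L le_rfl
    have b := hle L le_rfl
    apply ct_anti b (by linarith)
    exact mul_pos (sin_pi_pos a (by linarith)) (sin_pi_pos (by norm_num) (by norm_num))
  have h4 : 0 ≤ 1 - cos (2 * π * g (L + 1)) := by linarith [cos_le_one (2 * π * g (L + 1))]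
  have h5 : 1 - cos (2 * π * g (L + 1)) ≤ 2 := by linarith [neg_one_le_cos (2 * π * g (L + 1))]
  have h6 := neg_one_le_sin (2 * π * g 0)
  have h7 := sin_le_one (2 * π * g (L + 1))
  have h8 : -2 ≤ ct (g (L + 1) - g L) * (1 - cos (2 * π * g (L + 1))) := by
    nlinarith
  have e : ∀ i, g (i + 1 + 1) = g (i + 2) := fun i => rfl
  simp only [e]
  linarith

/-- Left half block. -/
lemma block_left (g : ℕ → ℝ) (L : ℕ) (hg0 : cos (2 * π * g (L + 1)) = 1)
    (hneg : ∀ i ≤ L, g (i + 1) - g i < 0) (hge : ∀ i ≤ L, -(3 / 4) ≤ g (i + 1) - g i)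
    (hmono : ∀ i < L, g (i + 1) - g i ≤ g (i + 2) - g (i + 1)) :
    -4 ≤ 2 * ∑ i ∈ range (L + 1), sin (2 * π * g i) := by
  have h1 : 2 * ∑ i ∈ range (L + 1), sin (2 * π * g i)
      = ∑ i ∈ range (L + 1), ((sin (2 * π * g i) - sin (2 * π * g (i + 1)))
        + ct (g (i + 1) - g i) * ((1 - cos (2 * π * g (i + 1))) - (1 - cos (2 * π * g i)))) := by
    rw [mul_sum]
    apply sum_congr rfl
    intro i hi
    rw [mem_range] at hi
    apply sin_id
    have a := hneg i (by omega)
    have b := hge i (by omega)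
    exact (sin_pi_neg a (by linarith)).ne
  have h2 := abel_id (fun i => sin (2 * π * g i)) (fun i => 1 - cos (2 * π * g i))
    (fun i => ct (g (i + 1) - g i)) L
  rw [h1, h2, hg0]
  have h3 : ct (g 1 - g 0) ≤ 1 := by
    have e : (1:ℝ) = ct (-(3/4)) := by rw [ct_neg, ct_three_quarters]; norm_num
    rw [e]
    have a := hneg 0 (by omega)
    have b := hge 0 (by omega)
    simp only [zero_add] at a b
    apply ct_anti b (by linarith)
    exact mul_pos_of_neg_of_neg (sin_pi_neg (by norm_num) (by norm_num))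
      (sin_pi_neg a (by linarith))
  have h4 : 0 ≤ 1 - cos (2 * π * g 0) := by linarith [cos_le_one (2 * π * g 0)]
  have h5 : 1 - cos (2 * π * g 0) ≤ 2 := by linarith [neg_one_le_cos (2 * π * g 0)]
  have h6 := neg_one_le_sin (2 * π * g 0)
  have h7 := sin_le_one (2 * π * g (L + 1))
  have h8 : ct (g 1 - g 0) * (1 - cos (2 * π * g 0)) ≤ 2 := by
    nlinarith
  have h9 : 0 ≤ ∑ i ∈ range L, (ct (g (i + 1) - g i) - ct (g (i + 1 + 1) - g (i + 1)))
      * (1 - cos (2 * π * g (i + 1))) := by
    apply sum_nonneg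
    intro i hi
    rw [mem_range] at hi
    have a := hneg i (by omega)
    have b := hge i (by omega)
    have a' := hneg (i + 1) (by omega)
    have b' := hge (i + 1) (by omega)
    have hm := hmono i hi
    apply mul_nonneg
    · have := ct_anti (x := g (i + 1) - g i) (y := g (i + 1 + 1) - g (i + 1)) hm (by linarith)
        (mul_pos_of_neg_of_neg (sin_pi_neg a (by linarith)) (sin_pi_neg a' (by linarith)))
      linarith
    · linarith [cos_le_one (2 * π * g (i + 1))]
  simp only [zero_add]
  linarith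

end Pool.Agent.W28.EP
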