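import Pool.Agent.W28.EPSum

set_option autoImplicit false

namespace Pool.Agent.W28.EP

open Finset Real

/-- block ends -/
def B (k : ℕ) : ℕ := 3 * k * (k + 1) + 1

lemma B_add (k : ℕ) : B k + (3 * k + 2) = 3 * (k + 1) ^ 2 := by unfold B; ring

lemma B_succ (k : ℕ) : B (k + 1) = 3 * (k + 1) ^ 2 + (3 * (k + 1) + 1) := by unfold B; ring

lemma left_bound (k : ℕ) :
    -4 ≤ 2 * ∑ i ∈ range (3 * k + 2), sin (2 * π * ph (B k + i)) := by
  set g : ℕ → ℝ := fun i => gg (k + 1) (B k + i) with hg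
  have hδ : ∀ i, g (i + 1) - g i = ph (B k + i + 1) - ph (B k + i) - (k + 1) := by
    intro i
    have e : B k + (i + 1) = B k + i + 1 := by ring
    simp only [hg, e]
    have := gg_diff (k + 1) (B k + i)
    push_cast at this
    exact this
  have hend : g (3 * k + 1 + 1) = 0 := by
    simp only [hg]
    have e : B k + (3 * k + 1 + 1) = 3 * (k + 1) ^ 2 := by rw [← B_add]
    rw [e]; exact gg_center (k + 1)
  have hneg : ∀ i ≤ 3 * k + 1, g (i + 1) - g i < 0 := by
    intro i hi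
    rw [hδ]
    have h1 := D_lt (B k + i)
    have h2 : u (B k + i + 1) ≤ k + 1 := by
      have : u (B k + i + 1) ≤ u (3 * (k + 1) ^ 2) := by
        apply u_mono; rw [← B_add]; omega
      rw [u_center] at this
      push_cast at this
      exact this
    linarith
  have hge : ∀ i ≤ 3 * k + 1, -(3 / 4) ≤ g (i + 1) - g i := by
    intro i hi
    rw [hδ]
    have h1 := lt_D (B k + i)
    have h2 : (k : ℝ) + 1 - 3 / 4 ≤ u (B k + i) := by
      apply (pow_le_pow_iff_left₀ (by
        have : (0:ℝ) ≤ k := by positivity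
        linarith) (u_nonneg _) two_ne_zero).1
      rw [u_sq]
      unfold B
      push_cast
      have : (0:ℝ) ≤ k := by positivity
      have : (0:ℝ) ≤ i := by positivity
      nlinarith
    linarith
  have hmono : ∀ i < 3 * k + 1, g (i + 1) - g i ≤ g (i + 2) - g (i + 1) := by
    intro i _
    have h1 := hδ (i + 1)
    have e : g (i + 2) - g (i + 1) = g (i + 1 + 1) - g (i + 1) := rfl
    rw [e, h1, hδ]
    have := D_mono (B k + i)
    have e : B k + (i + 1) = B k + i + 1 := by ring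
    rw [e]
    linarith
  have := block_left g (3 * k + 1) (by rw [hend]; simp) hneg hge hmono
  have hsum : ∑ i ∈ range (3 * k + 1 + 1), sin (2 * π * g i)
      = ∑ i ∈ range (3 * k + 2), sin (2 * π * ph (B k + i)) := by
    apply sum_congr rfl
    intro i _
    exact sin_gg (k + 1) _
  rw [hsum] at this
  exact this

lemma block_bound (k : ℕ) (hk : 40 ≤ k) :
    √(k + 1 : ℝ) / 40 - 4 ≤ ∑ n ∈ Ico (B k) (B (k + 1)), sin (2 * π * ph n) := by
  have h1 := left_bound k
  have h2 := right_bound (k + 1) (by omega)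
  push_cast at h2
  have h3 : ∑ n ∈ Ico (B k) (B (k + 1)), sin (2 * π * ph n)
      = ∑ i ∈ range (3 * k + 2), sin (2 * π * ph (B k + i))
        + ∑ i ∈ range (3 * (k + 1) + 1), sin (2 * π * ph (3 * (k + 1) ^ 2 + i)) := by
    have hm1 : B k ≤ 3 * (k + 1) ^ 2 := by rw [← B_add]; omega
    have hm2 : 3 * (k + 1) ^ 2 ≤ B (k + 1) := by rw [B_succ]; omega
    rw [← sum_Ico_consecutive _ hm1 hm2, sum_Ico_eq_sum_range, sum_Ico_eq_sum_range]
    have e1 : 3 * (k + 1) ^ 2 - B k = 3 * k + 2 := by rw [← B_add]; omega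
    have e2 : B (k + 1) - 3 * (k + 1) ^ 2 = 3 * (k + 1) + 1 := by rw [B_succ]; omega
    rw [e1, e2]
  rw [h3]
  linarith

lemma blocks_bound (a b : ℕ) (ha : 40 ≤ a) (hab : a ≤ b) :
    (b - a : ℝ) * (√(a : ℝ) / 40 - 4) ≤ ∑ n ∈ Ico (B a) (B b), sin (2 * π * ph n) := by
  induction b, hab using Nat.le_induction with
  | base => simp
  | succ b hb ih =>
    have hmon : ∀ c d : ℕ, c ≤ d → B c ≤ B d := by
      intro c d hcd; unfold B
      have : 3 * c * (c + 1) ≤ 3 * d * (d + 1) := by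
        apply Nat.mul_le_mul <;> omega
      omega
    rw [← sum_Ico_consecutive _ (hmon a b hb) (hmon b (b + 1) (by omega))]
    have h1 := block_bound b (by omega)
    have h2 : √(a : ℝ) ≤ √(b + 1 : ℝ) := by
      apply sqrt_le_sqrt
      have : (a : ℝ) ≤ b := by exact_mod_cast hb
      linarith
    push_cast
    linarith

/-- The phase function. -/
noncomputable def F0 (x : ℝ) : ℝ := (2 / 3 ^ (3 / 2 : ℝ)) * x ^ (3 / 2 : ℝ)

lemma F0_nat (n : ℕ) : F0 n = ph n := by
  unfold F0 ph u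
  have h : (√((n : ℝ) / 3)) ^ 3 = ((n : ℝ) / 3) ^ (3 / 2 : ℝ) := by
    rw [sqrt_eq_rpow, ← rpow_natCast, ← rpow_mul (by positivity)]
    norm_num
  rw [h, div_rpow (by positivity) (by norm_num)]
  ring

/-- Lower bound for the exponential sum. -/
theorem sum_lower (a b : ℕ) (ha : 40 ≤ a) (hab : a ≤ b) :
    (b - a : ℝ) * (√(a : ℝ) / 40 - 4) ≤
      ‖∑ n ∈ Ico (B a) (B b),
        Complex.exp (2 * (π : ℂ) * Complex.I * ((F0 (n : ℝ) : ℝ) : ℂ))‖ := by
  refine le_trans (blocks_bound a b ha hab) ?_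
  have h1 : ∑ n ∈ Ico (B a) (B b), sin (2 * π * ph n)
      = (∑ n ∈ Ico (B a) (B b),
        Complex.exp (2 * (π : ℂ) * Complex.I * ((F0 (n : ℝ) : ℝ) : ℂ))).im := by
    rw [Complex.im_sum]
    apply sum_congr rfl
    intro n _
    rw [F0_nat]
    have : 2 * (π : ℂ) * Complex.I * ((ph n : ℝ) : ℂ) = ((2 * π * ph n : ℝ) : ℂ) * Complex.I := by
      push_cast; ring
    rw [this, Complex.exp_ofReal_mul_I_im]
  rw [h1]
  exact (le_abs_self _).trans (Complex.abs_im_le_norm _)

end Pool.Agent.W28.EP
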