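import Pool.Agent.W28.EPBlock

set_option autoImplicit false

namespace Pool.Agent.W28.EP

open Finset Real

/-- `u n = √(n/3)`. -/
noncomputable def u (n : ℕ) : ℝ := √((n : ℝ) / 3)

/-- phase at integers: `2 (n/3)^(3/2)`. -/
noncomputable def ph (n : ℕ) : ℝ := 2 * u n ^ 3

lemma u_nonneg (n : ℕ) : 0 ≤ u n := sqrt_nonneg _

lemma u_sq (n : ℕ) : u n ^ 2 = (n : ℝ) / 3 := sq_sqrt (by positivity)

lemma u_lt_succ (n : ℕ) : u n < u (n + 1) := by
  unfold u
  apply sqrt_lt_sqrt (by positivity)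
  push_cast; linarith

lemma u_mono {a b : ℕ} (h : a ≤ b) : u a ≤ u b := by
  unfold u
  apply sqrt_le_sqrt
  have : (a : ℝ) ≤ b := by exact_mod_cast h
  linarith

lemma u_succ_sq (n : ℕ) : u (n + 1) ^ 2 - u n ^ 2 = 1 / 3 := by
  rw [u_sq, u_sq]; push_cast; ring

lemma lt_D (n : ℕ) : u n < ph (n + 1) - ph n := by
  have h := u_succ_sq n
  have h0 := u_nonneg n
  have h1 := u_lt_succ n
  have e : ph (n + 1) - ph n - u n = (u (n + 1) - u n) ^ 2 * (2 * u (n + 1) + u n) := by
    unfold ph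
    linear_combination (3 * u n) * h
  have : 0 < (u (n + 1) - u n) ^ 2 * (2 * u (n + 1) + u n) := by
    apply mul_pos
    · have : 0 < u (n + 1) - u n := by linarith
      positivity
    · linarith
  linarith

lemma D_lt (n : ℕ) : ph (n + 1) - ph n < u (n + 1) := by
  have h := u_succ_sq n
  have h0 := u_nonneg n
  have h1 := u_lt_succ n
  have e : u (n + 1) - (ph (n + 1) - ph n) = (u (n + 1) - u n) ^ 2 * (u (n + 1) + 2 * u n) := by
    unfold ph
    linear_combination (-3 * u (n + 1)) * h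
  have : 0 < (u (n + 1) - u n) ^ 2 * (u (n + 1) + 2 * u n) := by
    apply mul_pos
    · have : 0 < u (n + 1) - u n := by linarith
      positivity
    · linarith
  linarith

lemma D_mono (n : ℕ) : ph (n + 1) - ph n ≤ ph (n + 2) - ph (n + 1) :=
  (D_lt n).le.trans (lt_D (n + 1)).le

/-- shifted phase -/
noncomputable def gg (ν : ℕ) (n : ℕ) : ℝ := ph n - ν * n + (ν : ℝ) ^ 3

lemma gg_diff (ν n : ℕ) : gg ν (n + 1) - gg ν n = ph (n + 1) - ph n - ν := by
  unfold gg; push_cast; ring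

lemma gg_formula (ν n : ℕ) : gg ν n = (u n - ν) ^ 2 * (2 * u n + ν) := by
  have h := u_sq n
  unfold gg ph
  have : (n : ℝ) = 3 * u n ^ 2 := by rw [h]; ring
  rw [this]; ring

lemma sin_gg (ν n : ℕ) : sin (2 * π * gg ν n) = sin (2 * π * ph n) := by
  have : 2 * π * gg ν n = 2 * π * ph n + ((ν ^ 3 : ℤ) - ν * n : ℤ) * (2 * π) := by
    unfold gg; push_cast; ring
  rw [this, sin_add_int_mul_two_pi]

lemma u_center (ν : ℕ) : u (3 * ν ^ 2) = ν := by
  unfold u
  push_cast
  rw [mul_div_cancel_left₀ _ (by norm_num)]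
  exact sqrt_sq (by positivity)

lemma gg_center (ν : ℕ) : gg ν (3 * ν ^ 2) = 0 := by
  rw [gg_formula, u_center]; ring

/-- `ct` bound from above. -/
lemma ct_le {y : ℝ} (h0 : 0 < y) (h1 : y < 1) : ct y ≤ 1 / (π * y) := by
  -- cot x ≤ 1/x ; use x cos x ≤ sin x
  have hx : 0 < π * y := by positivity
  have hs := sin_pi_pos h0 h1
  unfold ct
  rw [div_le_div_iff₀ hs hx, one_mul]
  by_cases hc : π * y < π / 2
  · have hcpos : 0 < cos (π * y) := cos_pos_of_mem_Ioo ⟨by linarith [pi_pos], hc⟩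
    have ht := lt_tan hx hc
    rw [tan_eq_sin_div_cos, lt_div_iff₀ hcpos] at ht
    linarith
  · push Not at hc
    have hcn : cos (π * y) ≤ 0 := cos_nonpos_of_pi_div_two_le_of_le hc (by nlinarith [pi_pos])
    have : cos (π * y) * (π * y) ≤ 0 := mul_nonpos_of_nonpos_of_nonneg hcn hx.le
    linarith

lemma le_ct {x : ℝ} (h0 : 0 < x) (h1 : π * x ≤ 0.44) : 0.9 / (π * x) ≤ ct x := by
  have hx : 0 < π * x := by positivity
  have hs : 0 < sin (π * x) := by
    apply sin_pos_of_pos_of_lt_pi hx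
    linarith [pi_gt_three]
  unfold ct
  rw [div_le_div_iff₀ hx hs]
  have h2 := sin_le hx.le
  have h3 := one_sub_sq_div_two_le_cos (x := π * x)
  have h4 : (π * x) ^ 2 ≤ 0.44 ^ 2 := by
    apply pow_le_pow_left₀ hx.le h1
  have h5 : 0.9 ≤ cos (π * x) := by norm_num at h4 ⊢; linarith
  nlinarith

/-- Lower bound on `1 - cos`. -/
lemma one_sub_cos_ge {y : ℝ} (h0 : 1 / 8 ≤ y) (h1 : y ≤ 7 / 8) :
    1 / 8 ≤ 1 - cos (2 * π * y) := by
  have e : 1 - cos (2 * π * y) = 2 * sin (π * y) ^ 2 := by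
    have : 2 * π * y = 2 * (π * y) := by ring
    rw [this, cos_two_mul, cos_sq']; ring
  rw [e]
  have hs : 1 / 4 ≤ sin (π * y) := by
    by_cases hy : y ≤ 1 / 2
    · have := mul_le_sin (x := π * y) (by positivity) (by nlinarith [pi_pos])
      have e2 : 2 / π * (π * y) = 2 * y := by field_simp
      rw [e2] at this; linarith
    · push Not at hy
      have e3 : sin (π * y) = sin (π * (1 - y)) := by
        have : π * (1 - y) = π - π * y := by ring
        rw [this, sin_pi_sub]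
      rw [e3]
      have := mul_le_sin (x := π * (1 - y)) (mul_nonneg pi_pos.le (by linarith)) (by nlinarith [pi_pos])
      have e2 : 2 / π * (π * (1 - y)) = 2 * (1 - y) := by field_simp
      rw [e2] at this; linarith
  nlinarith

end Pool.Agent.W28.EP
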