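import Pool.Agent.W28.EPMain

set_option autoImplicit false

namespace Pool.Agent.W28.EP

open Finset Real

/-- bounds for `u (3ν²+i) - ν` -/
lemma u_sub_le (ν i : ℕ) (hν : 0 < ν) : u (3 * ν ^ 2 + i) - ν ≤ i / (6 * ν) := by
  have hν' : (0 : ℝ) < ν := by exact_mod_cast hν
  have h := u_sq (3 * ν ^ 2 + i)
  have h0 : (ν : ℝ) ≤ u (3 * ν ^ 2 + i) := by
    rw [← u_center ν]; exact u_mono (by omega)
  rw [le_div_iff₀ (by positivity)]
  push_cast at h
  nlinarith

lemma u_le_of (ν i : ℕ) (hν : 20 ≤ ν) (hi : i ≤ ν) : u (3 * ν ^ 2 + i) ≤ 1.01 * ν := by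
  have hν' : (20 : ℝ) ≤ ν := by exact_mod_cast hν
  have hi' : (i : ℝ) ≤ ν := by exact_mod_cast hi
  have h := u_sq (3 * ν ^ 2 + i)
  push_cast at h
  apply (pow_le_pow_iff_left₀ (u_nonneg _) (by positivity) two_ne_zero).1
  rw [h]; nlinarith

lemma le_u_sub (ν i : ℕ) (hν : 20 ≤ ν) (hi : i ≤ ν) : i / (6.3 * ν) ≤ u (3 * ν ^ 2 + i) - ν := by
  have hν' : (20 : ℝ) ≤ ν := by exact_mod_cast hν
  have hi' : (i : ℝ) ≤ ν := by exact_mod_cast hi
  have h := u_sq (3 * ν ^ 2 + i)
  have h0 : (ν : ℝ) ≤ u (3 * ν ^ 2 + i) := by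
    rw [← u_center ν]; exact u_mono (by omega)
  push_cast at h
  have h1 := u_le_of ν i hν hi
  rw [div_le_iff₀ (by positivity)]
  nlinarith

/-- The value of the phase near the centre. -/
lemma gg_bounds (ν i : ℕ) (hν : 20 ≤ ν) (hi : i ≤ ν) :
    (i : ℝ) ^ 2 / (13 * ν) ≤ gg ν (3 * ν ^ 2 + i) ∧ gg ν (3 * ν ^ 2 + i) ≤ (i : ℝ) ^ 2 / (12 * ν) := by
  have hν' : (20 : ℝ) ≤ ν := by exact_mod_cast hν
  have hi' : (i : ℝ) ≤ ν := by exact_mod_cast hi
  have hi0 : (0 : ℝ) ≤ i := by positivity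
  have h := u_sq (3 * ν ^ 2 + i)
  have h0 : (ν : ℝ) ≤ u (3 * ν ^ 2 + i) := by
    rw [← u_center ν]; exact u_mono (by omega)
  have h1 := u_le_of ν i hν hi
  push_cast at h
  rw [gg_formula]
  set w := u (3 * ν ^ 2 + i) with hw
  have hd : (w - ν) * (w + ν) = i / 3 := by
    have : (w - ν) * (w + ν) = w ^ 2 - (ν : ℝ) ^ 2 := by ring
    rw [this, h]; ring
  have hs : (0 : ℝ) < w + ν := by linarith
  have hq : (w - ν) = i / 3 / (w + ν) := by
    rw [eq_div_iff hs.ne']; exact hd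
  have hval : (w - ν) ^ 2 * (2 * w + ν) = (i : ℝ) ^ 2 * ((2 * w + ν) / (9 * (w + ν) ^ 2)) := by
    rw [hq]; field_simp; ring
  rw [hval]
  constructor
  · rw [div_eq_mul_one_div]
    apply mul_le_mul_of_nonneg_left _ (by positivity)
    rw [div_le_div_iff₀ (by positivity) (by positivity)]
    nlinarith
  · rw [div_eq_mul_one_div ((i : ℝ) ^ 2)]
    apply mul_le_mul_of_nonneg_left _ (by positivity)
    rw [div_le_div_iff₀ (by positivity) (by positivity)]
    nlinarith [mul_nonneg (sub_nonneg.2 h0) (by linarith : (0:ℝ) ≤ 3 * w + ν)]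

/-- telescoping sum bound -/
lemma tele_bound (k v : ℕ → ℝ) (L a b : ℕ) (hab : a ≤ b) (hb : b ≤ L)
    (hk : ∀ i < L, k (i + 1) ≤ k i) (hv : ∀ i, 0 ≤ v i) (hc : ∀ i, a < i → i ≤ b → 1 / 8 ≤ v i) :
    1 / 8 * (k a - k b) ≤ ∑ i ∈ range L, (k i - k (i + 1)) * v (i + 1) := by
  have h1 : ∑ i ∈ Ico a b, (k i - k (i + 1)) * v (i + 1) ≤ ∑ i ∈ range L, (k i - k (i + 1)) * v (i + 1) := by
    apply sum_le_sum_of_subset_of_nonneg
    · intro i hi; rw [mem_Ico] at hi; rw [mem_range]; omega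
    · intro i hi _
      rw [mem_range] at hi
      exact mul_nonneg (by linarith [hk i hi]) (hv _)
  have h2 : ∑ i ∈ Ico a b, (k i - k (i + 1)) * (1 / 8) ≤ ∑ i ∈ Ico a b, (k i - k (i + 1)) * v (i + 1) := by
    apply sum_le_sum
    intro i hi
    rw [mem_Ico] at hi
    apply mul_le_mul_of_nonneg_left
    · exact hc (i + 1) (by omega) (by omega)
    · linarith [hk i (by omega)]
  have h3 : ∑ i ∈ Ico a b, (k i - k (i + 1)) * (1 / 8) = 1 / 8 * (k a - k b) := by
    rw [← sum_mul]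
    have : ∑ i ∈ Ico a b, (k i - k (i + 1)) = k a - k b := by
      have := sum_Ico_sub k hab
      rw [← neg_inj, ← sum_neg_distrib]
      simp only [neg_sub]
      exact this
    rw [this]; ring
  linarith

/-- right half of the block of `ν` -/
lemma right_bound (ν : ℕ) (hν : 40 ≤ ν) :
    √ν / 20 - 4 ≤ 2 * ∑ i ∈ range (3 * ν + 1), sin (2 * π * ph (3 * ν ^ 2 + i)) := by
  have hν' : (40 : ℝ) ≤ ν := by exact_mod_cast hν
  set g : ℕ → ℝ := fun i => gg ν (3 * ν ^ 2 + i) with hg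
  have hδ : ∀ i, g (i + 1) - g i = ph (3 * ν ^ 2 + i + 1) - ph (3 * ν ^ 2 + i) - ν := by
    intro i
    have e : 3 * ν ^ 2 + (i + 1) = 3 * ν ^ 2 + i + 1 := by ring
    simp only [hg, e]
    exact gg_diff ν (3 * ν ^ 2 + i)
  have hu0 : ∀ i, (ν : ℝ) ≤ u (3 * ν ^ 2 + i) := by
    intro i; rw [← u_center ν]; exact u_mono (by omega)
  have hpos : ∀ i ≤ 3 * ν, 0 < g (i + 1) - g i := by
    intro i _
    rw [hδ]
    have := lt_D (3 * ν ^ 2 + i)
    linarith [hu0 i]
  have hle : ∀ i ≤ 3 * ν, g (i + 1) - g i ≤ 3 / 4 := by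
    intro i hi
    rw [hδ]
    have h1 := D_lt (3 * ν ^ 2 + i)
    have h2 : u (3 * ν ^ 2 + i + 1) ≤ ν + 3 / 4 := by
      apply (pow_le_pow_iff_left₀ (u_nonneg _) (by positivity) two_ne_zero).1
      rw [u_sq]
      have : (i : ℝ) ≤ 3 * ν := by exact_mod_cast hi
      push_cast
      nlinarith
    linarith
  have hblk := block_right g (3 * ν) (by simp [hg, gg_center]) hpos hle
  have hsum : ∑ i ∈ range (3 * ν + 1), sin (2 * π * g i)
      = ∑ i ∈ range (3 * ν + 1), sin (2 * π * ph (3 * ν ^ 2 + i)) := by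
    apply sum_congr rfl
    intro i _
    exact sin_gg ν _
  rw [hsum] at hblk
  refine le_trans ?_ hblk
  -- choose the range
  obtain ⟨A, hA1, hA2, hA3⟩ : ∃ A : ℕ, 0 < A ∧ 2 * (ν : ℝ) ≤ (A : ℝ) ^ 2 ∧ (A : ℝ) ^ 2 ≤ 5 / 2 * ν := by
    refine ⟨Nat.sqrt (2 * ν) + 1, by omega, ?_, ?_⟩
    · have := Nat.lt_succ_sqrt (2 * ν)
      have h2 : ((2 * ν : ℕ) : ℝ) < ((Nat.sqrt (2 * ν)).succ * (Nat.sqrt (2 * ν)).succ : ℕ) := by
        exact_mod_cast this
      push_cast at h2 ⊢
      nlinarith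
    · have := Nat.sqrt_le (2 * ν)
      have h2 : ((Nat.sqrt (2 * ν) * Nat.sqrt (2 * ν) : ℕ) : ℝ) ≤ (2 * ν : ℕ) := by
        exact_mod_cast this
      push_cast at h2 ⊢
      set s : ℝ := (Nat.sqrt (2 * ν) : ℝ) with hs
      have hs0 : 0 ≤ s := by positivity
      have h3 : s ≤ ν / 4 - 1 / 2 := by
        by_contra hcon
        push Not at hcon
        nlinarith
      nlinarith
  have hA0 : (0 : ℝ) < A := by exact_mod_cast hA1
  have hAν : 2 * (A : ℝ) ≤ ν := by
    by_contra hcon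
    push Not at hcon
    nlinarith
  have hAν' : 2 * A ≤ ν := by exact_mod_cast hAν
  have htel := tele_bound (fun i => ct (g (i + 1) - g i)) (fun i => 1 - cos (2 * π * g i)) (3 * ν)
    (A - 1) (2 * A) (by omega) (by omega)
    (by
      intro i hi
      have a := hpos i (by omega)
      have b := hle i (by omega)
      have a' := hpos (i + 1) (by omega)
      have b' := hle (i + 1) (by omega)
      have hm : g (i + 1) - g i ≤ g (i + 1 + 1) - g (i + 1) := by
        rw [hδ, hδ]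
        have := D_mono (3 * ν ^ 2 + i)
        have e : 3 * ν ^ 2 + (i + 1) = 3 * ν ^ 2 + i + 1 := by ring
        rw [e]
        linarith
      exact ct_anti hm (by linarith)
        (mul_pos (sin_pi_pos a (by linarith)) (sin_pi_pos a' (by linarith))))
    (by intro i; linarith [cos_le_one (2 * π * g i)])
    (by
      intro i hi1 hi2
      have hb := gg_bounds ν i (by omega) (by omega)
      have hi1' : (A : ℝ) ≤ i := by
        have : A ≤ i := by omega
        exact_mod_cast this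
      have hi2' : (i : ℝ) ≤ 2 * A := by exact_mod_cast hi2
      apply one_sub_cos_ge
      · refine le_trans ?_ hb.1
        rw [le_div_iff₀ (by positivity)]
        nlinarith
      · refine le_trans hb.2 ?_
        rw [div_le_iff₀ (by positivity)]
        nlinarith)
  have e2 : ∀ i, g (i + 1 + 1) = g (i + 2) := fun i => rfl
  simp only [e2] at htel
  have e3 : A - 1 + 1 = A := by omega
  rw [e3] at htel
  -- bounds of the two cotangents
  have hx1 : g A - g (A - 1) ≤ A / (6 * ν) := by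
    have h1 := hδ (A - 1)
    rw [e3] at h1
    rw [h1]
    have h2 := D_lt (3 * ν ^ 2 + (A - 1))
    have h3 : 3 * ν ^ 2 + (A - 1) + 1 = 3 * ν ^ 2 + A := by omega
    rw [h3] at h2 ⊢
    have h4 := u_sub_le ν A (by omega)
    linarith
  have hx0 : 0 < g A - g (A - 1) := by
    have := hpos (A - 1) (by omega)
    rwa [e3] at this
  have hy1 : (2 * A : ℝ) / (6.3 * ν) ≤ g (2 * A + 1) - g (2 * A) := by
    rw [hδ]
    have h2 := lt_D (3 * ν ^ 2 + 2 * A)
    have h4 := le_u_sub ν (2 * A) (by omega) (by omega)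
    push_cast at h4
    linarith
  have hy3 := hle (2 * A) (by omega)
  have hx2 : π * (A / (6 * ν)) ≤ 0.44 := by
    have h1 : (A : ℝ) ≤ ν / 4 := by
      by_contra hcon
      push Not at hcon
      nlinarith
    rw [mul_div_assoc', div_le_iff₀ (by positivity)]
    nlinarith [pi_lt_four, pi_pos]
  have hk1 : 0.9 / (π * (A / (6 * ν))) ≤ ct (g A - g (A - 1)) := by
    refine le_trans (le_ct (by positivity) hx2) ?_
    have hAs : (A : ℝ) / (6 * ν) < 1 := by
      rw [div_lt_one (by positivity)]; linarith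
    apply ct_anti hx1 (by linarith)
    exact mul_pos (sin_pi_pos hx0 (by linarith)) (sin_pi_pos (by positivity) hAs)
  have hy0 : (0 : ℝ) < 2 * A / (6.3 * ν) := by positivity
  have hk2 : ct (g (2 * A + 1) - g (2 * A)) ≤ 1 / (π * (2 * A / (6.3 * ν))) := by
    refine le_trans (ct_le (by linarith) (by linarith)) ?_
    apply one_div_le_one_div_of_le (by positivity)
    exact mul_le_mul_of_nonneg_left hy1 pi_pos.le
  have hfin : 2.25 * ν / (π * A) ≤ ct (g A - g (A - 1)) - ct (g (2 * A + 1) - g (2 * A)) := by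
    have e4 : 2.25 * ν / (π * A) = 0.9 / (π * (A / (6 * ν))) - 1 / (π * (2 * A / (6.3 * ν))) := by
      have := pi_pos.ne'
      field_simp
      norm_num
    rw [e4]; linarith
  have hsq : √ν * √ν = ν := mul_self_sqrt (by positivity)
  have hsq0 : 0 < √(ν : ℝ) := sqrt_pos.2 (by linarith)
  have hAs : (A : ℝ) ≤ 1.6 * √ν := by
    apply (pow_le_pow_iff_left₀ hA0.le (by positivity) two_ne_zero).1
    nlinarith
  have hlast : 0.4 * √ν ≤ 2.25 * ν / (π * A) := by
    rw [le_div_iff₀ (by positivity)]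
    have : π * A ≤ 3.15 * (1.6 * √ν) := by
      apply mul_le_mul _ hAs hA0.le (by norm_num)
      linarith [pi_lt_d2]
    nlinarith
  linarith

end Pool.Agent.W28.EP
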