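import Pool.Agent.W960.HC.Defs

set_option autoImplicit false

open Set Topology Filter MeasureTheory

namespace Pool.Agent.W28.HC
open Pool.Agent.W960.HC

theorem kp_lt_one {X : ℝ} (hX : 0 < X) : kp X < 1 := by
  unfold kp
  have h1 : X ^ 2 + 1 < Real.exp (X ^ 2) := Real.add_one_lt_exp (by positivity)
  rw [Real.exp_neg]
  have h2 : 0 < Real.exp (X ^ 2) := Real.exp_pos _
  rw [inv_mul_lt_iff₀ h2]
  linarith

theorem et_pos {X : ℝ} (hX : 0 < X) : 0 < et X := by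
  unfold et
  exact Real.sqrt_pos.2 (by linarith [kp_lt_one hX])

theorem contDiff_kp : ContDiff ℝ 2 kp := by
  unfold kp
  fun_prop

theorem continuous_et : Continuous et := by
  unfold et
  exact Real.continuous_sqrt.comp (continuous_const.sub contDiff_kp.continuous)

theorem contDiffAt_et {X : ℝ} (hX : 0 < X) : ContDiffAt ℝ 2 et X := by
  unfold et
  refine ContDiffAt.sqrt ?_ ?_
  · exact contDiffAt_const.sub contDiff_kp.contDiffAt
  · have := kp_lt_one hX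
    linarith

theorem flow_eq {a c R : ℝ} {Z : ℝ → ℝ × ℝ → ℝ → ℝ × ℝ} {W : ℝ → ℝ × ℝ → ℝ → ℝ}
    (h : Flw a c R Z W) {T : ℝ} {γ : ℝ → ℝ × ℝ} {p : ℝ × ℝ} (h0 : γ 0 = p)
    (hd : ∀ t ∈ Icc 0 T, HasDerivAt γ (fld a c 0 (γ t)) t)
    (hb : ∀ t ∈ Icc 0 T, ‖γ t‖ < R) : ∀ t ∈ Icc 0 T, Z t p 0 = γ t := by
  set Zf : ℝ × (ℝ × ℝ) × ℝ → ℝ × ℝ := fun q => Z q.1 q.2.1 q.2.2 with hZf
  have hZd : Differentiable ℝ Zf := h.smZ.differentiable (by norm_num)
  have key : ∀ t ∈ Icc 0 T, HasDerivAt (fun s => Zf (-s, γ s, 0)) 0 t := by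
    intro t ht
    have hF : HasFDerivAt Zf (fderiv ℝ Zf (-t, γ t, 0)) (-t, γ t, 0) := (hZd _).hasFDerivAt
    set v := fld a c 0 (γ t) with hv
    have h1 : HasDerivAt (fun s => ((-s, γ s, (0 : ℝ)) : ℝ × (ℝ × ℝ) × ℝ)) (-1, v, 0) t :=
      (hasDerivAt_neg t).prodMk ((hd t ht).prodMk (hasDerivAt_const t (0 : ℝ)))
    have h2 : HasDerivAt (fun s => Zf (-s, γ s, 0)) (fderiv ℝ Zf (-t, γ t, 0) (-1, v, 0)) t :=
      HasFDerivAt.comp_hasDerivAt
        (f := fun s => ((-s, γ s, (0 : ℝ)) : ℝ × (ℝ × ℝ) × ℝ)) t hF h1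
    have h3 : HasDerivAt (fun s => Z s (γ t) 0) v 0 := by
      have := h.der (γ t) 0 0 (by rw [h.zero]; exact hb t ht) (by norm_num)
      rwa [h.zero] at this
    have h4 : HasDerivAt (fun s => Zf (-t, Z s (γ t) 0, 0))
        (fderiv ℝ Zf (-t, γ t, 0) (0, v, 0)) 0 := by
      have h4' : HasDerivAt (fun s => ((-t, Z s (γ t) 0, (0 : ℝ)) : ℝ × (ℝ × ℝ) × ℝ)) (0, v, 0) 0 :=
        (hasDerivAt_const (0 : ℝ) (-t)).prodMk (h3.prodMk (hasDerivAt_const (0 : ℝ) (0 : ℝ)))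
      have hF' : HasFDerivAt Zf (fderiv ℝ Zf (-t, γ t, 0)) (-t, Z 0 (γ t) 0, 0) := by
        rw [h.zero]; exact hF
      exact hF'.comp_hasDerivAt (0 : ℝ) h4'
    have h5 : HasDerivAt (fun s => Zf (-t + s, γ t, 0))
        (fderiv ℝ Zf (-t, γ t, 0) (1, 0, 0)) 0 := by
      have h5' : HasDerivAt (fun s => ((-t + s, γ t, (0 : ℝ)) : ℝ × (ℝ × ℝ) × ℝ)) (1, 0, 0) 0 :=
        ((hasDerivAt_id (0 : ℝ)).const_add (-t)).prodMk
          ((hasDerivAt_const (0 : ℝ) (γ t)).prodMk (hasDerivAt_const (0 : ℝ) (0 : ℝ)))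
      have hF' : HasFDerivAt Zf (fderiv ℝ Zf (-t, γ t, 0)) (-t + 0, γ t, 0) := by
        rw [add_zero]; exact hF
      exact hF'.comp_hasDerivAt (0 : ℝ) h5'
    have h6 : (fun s => Zf (-t, Z s (γ t) 0, 0)) = fun s => Zf (-t + s, γ t, 0) := by
      funext s
      simp only [hZf]
      rw [h.add]
    rw [h6] at h4
    have h7 := h4.unique h5
    have h8 : ((-1, v, 0) : ℝ × (ℝ × ℝ) × ℝ) = (0, v, 0) - (1, 0, 0) := by
      ext <;> simp
    rw [h8, map_sub, h7, sub_self] at h2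
    exact h2
  have hc := constant_of_has_deriv_right_zero
    (f := fun s => Zf (-s, γ s, 0)) (a := 0) (b := T)
    (fun t ht => (key t ht).continuousAt.continuousWithinAt)
    (fun t ht => (key t ⟨ht.1, ht.2.le⟩).hasDerivWithinAt)
  intro t ht
  have h1 := hc t ht
  simp only [hZf, neg_zero] at h1
  rw [h.zero, h0] at h1
  rw [← h1, ← h.add, add_neg_cancel, h.zero]

theorem exists_half
    (hB : ∀ (a c : ℝ) {X : ℝ}, 0 < X → ∃ T > 0, ∃ γ : ℝ → ℝ × ℝ,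
      γ 0 = (0, et X) ∧ γ T = (0, -et X) ∧ (∀ t ∈ Icc 0 T, HasDerivAt γ (fld a c 0 (γ t)) t) ∧
      (∀ t ∈ Icc 0 T, kap (γ t) = kp X) ∧ (∀ t ∈ Icc 0 T, ‖γ t‖ ≤ 1 + X) ∧
      (∀ t ∈ Ioo 0 T, 0 < (γ t).1) ∧ ∫ t in (0:ℝ)..T, G a c (γ t) = 2 * Mel a c X)
    {a c R X₀ : ℝ} (hX : 0 < X₀) (hR : 2 + X₀ < R)
    {Z : ℝ → ℝ × ℝ → ℝ → ℝ × ℝ} {W : ℝ → ℝ × ℝ → ℝ → ℝ} (h : Flw a c R Z W) :
    ∃ τ δ, Half a c R X₀ Z W τ δ := by
  obtain ⟨T, hT, γ, hγ0, hγT, hγd, -, hγb, hγx, -⟩ := hB a c hX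
  have hZγ : ∀ t ∈ Icc 0 T, Z t (0, et X₀) 0 = γ t :=
    flow_eq h hγ0 hγd (fun t ht => by linarith [hγb t ht])
  -- the map
  set F : (ℝ × ℝ) × ℝ → ℝ × ℝ := fun q => Z q.2 (0, et q.1.1) q.1.2 with hF
  have hFc : Continuous F := by
    have h1 : Continuous (fun q : (ℝ × ℝ) × ℝ =>
        ((q.2, ((0 : ℝ), et q.1.1), q.1.2) : ℝ × (ℝ × ℝ) × ℝ)) := by
      have := continuous_et
      fun_prop
    exact h.smZ.continuous.comp h1
  have hFs : ContDiffAt ℝ 2 F ((X₀, 0), T) := by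
    have h1 : ContDiffAt ℝ 2 (fun q : (ℝ × ℝ) × ℝ => et q.1.1) ((X₀, 0), T) :=
      ContDiffAt.comp (g := et) (f := fun q : (ℝ × ℝ) × ℝ => q.1.1) ((X₀, (0 : ℝ)), T)
        (contDiffAt_et hX) (by fun_prop)
    have h2 : ContDiffAt ℝ 2 (fun q : (ℝ × ℝ) × ℝ =>
        ((q.2, ((0 : ℝ), et q.1.1), q.1.2) : ℝ × (ℝ × ℝ) × ℝ)) ((X₀, 0), T) := by
      fun_prop
    exact h.smZ.contDiffAt.comp ((X₀, (0 : ℝ)), T) h2
  set f : (ℝ × ℝ) × ℝ → ℝ := fun q => (F q).1 with hf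
  have hfs : ContDiffAt ℝ 2 f ((X₀, 0), T) := hFs.fst
  -- time derivative
  have hder : ∀ (X ε t : ℝ), ‖F ((X, ε), t)‖ < R → |ε| < 1 →
      HasDerivAt (fun s => f ((X, ε), s)) (F ((X, ε), t)).2 t := by
    intro X ε t h1 h2
    have h3 := h.der (0, et X) ε t h1 h2
    have h4 := h3.fst
    exact h4
  have hFT : F ((X₀, 0), T) = (0, -et X₀) := by
    simp only [hF]
    rw [hZγ T ⟨hT.le, le_rfl⟩, hγT]
  have hF0 : F ((X₀, 0), 0) = (0, et X₀) := by
    simp only [hF]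
    rw [h.zero]
  have hnT : ‖F ((X₀, 0), T)‖ < R := by
    simp only [hF]
    rw [hZγ T ⟨hT.le, le_rfl⟩]
    linarith [hγb T ⟨hT.le, le_rfl⟩]
  have hdT : fderiv ℝ f ((X₀, 0), T) ((0, 0), 1) = -et X₀ := by
    have h1 := hder X₀ 0 T hnT (by norm_num)
    have h2 : HasDerivAt (fun s : ℝ => (((X₀, (0:ℝ)), s) : (ℝ × ℝ) × ℝ)) ((0, 0), 1) T :=
      (hasDerivAt_const T ((X₀, (0:ℝ)) : ℝ × ℝ)).prodMk (hasDerivAt_id T)
    have h3 : HasFDerivAt f (fderiv ℝ f ((X₀, 0), T)) ((X₀, 0), T) :=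
      (hfs.differentiableAt (by norm_num)).hasFDerivAt
    have h4 : HasDerivAt (fun s => f ((X₀, 0), s)) (fderiv ℝ f ((X₀, 0), T) ((0, 0), 1)) T :=
      h3.comp_hasDerivAt T h2
    have h5 := h4.unique h1
    rw [h5, hFT]
  have hetp := et_pos hX
  have hinv : (fderiv ℝ f ((X₀, 0), T) ∘L .inr ℝ (ℝ × ℝ) ℝ).IsInvertible := by
    refine ⟨ContinuousLinearEquiv.unitsEquivAut ℝ (Units.mk0 (-et X₀) (by linarith)), ?_⟩
    ext
    simp only [ContinuousLinearEquiv.coe_coe, ContinuousLinearEquiv.unitsEquivAut_apply,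
      Units.val_mk0, one_mul, ContinuousLinearMap.coe_comp, Function.comp_apply,
      ContinuousLinearMap.inr_apply]
    exact hdT.symm
  have h20 : (2 : WithTop ℕ∞) ≠ 0 := by norm_num
  set τ : ℝ × ℝ → ℝ := hfs.implicitFunction h20 hinv with hτ
  have hτ0 : τ (X₀, 0) = T := hfs.implicitFunction_apply_self h20 hinv
  have hτs : ContDiffAt ℝ 2 τ (X₀, 0) := hfs.contDiffAt_implicitFunction h20 hinv
  have hτe : ∀ᶠ p in 𝓝 ((X₀, 0) : ℝ × ℝ), f (p, τ p) = 0 := by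
    have h1 := hfs.eventually_apply_implicitFunction h20 hinv
    have h2 : f ((X₀, 0), T) = 0 := by
      simp only [hf]
      rw [hFT]
    rw [h2] at h1
    exact h1
  have hτ1 : ∀ᶠ p in 𝓝 ((X₀, 0) : ℝ × ℝ), ContDiffAt ℝ 1 τ p :=
    (hτs.eventually (by norm_num)).mono fun p hp => hp.of_le (by norm_num)
  -- near T
  have hTn : ∀ᶠ z in 𝓝 (((X₀, 0) : ℝ × ℝ), T), ‖F z‖ < R ∧ (F z).2 < 0 := by
    refine (hFc.norm.continuousAt.eventually_lt continuousAt_const hnT).and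
      ((hFc.snd.continuousAt).eventually_lt continuousAt_const ?_)
    rw [hFT]
    simpa using hetp
  have h0n : ∀ᶠ z in 𝓝 (((X₀, 0) : ℝ × ℝ), (0 : ℝ)), ‖F z‖ < R ∧ 0 < (F z).2 := by
    refine (hFc.norm.continuousAt.eventually_lt continuousAt_const ?_).and
      (continuousAt_const.eventually_lt (hFc.snd.continuousAt) ?_)
    · have h1 : F ((X₀, 0), 0) = γ 0 := by rw [hF0, hγ0]
      rw [h1]
      linarith [hγb 0 ⟨le_rfl, hT.le⟩]
    · rw [hF0]
      exact hetp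
  rw [nhds_prod_eq, Filter.eventually_prod_iff] at hTn h0n
  obtain ⟨pa, hpa, pb, hpb, hP⟩ := hTn
  obtain ⟨qa, hqa, qb, hqb, hQ⟩ := h0n
  obtain ⟨η₁, hη₁, hpb'⟩ := Metric.eventually_nhds_iff.1 hpb
  obtain ⟨η₂, hη₂, hqb'⟩ := Metric.eventually_nhds_iff.1 hqb
  obtain ⟨η, hη, hηT, hη1, hη2⟩ : ∃ η > 0, η < T / 2 ∧ η < η₁ ∧ η < η₂ := by
    refine ⟨min (T / 4) (min (η₁ / 2) (η₂ / 2)), by positivity, ?_, ?_, ?_⟩
    · exact lt_of_le_of_lt (min_le_left _ _) (by linarith)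
    · exact lt_of_le_of_lt ((min_le_right _ _).trans (min_le_left _ _)) (by linarith)
    · exact lt_of_le_of_lt ((min_le_right _ _).trans (min_le_right _ _)) (by linarith)
  have hmid : ∀ᶠ p in 𝓝 ((X₀, 0) : ℝ × ℝ), ∀ t ∈ Icc η (T - η), 0 < f (p, t) := by
    refine isCompact_Icc.eventually_forall_of_forall_eventually ?_
    intro t ht
    refine continuousAt_const.eventually_lt
      (f := fun _ : (ℝ × ℝ) × ℝ => (0 : ℝ)) (g := f) (hFc.fst.continuousAt) ?_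
    simp only [hf, hF]
    rw [hZγ t ⟨by linarith [ht.1], by linarith [ht.2]⟩]
    exact hγx t ⟨by linarith [ht.1], by linarith [ht.2]⟩
  have hball : ∀ᶠ p in 𝓝 ((X₀, 0) : ℝ × ℝ), ∀ t ∈ Icc 0 T, ‖F (p, t)‖ < R := by
    refine isCompact_Icc.eventually_forall_of_forall_eventually ?_
    intro t ht
    refine (hFc.norm.continuousAt).eventually_lt continuousAt_const
      (f := fun z : (ℝ × ℝ) × ℝ => ‖F z‖) (g := fun _ => R) ?_
    simp only [hF]
    rw [hZγ t ht]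
    linarith [hγb t ht]
  have hτη : ∀ᶠ p in 𝓝 ((X₀, 0) : ℝ × ℝ), |τ p - T| < η := by
    have h1 : Tendsto (fun p => |τ p - T|) (𝓝 ((X₀, 0) : ℝ × ℝ)) (𝓝 |τ (X₀, 0) - T|) :=
      ((hτs.continuousAt.sub continuousAt_const).abs)
    rw [hτ0, sub_self, abs_zero] at h1
    exact h1.eventually_lt_const hη
  have hall := hτe.and (hτ1.and (hpa.and (hqa.and (hmid.and (hball.and hτη)))))
  obtain ⟨δ₀, hδ₀, hδP⟩ := Metric.eventually_nhds_iff.1 hall
  obtain ⟨δ, hδ, hδ1, hδ2, hδ3⟩ : ∃ δ > 0, δ ≤ δ₀ ∧ δ < X₀ ∧ δ < 1 := by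
    refine ⟨min δ₀ (min (X₀ / 2) (1 / 2)), by positivity, min_le_left _ _, ?_, ?_⟩
    · exact lt_of_le_of_lt ((min_le_right _ _).trans (min_le_left _ _)) (by linarith)
    · exact lt_of_le_of_lt ((min_le_right _ _).trans (min_le_right _ _)) (by norm_num)
  have hgood : ∀ X ∈ Ioo (X₀ - δ) (X₀ + δ), ∀ ε ∈ Ioo (-δ) δ,
      f ((X, ε), τ (X, ε)) = 0 ∧ ContDiffAt ℝ 1 τ (X, ε) ∧ pa (X, ε) ∧ qa (X, ε) ∧
      (∀ t ∈ Icc η (T - η), 0 < f ((X, ε), t)) ∧ (∀ t ∈ Icc 0 T, ‖F ((X, ε), t)‖ < R) ∧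
      |τ (X, ε) - T| < η := by
    intro X hX1 ε hε1
    apply hδP
    rw [Prod.dist_eq]
    simp only [Real.dist_eq, sub_zero]
    refine max_lt ?_ ?_
    · rw [abs_lt]; constructor <;> linarith [hX1.1, hX1.2]
    · rw [abs_lt]; constructor <;> linarith [hε1.1, hε1.2]
  have hside : ∀ X ∈ Ioo (X₀ - δ) (X₀ + δ), ∀ ε ∈ Ioo (-δ) δ, ∀ t ∈ Ioo 0 (τ (X, ε)),
      0 < f ((X, ε), t) := by
    intro X hX1 ε hε1 t ht
    obtain ⟨g1, g2, g3, g4, g5, g6, g7⟩ := hgood X hX1 ε hε1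
    rw [abs_lt] at g7
    have hε' : |ε| < 1 := by rw [abs_lt]; constructor <;> linarith [hε1.1, hε1.2]
    rcases lt_or_ge t η with h1 | h1
    · -- near 0
      have hm : StrictMonoOn (fun s => f ((X, ε), s)) (Icc 0 η) := by
        refine strictMonoOn_of_deriv_pos (convex_Icc _ _) ?_ ?_
        · intro s hs
          have hs' : qb s := hqb' (by rw [Real.dist_eq, sub_zero, abs_lt]; constructor <;> linarith [hs.1, hs.2])
          exact (hder X ε s (hQ g4 hs').1 hε').continuousAt.continuousWithinAt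
        · intro s hs
          rw [interior_Icc] at hs
          have hs' : qb s := hqb' (by rw [Real.dist_eq, sub_zero, abs_lt]; constructor <;> linarith [hs.1, hs.2])
          rw [(hder X ε s (hQ g4 hs').1 hε').deriv]
          exact (hQ g4 hs').2
      have h2 := hm (left_mem_Icc.2 hη.le) ⟨ht.1.le, h1.le⟩ ht.1
      have h3 : f ((X, ε), 0) = 0 := by
        simp only [hf, hF]
        rw [h.zero]
      simp only [h3] at h2
      exact h2
    · rcases le_or_gt t (T - η) with h2 | h2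
      · exact g5 t ⟨h1, h2⟩
      · have hm : StrictAntiOn (fun s => f ((X, ε), s)) (Icc (T - η) (T + η)) := by
          refine strictAntiOn_of_deriv_neg (convex_Icc _ _) ?_ ?_
          · intro s hs
            have hs' : pb s := hpb' (by rw [Real.dist_eq, abs_lt]; constructor <;> linarith [hs.1, hs.2])
            exact (hder X ε s (hP g3 hs').1 hε').continuousAt.continuousWithinAt
          · intro s hs
            rw [interior_Icc] at hs
            have hs' : pb s := hpb' (by rw [Real.dist_eq, abs_lt]; constructor <;> linarith [hs.1, hs.2])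
            rw [(hder X ε s (hP g3 hs').1 hε').deriv]
            exact (hP g3 hs').2
        have h3 := hm (a := t) ⟨h2.le, by linarith [ht.2]⟩ (b := τ (X, ε))
          ⟨by linarith, by linarith⟩ ht.2
        simp only [g1] at h3
        exact h3
  have hpos : ∀ X ∈ Ioo (X₀ - δ) (X₀ + δ), ∀ ε ∈ Ioo (-δ) δ, 0 < τ (X, ε) := by
    intro X hX1 ε hε1
    obtain ⟨g1, g2, g3, g4, g5, g6, g7⟩ := hgood X hX1 ε hε1
    rw [abs_lt] at g7
    linarith
  refine ⟨τ, δ, ⟨hδ, hδ2, hδ3, ?_, hpos, ?_, hside, ?_, ?_, ?_⟩⟩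
  · rintro ⟨X, ε⟩ ⟨h1, h2⟩
    exact (hgood X h1 ε h2).2.1.contDiffWithinAt
  · intro X hX1 ε hε1 t ht
    obtain ⟨g1, g2, g3, g4, g5, g6, g7⟩ := hgood X hX1 ε hε1
    rw [abs_lt] at g7
    rcases le_or_gt t T with h1 | h1
    · exact g6 t ⟨ht.1, h1⟩
    · have hs' : pb t := hpb' (by rw [Real.dist_eq, abs_lt]; constructor <;> linarith [ht.1, ht.2])
      exact (hP g3 hs').1
  · intro X hX1 ε hε1
    exact (hgood X hX1 ε hε1).1
  · intro X hX1 ε hε1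
    obtain ⟨g1, g2, g3, g4, g5, g6, g7⟩ := hgood X hX1 ε hε1
    have hs' : pb (τ (X, ε)) := hpb' (by rw [Real.dist_eq]; linarith)
    exact (hP g3 hs').2
  · intro X hX1
    have h00 : (0 : ℝ) ∈ Ioo (-δ) δ := ⟨by linarith, hδ⟩
    have hXp : 0 < X := by linarith [hX1.1]
    obtain ⟨T', hT', γ', hγ0', hγT', hγd', -, hγb', hγx', hint⟩ := hB a c hXp
    have hb' : ∀ t ∈ Icc 0 T', ‖γ' t‖ < R := fun t ht => by linarith [hγb' t ht, hX1.2]
    have hZγ' : ∀ t ∈ Icc 0 T', Z t (0, et X) 0 = γ' t := flow_eq h hγ0' hγd' hb'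
    have hτT : τ (X, 0) = T' := by
      have h1 := hside X hX1 0 h00
      have h2 := (hgood X hX1 0 h00).1
      have h3 := hpos X hX1 0 h00
      rcases lt_trichotomy (τ (X, 0)) T' with h4 | h4 | h4
      · exfalso
        have h5 : f ((X, 0), τ (X, 0)) = (γ' (τ (X, 0))).1 := by
          simp only [hf, hF]
          rw [hZγ' _ ⟨h3.le, h4.le⟩]
        have h6 := hγx' _ ⟨h3, h4⟩
        rw [h5] at h2
        linarith
      · exact h4
      · exfalso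
        have h5 := h1 T' ⟨hT', h4⟩
        have h6 : f ((X, 0), T') = (γ' T').1 := by
          simp only [hf, hF]
          rw [hZγ' _ ⟨hT'.le, le_rfl⟩]
        rw [h6, hγT'] at h5
        exact lt_irrefl _ h5
    rw [hτT, ← hint]
    have h1 : ∀ t ∈ uIcc 0 T', HasDerivAt (fun t => W t (0, et X) 0) (G a c (γ' t)) t := by
      intro t ht
      rw [uIcc_of_le hT'.le] at ht
      have := h.derW (0, et X) 0 t (by rw [hZγ' t ht]; exact hb' t ht) (by norm_num)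
      rwa [hZγ' t ht] at this
    have h2 : ContinuousOn (fun t => G a c (γ' t)) (uIcc 0 T') := by
      rw [uIcc_of_le hT'.le]
      have hc : ContinuousOn γ' (Icc 0 T') :=
        fun t ht => (hγd' t ht).continuousAt.continuousWithinAt
      have hG : Continuous (G a c) := by
        unfold G
        fun_prop
      exact hG.comp_continuousOn hc
    rw [intervalIntegral.integral_eq_sub_of_hasDerivAt h1 h2.intervalIntegrable, h.wzero, sub_zero]

end Pool.Agent.W28.HC
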