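import Pool.Agent.W811.LW.Stm

set_option autoImplicit false

namespace Pool.Agent.W28.LWPOS
open Pool.Agent.W811.LW

theorem pos : POS := by
  intro D α c0 β j t m hD hc0 hbad
  have hD0 : (0 : ℝ) < (D : ℝ) := by
    have : 0 < D := by omega
    exact_mod_cast this
  have hD1 : (1 : ℝ) ≤ (D : ℝ) := by
    have : 1 ≤ D := by omega
    exact_mod_cast this
  have hV : (famV (D : ℝ) α m).Nonempty := by
    obtain ⟨p, q, hq, -, hpq⟩ := Real.exists_int_int_abs_mul_sub_le α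
      (n := D ^ (2 * m)) (Nat.pow_pos (by omega))
    refine ⟨(q, p, 0), hq.ne', ?_⟩
    have hP : (0 : ℝ) < (D : ℝ) ^ (2 * m) := by positivity
    have h1 : |(q : ℝ) * α - (p : ℝ)| ≤ 1 / ((D : ℝ) ^ (2 * m) + 1) := by
      have h2 : (((D ^ (2 * m) : ℕ) : ℝ)) = (D : ℝ) ^ (2 * m) := by push_cast; rfl
      rw [h2] at hpq
      exact hpq
    calc |(q : ℝ) * α - (p : ℝ)| * (D : ℝ) ^ (2 * m)
        ≤ 1 / ((D : ℝ) ^ (2 * m) + 1) * (D : ℝ) ^ (2 * m) :=
          mul_le_mul_of_nonneg_right h1 hP.le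
      _ ≤ 1 := by
          rw [one_div, inv_mul_le_iff₀ (by positivity)]
          linarith
  have hW : (famW (D : ℝ) m).Nonempty := by
    refine ⟨(0, 1, 1), by norm_num, by norm_num, ?_⟩
    simp only [Int.cast_one, abs_one]
    exact one_le_pow₀ hD1
  have int_abs : ∀ z : ℤ, z ≠ 0 → (1 : ℝ) ≤ |(z : ℝ)| := by
    intro z hz
    have h1 : 1 ≤ |z| := Int.one_le_abs hz
    have h2 : ((1 : ℤ) : ℝ) ≤ ((|z| : ℤ) : ℝ) := by exact_mod_cast h1
    simpa [Int.cast_abs] using h2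
  refine ⟨hV, hW, ?_, ?_⟩
  · have hE : (0 : ℝ) < 1 / (D : ℝ) ^ (2 * j + t) := by positivity
    refine lt_of_lt_of_le hE ?_
    unfold yV inN
    refine le_csInf (hV.image _) ?_
    rintro _ ⟨v, hv, rfl⟩
    unfold NN
    refine le_trans ?_ (le_max_right _ _)
    unfold bV
    rw [abs_div, abs_of_pos (show (0 : ℝ) < (D : ℝ) ^ (2 * j + t) by positivity)]
    exact div_le_div_of_nonneg_right (int_abs _ hv.1) (by positivity)
  · have hE : (0 : ℝ) < 1 / (D : ℝ) ^ t := by positivity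
    refine lt_of_lt_of_le hE ?_
    unfold yW inN
    refine le_csInf (hW.image _) ?_
    rintro _ ⟨v, hv, rfl⟩
    unfold NN
    refine le_trans ?_ (le_max_right _ _)
    unfold bW
    rw [abs_div, abs_of_pos (show (0 : ℝ) < (D : ℝ) ^ t by positivity)]
    exact div_le_div_of_nonneg_right (int_abs _ hv.2.1) (by positivity)

end Pool.Agent.W28.LWPOS
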