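import Pool.Agent.W28.NRWeyl

set_option autoImplicit false

namespace Pool.Agent.W28.NR

open Finset Filter Topology

/-- One stage of the construction: the current prefix is `a / r^L`. -/
def Stage (r d : ℕ) (φ : ℝ → ℝ) : Prop :=
  ∀ ε : ℝ, 0 < ε → ∀ H : ℕ, ∃ L0 : ℕ, ∀ L, L0 ≤ L → ∀ a : ℕ, r ^ L ≤ 2 * a → a < r ^ L →
    ∀ N0 : ℕ, ∃ N, N0 ≤ N ∧ L ≤ N ∧ ∃ p, p < r ^ (N - L) ∧ ∀ h : ℕ, 1 ≤ h → h ≤ H →
      ∀ M, L ≤ M → M ≤ N + N / d →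
      ‖∑ m ∈ Ico L M, ex (h * ((r : ℝ) ^ m * φ (((a * r ^ (N - L) + p : ℕ) : ℝ) / (r : ℝ) ^ N)))‖
        ≤ ε * M

lemma exists_seq {α : Type} (Inv : ℕ → α → Prop) (Rel : ℕ → α → α → Prop) (h0 : ∃ a, Inv 0 a)
    (hs : ∀ j a, Inv j a → ∃ b, Inv (j + 1) b ∧ Rel j a b) :
    ∃ f : ℕ → α, (∀ j, Inv j (f j)) ∧ ∀ j, Rel j (f j) (f (j + 1)) := by
  choose next hn using hs
  obtain ⟨a0, ha0⟩ := h0
  let g : ∀ j : ℕ, {a : α // Inv j a} := fun j =>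
    Nat.rec ⟨a0, ha0⟩ (fun j s => ⟨next j s.1 s.2, (hn j s.1 s.2).1⟩) j
  refine ⟨fun j => (g j).1, fun j => (g j).2, fun j => ?_⟩
  exact (hn j (g j).1 (g j).2).2

/-- relation between consecutive states -/
def Rel (r d : ℕ) (φ : ℝ → ℝ) (j : ℕ) (s s' : ℕ × ℕ) : Prop :=
  ∃ N b : ℕ, s.1 ≤ N ∧ (j + 1) * s.1 + (j + 1) ≤ N ∧ s'.1 = N + N / d ∧ s'.2 = b * r ^ (N / d) ∧
    s.2 * r ^ (N - s.1) ≤ b ∧ b < (s.2 + 1) * r ^ (N - s.1) ∧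
    ∀ h : ℕ, 1 ≤ h → h ≤ j + 1 → ∀ M, s.1 ≤ M → M ≤ s'.1 →
      ‖∑ m ∈ Ico s.1 M, ex (h * ((r : ℝ) ^ m * φ ((b : ℝ) / (r : ℝ) ^ N)))‖ ≤ 1 / ((j : ℝ) + 1) * M

lemma exists_states (r d : ℕ) (hr : 2 ≤ r) (φ : ℝ → ℝ) (hS : Stage r d φ) :
    ∃ f : ℕ → ℕ × ℕ, (∀ j, r ^ (f j).1 ≤ 2 * (f j).2 ∧ (f j).2 < r ^ (f j).1) ∧
      ∀ j, Rel r d φ j (f j) (f (j + 1)) := by
  have hS' : ∀ j : ℕ, ∃ L0 : ℕ, ∀ L, L0 ≤ L → ∀ a : ℕ, r ^ L ≤ 2 * a → a < r ^ L →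
    ∀ N0 : ℕ, ∃ N, N0 ≤ N ∧ L ≤ N ∧ ∃ p, p < r ^ (N - L) ∧ ∀ h : ℕ, 1 ≤ h → h ≤ j + 1 →
      ∀ M, L ≤ M → M ≤ N + N / d →
      ‖∑ m ∈ Ico L M, ex (h * ((r : ℝ) ^ m * φ (((a * r ^ (N - L) + p : ℕ) : ℝ) / (r : ℝ) ^ N)))‖
        ≤ 1 / ((j : ℝ) + 1) * M := fun j => hS (1 / ((j : ℝ) + 1)) (by positivity) (j + 1)
  choose g hg using hS'
  obtain ⟨f, hf1, hf2⟩ := exists_seq
    (fun j (s : ℕ × ℕ) => g j ≤ s.1 ∧ r ^ s.1 ≤ 2 * s.2 ∧ s.2 < r ^ s.1) (Rel r d φ)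
    (by
      refine ⟨(g 0 + 1, r ^ (g 0 + 1) - 1), by simp, ?_, ?_⟩
      · have : 2 ≤ r ^ (g 0 + 1) := hr.trans (Nat.le_self_pow (by omega) r)
        simp only; omega
      · have : 2 ≤ r ^ (g 0 + 1) := hr.trans (Nat.le_self_pow (by omega) r)
        simp only; omega)
    (by
      rintro j ⟨L, a⟩ ⟨h1, h2, h3⟩
      simp only at h1 h2 h3
      obtain ⟨N, hN0, hLN, p, hp, hb⟩ := hg j L h1 a h2 h3 (max (g (j + 1)) ((j + 1) * L + (j + 1)))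
      have hrpos : 0 < r := by omega
      have hpow : r ^ N = r ^ L * r ^ (N - L) := by rw [← pow_add]; congr 1; omega
      have hlt : a * r ^ (N - L) + p < (a + 1) * r ^ (N - L) := by
        rw [add_mul, one_mul]; omega
      refine ⟨(N + N / d, (a * r ^ (N - L) + p) * r ^ (N / d)), ⟨?_, ?_, ?_⟩, ?_⟩
      · exact ((le_max_left _ _).trans hN0).trans (Nat.le_add_right _ _)
      · simp only
        rw [pow_add, hpow]
        calc r ^ L * r ^ (N - L) * r ^ (N / d) ≤ (2 * a) * r ^ (N - L) * r ^ (N / d) := by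
              gcongr
          _ ≤ 2 * ((a * r ^ (N - L) + p) * r ^ (N / d)) := by
              have : (2 * a) * r ^ (N - L) ≤ 2 * (a * r ^ (N - L) + p) := by
                rw [mul_assoc]; omega
              calc (2 * a) * r ^ (N - L) * r ^ (N / d) ≤ 2 * (a * r ^ (N - L) + p) * r ^ (N / d) :=
                    Nat.mul_le_mul_right _ this
                _ = _ := by ring
      · simp only
        rw [pow_add]
        apply Nat.mul_lt_mul_of_pos_right _ (by positivity)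
        rw [hpow]
        exact hlt.trans_le (Nat.mul_le_mul_right _ h3)
      · refine ⟨N, a * r ^ (N - L) + p, hLN, (le_max_right _ _).trans hN0, rfl, rfl, ?_, hlt, ?_⟩
        · simp only; omega
        · intro h hh1 hh2 M hM1 hM2
          exact hb h hh1 hh2 M hM1 hM2)
  exact ⟨f, fun j => (hf1 j).2, hf2⟩


section limit

variable {r d : ℕ} {φ : ℝ → ℝ} {f : ℕ → ℕ × ℕ}

/-- lower end of the interval -/
noncomputable def Y (r : ℕ) (s : ℕ × ℕ) : ℝ := (s.2 : ℝ) / (r : ℝ) ^ s.1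
/-- upper end of the interval -/
noncomputable def U (r : ℕ) (s : ℕ × ℕ) : ℝ := ((s.2 : ℝ) + 1) / (r : ℝ) ^ s.1

lemma Y_le_U (hr : 2 ≤ r) (s : ℕ × ℕ) : Y r s ≤ U r s := by
  unfold Y U
  have : (0 : ℝ) < (r : ℝ) ^ s.1 := by positivity
  apply div_le_div_of_nonneg_right _ this.le
  linarith

lemma U_eq (hr : 2 ≤ r) (s : ℕ × ℕ) : U r s = Y r s + 1 / (r : ℝ) ^ s.1 := by
  unfold Y U; rw [← add_div]

lemma nested (hr : 2 ≤ r) (j : ℕ) (s s' : ℕ × ℕ) (h : Rel r d φ j s s') :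
    Y r s ≤ Y r s' ∧ U r s' ≤ U r s := by
  obtain ⟨N, b, h1, h2, h3, h4, h5, h6, -⟩ := h
  have hr0 : (0 : ℝ) < (r : ℝ) := by positivity
  have hN : (r : ℝ) ^ N = (r : ℝ) ^ s.1 * (r : ℝ) ^ (N - s.1) := by rw [← pow_add]; congr 1; omega
  have hL : (r : ℝ) ^ s'.1 = (r : ℝ) ^ N * (r : ℝ) ^ (N / d) := by rw [h3, pow_add]
  have h5' : (s.2 : ℝ) * (r : ℝ) ^ (N - s.1) ≤ b := by exact_mod_cast h5
  have h6' : (b : ℝ) + 1 ≤ ((s.2 : ℝ) + 1) * (r : ℝ) ^ (N - s.1) := by exact_mod_cast h6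
  have hd1 : (1 : ℝ) ≤ (r : ℝ) ^ (N / d) := one_le_pow₀ (by
    have : (2 : ℝ) ≤ r := by exact_mod_cast hr
    linarith)
  have p1 : (0 : ℝ) < (r : ℝ) ^ s.1 := by positivity
  have p2 : (0 : ℝ) < (r : ℝ) ^ (N - s.1) := by positivity
  have p3 : (0 : ℝ) < (r : ℝ) ^ (N / d) := by positivity
  unfold Y U
  rw [hL, hN, h4]
  push_cast
  constructor
  · rw [div_le_div_iff₀ p1 (by positivity)]
    calc (s.2 : ℝ) * ((r : ℝ) ^ s.1 * (r : ℝ) ^ (N - s.1) * (r : ℝ) ^ (N / d))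
        = (s.2 * (r : ℝ) ^ (N - s.1)) * ((r : ℝ) ^ (N / d) * (r : ℝ) ^ s.1) := by ring
      _ ≤ b * ((r : ℝ) ^ (N / d) * (r : ℝ) ^ s.1) := by gcongr
      _ = _ := by ring
  · rw [div_le_div_iff₀ (by positivity) p1]
    calc ((b : ℝ) * (r : ℝ) ^ (N / d) + 1) * (r : ℝ) ^ s.1
        ≤ ((b : ℝ) * (r : ℝ) ^ (N / d) + (r : ℝ) ^ (N / d)) * (r : ℝ) ^ s.1 := by gcongr
      _ = (b + 1) * ((r : ℝ) ^ (N / d) * (r : ℝ) ^ s.1) := by ring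
      _ ≤ (((s.2 : ℝ) + 1) * (r : ℝ) ^ (N - s.1)) * ((r : ℝ) ^ (N / d) * (r : ℝ) ^ s.1) := by gcongr
      _ = _ := by ring

lemma exists_limit (hr : 2 ≤ r) (hf : ∀ j, Rel r d φ j (f j) (f (j + 1))) :
    ∃ y : ℝ, ∀ j, Y r (f j) ≤ y ∧ y ≤ U r (f j) := by
  have hmono : Monotone (fun j => Y r (f j)) :=
    monotone_nat_of_le_succ (fun j => (nested hr j _ _ (hf j)).1)
  have hanti : Antitone (fun j => U r (f j)) :=
    antitone_nat_of_succ_le (fun j => (nested hr j _ _ (hf j)).2)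
  have hle : ∀ i j, Y r (f i) ≤ U r (f j) := by
    intro i j
    calc Y r (f i) ≤ Y r (f (max i j)) := hmono (le_max_left _ _)
      _ ≤ U r (f (max i j)) := Y_le_U hr _
      _ ≤ U r (f j) := hanti (le_max_right _ _)
  have hbdd : BddAbove (Set.range (fun j => Y r (f j))) := by
    refine ⟨U r (f 0), ?_⟩
    rintro _ ⟨i, rfl⟩
    exact hle i 0
  exact ⟨⨆ j, Y r (f j), fun j => ⟨le_ciSup hbdd j, ciSup_le (fun i => hle i j)⟩⟩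

lemma L_lt (j : ℕ) (s s' : ℕ × ℕ) (h : Rel r d φ j s s') : s.1 < s'.1 ∧ (j + 1) * s.1 ≤ s'.1 := by
  obtain ⟨N, b, h1, h2, h3, -⟩ := h
  have h5 : N ≤ s'.1 := by rw [h3]; exact Nat.le_add_right _ _
  have h6 : s.1 ≤ (j + 1) * s.1 := Nat.le_mul_of_pos_left _ (by omega)
  constructor
  · omega
  · omega

lemma norm_ex_sub_le (x y : ℝ) : ‖ex x - ex y‖ ≤ 2 * Real.pi * |x - y| :=
  Pool.Agent.H84R3.norm_ex_sub_le x y

/-- a sum over a range of exponents at the limit point -/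
lemma sum_limit (hr : 2 ≤ r) (Λ : ℝ) (hΛ0 : 0 ≤ Λ)
    (hΛ : ∀ x y, 1 / 2 ≤ x → x ≤ 1 → 1 / 2 ≤ y → y ≤ 1 → |φ x - φ y| ≤ Λ * |x - y|)
    (hf0 : ∀ j, r ^ (f j).1 ≤ 2 * (f j).2 ∧ (f j).2 < r ^ (f j).1)
    (hf : ∀ j, Rel r d φ j (f j) (f (j + 1))) (y : ℝ)
    (hy : ∀ j, Y r (f j) ≤ y ∧ y ≤ U r (f j)) (j h M : ℕ) (hh1 : 1 ≤ h) (hh2 : h ≤ j + 1)
    (hM1 : (f j).1 ≤ M) (hM2 : M ≤ (f (j + 1)).1) :
    ‖∑ m ∈ Ico (f j).1 M, ex (h * ((r : ℝ) ^ m * φ y))‖ ≤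
      1 / ((j : ℝ) + 1) * M + 2 * Real.pi * h * Λ := by
  have hrel := hf j
  have hnest := hy (j + 1)
  obtain ⟨N, b, h1, h2, h3, h4, h5, h6, h7⟩ := hrel
  have hb := h7 h hh1 hh2 M hM1 hM2
  have hr2 : (2 : ℝ) ≤ r := by exact_mod_cast hr
  have hr0 : (0 : ℝ) < (r : ℝ) := by positivity
  set s' := f (j + 1) with hs'
  have hYb : Y r s' = (b : ℝ) / (r : ℝ) ^ N := by
    unfold Y
    rw [h3, h4, pow_add]
    push_cast
    field_simp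
  have hY1 : 1 / 2 ≤ Y r s' := by
    have := (hf0 (j + 1)).1
    rw [← hs'] at this
    have h8 : (r : ℝ) ^ s'.1 ≤ 2 * s'.2 := by exact_mod_cast this
    unfold Y
    rw [le_div_iff₀ (by positivity)]; linarith
  have hU1 : U r s' ≤ 1 := by
    have := (hf0 (j + 1)).2
    rw [← hs'] at this
    have h8 : (s'.2 : ℝ) + 1 ≤ (r : ℝ) ^ s'.1 := by exact_mod_cast this
    unfold U
    rw [div_le_one (by positivity)]; exact h8
  have hdist : |y - Y r s'| ≤ 1 / (r : ℝ) ^ s'.1 := by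
    have := U_eq hr s'
    rw [abs_of_nonneg (by linarith [hnest.1])]
    linarith [hnest.2]
  have hφ : |φ y - φ (Y r s')| ≤ Λ * (1 / (r : ℝ) ^ s'.1) := by
    refine (hΛ y (Y r s') (by linarith [hnest.1]) (by linarith [hnest.2]) hY1
      (by linarith [hnest.1, hnest.2])).trans ?_
    exact mul_le_mul_of_nonneg_left hdist hΛ0
  have hdiff : ‖∑ m ∈ Ico (f j).1 M, ex (h * ((r : ℝ) ^ m * φ y)) -
      ∑ m ∈ Ico (f j).1 M, ex (h * ((r : ℝ) ^ m * φ (Y r s')))‖ ≤ 2 * Real.pi * h * Λ := by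
    rw [← sum_sub_distrib]
    refine (norm_sum_le _ _).trans ?_
    have hterm : ∀ m ∈ Ico (f j).1 M, ‖ex (h * ((r : ℝ) ^ m * φ y)) -
        ex (h * ((r : ℝ) ^ m * φ (Y r s')))‖ ≤ 2 * Real.pi * h * Λ / (r : ℝ) ^ s'.1 * (r : ℝ) ^ m := by
      intro m _
      refine (norm_ex_sub_le _ _).trans ?_
      have e : (h : ℝ) * ((r : ℝ) ^ m * φ y) - h * ((r : ℝ) ^ m * φ (Y r s'))
          = (h * (r : ℝ) ^ m) * (φ y - φ (Y r s')) := by ring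
      rw [e, abs_mul, abs_of_nonneg (by positivity : (0 : ℝ) ≤ h * (r : ℝ) ^ m)]
      calc 2 * Real.pi * ((h * (r : ℝ) ^ m) * |φ y - φ (Y r s')|)
          ≤ 2 * Real.pi * ((h * (r : ℝ) ^ m) * (Λ * (1 / (r : ℝ) ^ s'.1))) := by
            have := Real.pi_pos
            gcongr
        _ = _ := by ring
    refine (sum_le_sum hterm).trans ?_
    rw [← mul_sum]
    have hgeo : ∑ m ∈ Ico (f j).1 M, (r : ℝ) ^ m ≤ (r : ℝ) ^ s'.1 := by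
      calc ∑ m ∈ Ico (f j).1 M, (r : ℝ) ^ m ≤ ∑ m ∈ range s'.1, (r : ℝ) ^ m := by
            apply sum_le_sum_of_subset_of_nonneg
            · intro m hm; rw [mem_Ico] at hm; rw [mem_range]; omega
            · intro m _ _; positivity
        _ ≤ (r : ℝ) ^ s'.1 := by
            rw [geom_sum_eq (by linarith)]
            rw [div_le_iff₀ (by linarith)]
            have : (0 : ℝ) < (r : ℝ) ^ s'.1 := by positivity
            nlinarith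
    have hpos : (0 : ℝ) < (r : ℝ) ^ s'.1 := by positivity
    calc 2 * Real.pi * h * Λ / (r : ℝ) ^ s'.1 * ∑ m ∈ Ico (f j).1 M, (r : ℝ) ^ m
        ≤ 2 * Real.pi * h * Λ / (r : ℝ) ^ s'.1 * (r : ℝ) ^ s'.1 := by
          apply mul_le_mul_of_nonneg_left hgeo
          have := Real.pi_pos
          positivity
      _ = 2 * Real.pi * h * Λ := by field_simp
  rw [hYb] at hdiff
  calc ‖∑ m ∈ Ico (f j).1 M, ex (h * ((r : ℝ) ^ m * φ y))‖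
      = ‖(∑ m ∈ Ico (f j).1 M, ex (h * ((r : ℝ) ^ m * φ ((b : ℝ) / (r : ℝ) ^ N)))) +
        (∑ m ∈ Ico (f j).1 M, ex (h * ((r : ℝ) ^ m * φ y)) -
      ∑ m ∈ Ico (f j).1 M, ex (h * ((r : ℝ) ^ m * φ ((b : ℝ) / (r : ℝ) ^ N))))‖ := by
        congr 1; ring
    _ ≤ _ := (norm_add_le _ _).trans (add_le_add hb hdiff)

end limit

end Pool.Agent.W28.NR
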