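import Mathlib

set_option autoImplicit false

/-! Second moment bounds for exponential sums and a simultaneous Chebyshev lemma. -/

namespace Pool.Agent.W28.NR

open Finset

lemma sq_add_norm (a b : ℂ) (hb : ‖b‖ = 1) :
    ‖a + b‖ ^ 2 = ‖a‖ ^ 2 + 1 + 2 * (b * (starRingEnd ℂ) a).re := by
  have h1 : ‖a + b‖ ^ 2 = ((a + b) * (starRingEnd ℂ) (a + b)).re := by
    rw [Complex.mul_conj, Complex.ofReal_re, Complex.normSq_eq_norm_sq]
  have h2 : ‖a‖ ^ 2 = (a * (starRingEnd ℂ) a).re := by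
    rw [Complex.mul_conj, Complex.ofReal_re, Complex.normSq_eq_norm_sq]
  have h3 : (1 : ℝ) = (b * (starRingEnd ℂ) b).re := by
    rw [Complex.mul_conj, Complex.ofReal_re, Complex.normSq_eq_norm_sq, hb]; norm_num
  rw [h1, h2, h3]
  simp only [map_add, Complex.mul_re, Complex.add_re, Complex.add_im, Complex.conj_re,
    Complex.conj_im]
  ring

/-- second moment expansion -/
lemma second_moment (P s t : ℕ) (F : ℕ → ℕ → ℂ) (hF : ∀ m p, ‖F m p‖ = 1)
    (C κ : ℝ) (hκ : 0 ≤ κ)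
    (hD : ∀ m' m, s ≤ m' → m' < m → m < s + t →
      ‖∑ p ∈ range P, F m p * (starRingEnd ℂ) (F m' p)‖ ≤ P * (C / 2 ^ (m - s) + κ)) :
    ∑ p ∈ range P, ‖∑ m ∈ Ico s (s + t), F m p‖ ^ 2 ≤
      P * ((t : ℝ) + (4 * C - 4 * C * (t + 1) / 2 ^ t) + κ * (t : ℝ) ^ 2) := by
  induction t with
  | zero => simp
  | succ t ih =>
    have ih' := ih (fun m' m h1 h2 h3 => hD m' m h1 h2 (by omega))
    have hstep : ∀ p, ‖∑ m ∈ Ico s (s + (t + 1)), F m p‖ ^ 2
        = ‖∑ m ∈ Ico s (s + t), F m p‖ ^ 2 + 1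
          + 2 * (F (s + t) p * (starRingEnd ℂ) (∑ m ∈ Ico s (s + t), F m p)).re := by
      intro p
      rw [← add_assoc, sum_Ico_succ_top (by omega)]
      exact sq_add_norm _ _ (hF _ _)
    simp only [hstep, sum_add_distrib]
    have hcross : ∑ p ∈ range P, 2 * (F (s + t) p * (starRingEnd ℂ) (∑ m ∈ Ico s (s + t), F m p)).re
        ≤ 2 * (t * (P * (C / 2 ^ t + κ))) := by
      rw [← mul_sum]
      apply mul_le_mul_of_nonneg_left _ (by norm_num)
      have e1 : ∑ p ∈ range P, (F (s + t) p * (starRingEnd ℂ) (∑ m ∈ Ico s (s + t), F m p)).re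
          = (∑ m ∈ Ico s (s + t), ∑ p ∈ range P, F (s + t) p * (starRingEnd ℂ) (F m p)).re := by
        rw [sum_comm, Complex.re_sum]
        apply sum_congr rfl
        intro p _
        rw [map_sum, mul_sum]
      rw [e1]
      refine (Complex.re_le_norm _).trans ?_
      refine (norm_sum_le _ _).trans ?_
      have h2 : ∀ m ∈ Ico s (s + t), ‖∑ p ∈ range P, F (s + t) p * (starRingEnd ℂ) (F m p)‖
          ≤ P * (C / 2 ^ t + κ) := by
        intro m hm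
        rw [mem_Ico] at hm
        have := hD m (s + t) hm.1 hm.2 (by omega)
        rwa [Nat.add_sub_cancel_left] at this
      refine (sum_le_card_nsmul _ _ _ h2).trans ?_
      rw [Nat.card_Ico, Nat.add_sub_cancel_left, nsmul_eq_mul]
    rw [sum_const, card_range, nsmul_eq_mul, mul_one]
    have hP : (0 : ℝ) ≤ P := Nat.cast_nonneg _
    have ht0 : (0 : ℝ) ≤ t := Nat.cast_nonneg _
    have hgoal : P * ((t : ℝ) + (4 * C - 4 * C * (t + 1) / 2 ^ t) + κ * (t : ℝ) ^ 2)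
        + P + 2 * (t * (P * (C / 2 ^ t + κ))) ≤
        P * (((t + 1 : ℕ) : ℝ) + (4 * C - 4 * C * (((t + 1 : ℕ) : ℝ) + 1) / 2 ^ (t + 1))
          + κ * ((t + 1 : ℕ) : ℝ) ^ 2) := by
      push_cast
      have e : P * ((t : ℝ) + 1 + (4 * C - 4 * C * ((t : ℝ) + 1 + 1) / 2 ^ (t + 1))
          + κ * ((t : ℝ) + 1) ^ 2) - (P * ((t : ℝ) + (4 * C - 4 * C * (t + 1) / 2 ^ t)
          + κ * (t : ℝ) ^ 2) + P + 2 * (t * (P * (C / 2 ^ t + κ)))) = P * κ := by
        rw [pow_succ]; field_simp; ring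
      have : 0 ≤ (P : ℝ) * κ := by positivity
      linarith
    linarith

lemma tele_aux (x : ℝ) (hx : 1 ≤ x) :
    2 / (x - 1 / 2) - 2 / (x + 1 / 2) = 2 / (x ^ 2 - 1 / 4) := by
  have a : x - 1 / 2 ≠ 0 := by
    have : (0:ℝ) < x - 1 / 2 := by linarith
    exact this.ne'
  have b : x + 1 / 2 ≠ 0 := by positivity
  have c : x ^ 2 - 1 / 4 = (x - 1 / 2) * (x + 1 / 2) := by ring
  rw [c, div_sub_div _ _ a b]
  congr 1
  ring

/-- The sum `∑ 1/(s+k²)`. -/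
lemma sum_inv_sq (q : ℕ) (hq : 1 ≤ q) (s : ℝ) (hs : (q : ℝ) ^ 2 ≤ s) (K : ℕ) :
    ∑ k ∈ range K, 1 / (s + (k : ℝ) ^ 2) ≤ 4 / (q : ℝ) := by
  have hq' : (1 : ℝ) ≤ q := by exact_mod_cast hq
  have h : ∑ k ∈ range K, 1 / (s + (k : ℝ) ^ 2) ≤ 2 / ((q : ℝ) - 1 / 2) - 2 / ((q : ℝ) + K - 1 / 2) := by
    induction K with
    | zero => simp
    | succ K ih =>
      rw [sum_range_succ]
      have hK : (0 : ℝ) ≤ K := Nat.cast_nonneg _
      have h1 : 1 / (s + (K : ℝ) ^ 2) ≤ 2 / ((q : ℝ) + K - 1 / 2) - 2 / ((q : ℝ) + K + 1 / 2) := by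
        rw [tele_aux _ (by linarith), div_le_div_iff₀ (by nlinarith) (by nlinarith)]
        nlinarith [sq_nonneg ((q : ℝ) - K)]
      push_cast
      have e2 : (q : ℝ) + ((K : ℝ) + 1) - 1 / 2 = q + K + 1 / 2 := by ring
      rw [e2]
      linarith
  have h2 : 2 / ((q : ℝ) - 1 / 2) ≤ 4 / (q : ℝ) := by
    rw [div_le_div_iff₀ (by linarith) (by linarith)]
    linarith
  have h3 : 0 ≤ 2 / ((q : ℝ) + K - 1 / 2) := by
    apply div_nonneg (by norm_num)
    have : (0:ℝ) ≤ K := Nat.cast_nonneg _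
    linarith
  linarith

open Classical in
/-- Simultaneous Chebyshev bound: for more than half of the parameters all partial sums are small. -/
theorem cheb (P H s e : ℕ) (F : ℕ → ℕ → ℕ → ℂ) (hF : ∀ h m p, ‖F h m p‖ = 1)
    (C κ ε : ℝ) (hC : 0 ≤ C) (hκ : 0 ≤ κ) (hε : 0 < ε) (hP : 1 ≤ P)
    (hse : s ≤ e) (hκe : κ * ((e - s : ℕ) : ℝ) ^ 2 ≤ 1)
    (q : ℕ) (hq : 1 ≤ q) (hqs : q ^ 2 ≤ s) (hqb : 8 * H * (4 * C + 1) / ε ^ 2 < q)
    (hqe : 3 / ε ≤ q)
    (hD : ∀ h, 1 ≤ h → h ≤ H → ∀ m' m, s ≤ m' → m' < m → m < e →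
      ‖∑ p ∈ range P, F h m p * (starRingEnd ℂ) (F h m' p)‖ ≤ P * (C / 2 ^ (m - s) + κ)) :
    ∃ G : Finset ℕ, G ⊆ range P ∧ P < 2 * G.card ∧ ∀ p ∈ G, ∀ h, 1 ≤ h → h ≤ H → ∀ M, s ≤ M → M ≤ e →
      ‖∑ m ∈ Ico s M, F h m p‖ ≤ 2 * ε * M := by
  have hPr : (1 : ℝ) ≤ P := by exact_mod_cast hP
  have hqr : (1 : ℝ) ≤ q := by exact_mod_cast hq
  have hqs' : (q : ℝ) ^ 2 ≤ s := by exact_mod_cast hqs
  have hs1 : (1 : ℝ) ≤ s := by nlinarith
  -- the bad sets
  set Bad : ℕ → ℕ → Finset ℕ := fun h k =>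
    (range P).filter (fun p => ε * (s + (k : ℝ) ^ 2) < ‖∑ m ∈ Ico s (s + k ^ 2), F h m p‖) with hBad
  have hbad : ∀ h ∈ Icc 1 H, ∀ k, s + k ^ 2 ≤ e →
      ((Bad h k).card : ℝ) ≤ P * (4 * C + 1) / ε ^ 2 * (1 / (s + (k : ℝ) ^ 2)) := by
    intro h hh k hk
    rw [mem_Icc] at hh
    have h1 := second_moment P s (k ^ 2) (F h) (hF h) C κ hκ
      (fun m' m a b c => hD h hh.1 hh.2 m' m a b (by omega))
    have h2 : ((Bad h k).card : ℝ) * (ε * (s + (k : ℝ) ^ 2)) ^ 2 ≤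
        ∑ p ∈ range P, ‖∑ m ∈ Ico s (s + k ^ 2), F h m p‖ ^ 2 := by
      rw [← nsmul_eq_mul]
      refine le_trans (card_nsmul_le_sum (Bad h k) _ _ ?_) (sum_le_sum_of_subset_of_nonneg
        (filter_subset _ _) (fun _ _ _ => by positivity))
      intro p hp
      simp only [hBad, mem_filter] at hp
      exact pow_le_pow_left₀ (by positivity) hp.2.le 2
    have h3 : ((k ^ 2 : ℕ) : ℝ) + (4 * C - 4 * C * (((k ^ 2 : ℕ) : ℝ) + 1) / 2 ^ (k ^ 2))
        + κ * ((k ^ 2 : ℕ) : ℝ) ^ 2 ≤ (4 * C + 1) * (s + (k : ℝ) ^ 2) := by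
      have a1 : κ * ((k ^ 2 : ℕ) : ℝ) ^ 2 ≤ 1 := by
        refine le_trans ?_ hκe
        apply mul_le_mul_of_nonneg_left _ hκ
        apply pow_le_pow_left₀ (by positivity)
        have : k ^ 2 ≤ e - s := by omega
        exact_mod_cast this
      have a2 : 0 ≤ 4 * C * (((k ^ 2 : ℕ) : ℝ) + 1) / 2 ^ (k ^ 2) := by positivity
      have a3 : ((k ^ 2 : ℕ) : ℝ) = (k : ℝ) ^ 2 := by push_cast; ring
      rw [a3] at a1 a2 ⊢
      nlinarith [sq_nonneg (k : ℝ), mul_nonneg hC (sq_nonneg (k : ℝ)), mul_nonneg hC (by linarith : (0:ℝ) ≤ s - 1)]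
    have h4 : ((Bad h k).card : ℝ) * (ε * (s + (k : ℝ) ^ 2)) ^ 2 ≤
        P * ((4 * C + 1) * (s + (k : ℝ) ^ 2)) :=
      h2.trans (h1.trans (mul_le_mul_of_nonneg_left h3 (by positivity)))
    have hsk : 0 < (s : ℝ) + (k : ℝ) ^ 2 := by positivity
    have e1 : P * (4 * C + 1) / ε ^ 2 * (1 / (s + (k : ℝ) ^ 2))
        = P * ((4 * C + 1) * (s + (k : ℝ) ^ 2)) / (ε * (s + (k : ℝ) ^ 2)) ^ 2 := by
      field_simp
    rw [e1, le_div_iff₀ (by positivity)]
    exact h4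
  -- the union of the bad sets
  set KK := (range (e + 1)).filter (fun k => s + k ^ 2 ≤ e) with hKK
  set U : Finset ℕ := (Icc 1 H).biUnion (fun h => KK.biUnion (fun k => Bad h k)) with hU
  have hUc : (U.card : ℝ) < P / 2 := by
    have h1 : (U.card : ℝ) ≤ ∑ h ∈ Icc 1 H, ∑ k ∈ KK, ((Bad h k).card : ℝ) := by
      have : U.card ≤ ∑ h ∈ Icc 1 H, ∑ k ∈ KK, (Bad h k).card := by
        refine card_biUnion_le.trans (sum_le_sum fun h _ => card_biUnion_le)
      exact_mod_cast this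
    have h2 : ∑ h ∈ Icc 1 H, ∑ k ∈ KK, ((Bad h k).card : ℝ) ≤
        ∑ h ∈ Icc 1 H, P * (4 * C + 1) / ε ^ 2 * (4 / q) := by
      apply sum_le_sum
      intro h hh
      calc ∑ k ∈ KK, ((Bad h k).card : ℝ)
          ≤ ∑ k ∈ KK, P * (4 * C + 1) / ε ^ 2 * (1 / (s + (k : ℝ) ^ 2)) := by
            apply sum_le_sum
            intro k hk
            rw [hKK, mem_filter] at hk
            exact hbad h hh k hk.2
        _ ≤ ∑ k ∈ range (e + 1), P * (4 * C + 1) / ε ^ 2 * (1 / (s + (k : ℝ) ^ 2)) := by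
            apply sum_le_sum_of_subset_of_nonneg (filter_subset _ _)
            intro k _ _
            positivity
        _ = P * (4 * C + 1) / ε ^ 2 * ∑ k ∈ range (e + 1), (1 / (s + (k : ℝ) ^ 2)) := by
            rw [mul_sum]
        _ ≤ P * (4 * C + 1) / ε ^ 2 * (4 / q) :=
            mul_le_mul_of_nonneg_left (sum_inv_sq q hq s hqs' _) (by positivity)
    rw [sum_const, Nat.card_Icc, nsmul_eq_mul, Nat.add_sub_cancel] at h2
    refine lt_of_le_of_lt (h1.trans h2) ?_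
    have h3 : (H : ℝ) * (P * (4 * C + 1) / ε ^ 2 * (4 / q))
        = P / 2 * ((8 * H * (4 * C + 1) / ε ^ 2) / q) := by
      field_simp
      ring
    rw [h3]
    have h4 : (8 * H * (4 * C + 1) / ε ^ 2) / q < 1 := by
      rw [div_lt_one (by linarith)]; exact hqb
    have h5 : (0 : ℝ) < P / 2 := by linarith
    nlinarith
  -- complement
  refine ⟨(range P) \ U, sdiff_subset, ?_, ?_⟩
  swap
  · intro p hp
    rw [mem_sdiff] at hp
    intro h h1 hH M hsM hMe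
    -- the checkpoint
    set k := Nat.sqrt (M - s) with hk
    have hk1 : k ^ 2 ≤ M - s := Nat.sqrt_le' _
    have hk2 : M - s < (k + 1) ^ 2 := Nat.lt_succ_sqrt' _
    have hgood : ‖∑ m ∈ Ico s (s + k ^ 2), F h m p‖ ≤ ε * (s + (k : ℝ) ^ 2) := by
      by_contra hcon
      push Not at hcon
      apply hp.2
      rw [hU, mem_biUnion]
      refine ⟨h, mem_Icc.2 ⟨h1, hH⟩, ?_⟩
      rw [mem_biUnion]
      refine ⟨k, ?_, ?_⟩
      · rw [hKK, mem_filter, mem_range]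
        have : k ≤ k ^ 2 := Nat.le_self_pow (by norm_num) k
        omega
      · simp only [hBad, mem_filter]
        exact ⟨hp.1, hcon⟩
    have hsplit : ∑ m ∈ Ico s M, F h m p =
        ∑ m ∈ Ico s (s + k ^ 2), F h m p + ∑ m ∈ Ico (s + k ^ 2) M, F h m p :=
      (sum_Ico_consecutive _ (by omega) (by omega)).symm
    have hrest : ‖∑ m ∈ Ico (s + k ^ 2) M, F h m p‖ ≤ 2 * k := by
      refine (norm_sum_le _ _).trans ?_
      rw [sum_congr rfl (fun m _ => hF h m p), sum_const, Nat.card_Ico, nsmul_eq_mul, mul_one]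
      have : M - (s + k ^ 2) ≤ 2 * k := by
        have : (k + 1) ^ 2 = k ^ 2 + 2 * k + 1 := by ring
        omega
      exact_mod_cast this
    rw [hsplit]
    refine (norm_add_le _ _).trans ?_
    have hM : (s : ℝ) + (k : ℝ) ^ 2 ≤ M := by
      have : s + k ^ 2 ≤ M := by omega
      exact_mod_cast this
    have hk0 : (0 : ℝ) ≤ k := Nat.cast_nonneg _
    have h7 : 2 * (k : ℝ) ≤ ε * (s + (k : ℝ) ^ 2) := by
      have h8 : 3 ≤ ε * q := by
        rw [div_le_iff₀ hε] at hqe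
        linarith
      have h9 : 2 * (q : ℝ) * k ≤ s + (k : ℝ) ^ 2 := by nlinarith [sq_nonneg ((q : ℝ) - k)]
      calc 2 * (k : ℝ) ≤ (ε * q) * (2 * k) / 3 * (3/3) := by nlinarith
        _ ≤ ε * (2 * q * k) := by nlinarith [mul_nonneg (mul_nonneg hε.le (by linarith : (0:ℝ) ≤ q)) hk0]
        _ ≤ ε * (s + (k : ℝ) ^ 2) := mul_le_mul_of_nonneg_left h9 hε.le
    have h10 : ε * (s + (k : ℝ) ^ 2) ≤ ε * M := mul_le_mul_of_nonneg_left hM hε.le
    linarith
  have h1 : P - U.card ≤ ((range P) \ U).card := by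
    have := le_card_sdiff U (range P)
    rwa [card_range] at this
  have h2 : (P : ℝ) < 2 * (P - U.card) := by linarith
  have h3 : U.card ≤ P := by
    have : (U.card : ℝ) ≤ P := by linarith
    exact_mod_cast this
  have h4 : P < 2 * (P - U.card) := by
    have h5 : ((P - U.card : ℕ) : ℝ) = P - U.card := by push_cast [h3]; ring
    rw [← h5] at h2
    exact_mod_cast h2
  omega

end Pool.Agent.W28.NR
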