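import Pool.Agent.W28.NRChain

set_option autoImplicit false

namespace Pool.Agent.W28.NR

open Finset Filter Topology

lemma find_index (L : ℕ → ℕ) (hL : ∀ j, L j < L (j + 1)) (J M : ℕ) (hM : L J ≤ M) :
    ∃ j, J ≤ j ∧ L j ≤ M ∧ M < L (j + 1) := by
  have hmono : StrictMono L := strictMono_nat_of_lt_succ hL
  have hex : ∃ k, M < L k := ⟨M + 1, by
    have := hmono.le_apply (x := M + 1); omega⟩
  classical
  have h1 := Nat.find_spec hex
  have h2 : ∀ k < Nat.find hex, ¬ M < L k := fun k hk => Nat.find_min hex hk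
  set k := Nat.find hex with hk
  have hkJ : J < k := by
    by_contra hcon
    push Not at hcon
    have := hmono.monotone hcon
    omega
  refine ⟨k - 1, by omega, ?_, ?_⟩
  · have := h2 (k - 1) (by omega); omega
  · have e : k - 1 + 1 = k := by omega
    rw [e]; exact h1

theorem normal_image {r d : ℕ} {φ : ℝ → ℝ} {f : ℕ → ℕ × ℕ} (hr : 2 ≤ r) (Λ : ℝ) (hΛ0 : 0 ≤ Λ)
    (hΛ : ∀ x y, 1 / 2 ≤ x → x ≤ 1 → 1 / 2 ≤ y → y ≤ 1 → |φ x - φ y| ≤ Λ * |x - y|)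
    (hf0 : ∀ j, r ^ (f j).1 ≤ 2 * (f j).2 ∧ (f j).2 < r ^ (f j).1)
    (hf : ∀ j, Rel r d φ j (f j) (f (j + 1))) (y : ℝ)
    (hy : ∀ j, Y r (f j) ≤ y ∧ y ≤ U r (f j)) : NormalBase r (φ y) := by
  apply normal_of_weyl r hr
  intro h hh1
  rw [Metric.tendsto_atTop]
  intro η hη
  set Ch : ℝ := 2 * Real.pi * h * Λ with hCh
  have hCh0 : 0 ≤ Ch := by have := Real.pi_pos; positivity
  obtain ⟨J, hJ⟩ := exists_nat_gt (max (8 / η) (h + 1))
  have hJ1 : 8 / η < J := lt_of_le_of_lt (le_max_left _ _) hJ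
  have hJ2 : (h : ℝ) + 1 < J := lt_of_le_of_lt (le_max_right _ _) hJ
  have hJ3 : h + 1 < J := by exact_mod_cast hJ2
  obtain ⟨M0, hM0⟩ := exists_nat_gt (8 * Ch / η)
  refine ⟨max (f J).1 (M0 + 1), fun M hM => ?_⟩
  have hM1 : (f J).1 ≤ M := (le_max_left _ _).trans hM
  have hM2 : M0 + 1 ≤ M := (le_max_right _ _).trans hM
  have hMpos : (0 : ℝ) < M := by
    have : 0 < M := by omega
    exact_mod_cast this
  have hLlt : ∀ j, (f j).1 < (f (j + 1)).1 := fun j => (L_lt j _ _ (hf j)).1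
  obtain ⟨j, hjJ, hj1, hj2⟩ := find_index (fun j => (f j).1) hLlt J M hM1
  obtain ⟨i, rfl⟩ : ∃ i, j = i + 1 := ⟨j - 1, by omega⟩
  -- split the sum
  have hs1 : ∑ m ∈ range M, ex (h * ((r : ℝ) ^ m * φ y)) =
      ∑ m ∈ range (f i).1, ex (h * ((r : ℝ) ^ m * φ y)) +
      (∑ m ∈ Ico (f i).1 (f (i + 1)).1, ex (h * ((r : ℝ) ^ m * φ y)) +
       ∑ m ∈ Ico (f (i + 1)).1 M, ex (h * ((r : ℝ) ^ m * φ y))) := by
    rw [sum_Ico_consecutive _ (hLlt i).le hj1, sum_range_add_sum_Ico _ ((hLlt i).le.trans hj1)]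
  have hb1 : ‖∑ m ∈ range (f i).1, ex (h * ((r : ℝ) ^ m * φ y))‖ ≤ (f i).1 := by
    refine (norm_sum_le _ _).trans ?_
    simp [norm_ex]
  have hb2 := sum_limit hr Λ hΛ0 hΛ hf0 hf y hy i h (f (i + 1)).1 hh1 (by omega) (hLlt i).le le_rfl
  have hb3 := sum_limit hr Λ hΛ0 hΛ hf0 hf y hy (i + 1) h M hh1 (by omega) hj1 hj2.le
  rw [← hCh] at hb2 hb3
  have hLi : ((i : ℝ) + 1) * (f i).1 ≤ M := by
    have h1 := (L_lt i _ _ (hf i)).2
    have h2 : (i + 1) * (f i).1 ≤ M := h1.trans hj1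
    exact_mod_cast h2
  have hi : (8 : ℝ) / η < i + 1 := by
    have : (J : ℝ) ≤ ((i + 1 : ℕ) : ℝ) := by exact_mod_cast hjJ
    push_cast at this
    linarith
  have hi0 : (0 : ℝ) < (i : ℝ) + 1 := by positivity
  have hinv : 1 / ((i : ℝ) + 1) ≤ η / 8 := by
    rw [div_le_iff₀ hi0]
    rw [div_lt_iff₀ hη] at hi
    nlinarith
  have hinv2 : 1 / (((i + 1 : ℕ) : ℝ) + 1) ≤ η / 8 := by
    refine le_trans ?_ hinv
    apply one_div_le_one_div_of_le hi0
    push_cast; linarith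
  have hb1' : ((f i).1 : ℝ) ≤ η / 8 * M := by
    have : ((f i).1 : ℝ) ≤ 1 / ((i : ℝ) + 1) * M := by
      rw [div_mul_eq_mul_div, one_mul, le_div_iff₀ hi0]; linarith
    exact this.trans (mul_le_mul_of_nonneg_right hinv hMpos.le)
  have hb2' : 1 / ((i : ℝ) + 1) * ((f (i + 1)).1 : ℝ) ≤ η / 8 * M := by
    have : ((f (i + 1)).1 : ℝ) ≤ M := by exact_mod_cast hj1
    exact mul_le_mul hinv this (Nat.cast_nonneg _) (by positivity)
  have hb3' : 1 / (((i + 1 : ℕ) : ℝ) + 1) * (M : ℝ) ≤ η / 8 * M :=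
    mul_le_mul_of_nonneg_right hinv2 hMpos.le
  have hCM : Ch ≤ η / 8 * M := by
    have : (M0 : ℝ) ≤ M := by
      have : M0 ≤ M := by omega
      exact_mod_cast this
    have h5 : 8 * Ch / η < M := lt_of_lt_of_le hM0 this
    rw [div_lt_iff₀ hη] at h5
    linarith
  have htot : ‖∑ m ∈ range M, ex (h * ((r : ℝ) ^ m * φ y))‖ ≤ 5 / 8 * η * M := by
    rw [hs1]
    refine (norm_add_le _ _).trans ?_
    have := norm_add_le (∑ m ∈ Ico (f i).1 (f (i + 1)).1, ex (h * ((r : ℝ) ^ m * φ y)))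
      (∑ m ∈ Ico (f (i + 1)).1 M, ex (h * ((r : ℝ) ^ m * φ y)))
    linarith
  rw [dist_zero_right, norm_div]
  have hMn : ‖(M : ℂ)‖ = M := by simp
  rw [hMn, div_lt_iff₀ hMpos]
  nlinarith

theorem not_normal {r d : ℕ} {φ : ℝ → ℝ} {f : ℕ → ℕ × ℕ} (hr : 2 ≤ r) (hd : 1 ≤ d)
    (hf : ∀ j, Rel r d φ j (f j) (f (j + 1))) (y : ℝ)
    (hy : ∀ j, Y r (f j) ≤ y ∧ y ≤ U r (f j)) : ¬ NormalBase r y := by
  intro hn
  have hr2 : (2 : ℝ) ≤ r := by exact_mod_cast hr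
  have hr0 : (0 : ℝ) < (r : ℝ) := by positivity
  set k := d + 2 with hk
  have hlim := hn k (by omega) 0 le_rfl (by positivity)
  have hdr : (1 : ℝ) ≤ d := by exact_mod_cast hd
  have hrk : 2 * ((d : ℝ) + 1) ≤ (r : ℝ) ^ k := by
    have h1 : d + 1 < 2 ^ (d + 1) := Nat.lt_two_pow_self
    have h2 : 2 * (d + 1) ≤ 2 ^ (d + 2) := by
      rw [pow_succ]; omega
    have h3 : (2 * ((d : ℝ) + 1)) ≤ 2 ^ (d + 2) := by exact_mod_cast h2
    refine h3.trans ?_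
    exact pow_le_pow_left₀ (by norm_num) hr2 _
  rw [Metric.tendsto_atTop] at hlim
  obtain ⟨M1, hM1⟩ := hlim (1 / (4 * ((d : ℝ) + 1))) (by positivity)
  -- choose a large stage
  set j := max M1 (d * (4 * k + 4)) with hj
  have hstage := hf j
  have hyj := hy (j + 1)
  obtain ⟨N, b, h1, h2, h3, h4, h5, h6, -⟩ := hstage
  set s' := f (j + 1) with hs'
  have hNj : j + 1 ≤ N := by
    have : j + 1 ≤ (j + 1) * (f j).1 + (j + 1) := Nat.le_add_left _ _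
    omega
  set t := N / d with ht
  have htd : d * t ≤ N := Nat.mul_div_le N d
  have htd2 : N < d * (t + 1) := Nat.lt_mul_div_succ N (by omega)
  have ht1 : 4 * k + 3 ≤ t := by
    rw [ht, Nat.le_div_iff_mul_le (by omega)]
    have : d * (4 * k + 4) ≤ j := le_max_right _ _
    nlinarith
  have hM1' : M1 ≤ s'.1 := by
    have : M1 ≤ j := le_max_left _ _
    rw [h3]; omega
  have hfreq := hM1 s'.1 hM1'
  rw [Real.dist_eq] at hfreq
  have hfreq2 := (abs_lt.1 hfreq).2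
  -- lower bound for the count
  have hcount : t - k ≤ ((Finset.range s'.1).filter
      (fun n : ℕ => ⌊(r : ℝ) ^ (n + k) * y⌋ % (r : ℤ) ^ k = 0)).card := by
    have hsub : Ico N (s'.1 - k) ⊆ (Finset.range s'.1).filter
        (fun n : ℕ => ⌊(r : ℝ) ^ (n + k) * y⌋ % (r : ℤ) ^ k = 0) := by
      intro n hn
      rw [mem_Ico] at hn
      rw [mem_filter, mem_range]
      refine ⟨by omega, ?_⟩
      have hYb : Y r s' = (b : ℝ) / (r : ℝ) ^ N := by
        unfold Y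
        rw [h3, h4, pow_add]
        push_cast
        field_simp
      have hU := U_eq hr s'
      have e1 : (r : ℝ) ^ (n + k) * ((b : ℝ) / (r : ℝ) ^ N)
          = (((b : ℤ) * (r : ℤ) ^ (n - N) * (r : ℤ) ^ k : ℤ) : ℝ) := by
        have : (r : ℝ) ^ (n + k) = (r : ℝ) ^ N * ((r : ℝ) ^ (n - N) * (r : ℝ) ^ k) := by
          rw [← pow_add, ← pow_add]; congr 1; omega
        rw [this]; push_cast; field_simp
      have hfl : ⌊(r : ℝ) ^ (n + k) * y⌋ = (b : ℤ) * (r : ℤ) ^ (n - N) * (r : ℤ) ^ k := by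
        rw [Int.floor_eq_iff]
        have hp : (0 : ℝ) < (r : ℝ) ^ (n + k) := by positivity
        constructor
        · rw [← e1, ← hYb]
          exact mul_le_mul_of_nonneg_left hyj.1 hp.le
        · rw [← e1, ← hYb]
          have h7 : (r : ℝ) ^ (n + k) * y ≤ (r : ℝ) ^ (n + k) * (Y r s' + 1 / (r : ℝ) ^ s'.1) := by
            apply mul_le_mul_of_nonneg_left _ hp.le
            linarith [hyj.2]
          have h8 : (r : ℝ) ^ (n + k) * (1 / (r : ℝ) ^ s'.1) < 1 := by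
            rw [mul_one_div, div_lt_one (by positivity)]
            apply pow_lt_pow_right₀ (by linarith)
            omega
          rw [mul_add] at h7
          linarith
      rw [hfl]
      exact Int.mul_emod_left _ _
    have := card_le_card hsub
    rw [Nat.card_Ico] at this
    omega
  have hs'pos : (0 : ℝ) < s'.1 := by
    have : 0 < s'.1 := by omega
    exact_mod_cast this
  have hc : ((t : ℝ) - k) / s'.1 ≤ (((Finset.range s'.1).filter
      (fun n : ℕ => ⌊(r : ℝ) ^ (n + k) * y⌋ % (r : ℤ) ^ k = 0)).card : ℝ) / s'.1 := by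
    apply div_le_div_of_nonneg_right _ hs'pos.le
    have h9 : ((t - k : ℕ) : ℝ) ≤ (((Finset.range s'.1).filter
      (fun n : ℕ => ⌊(r : ℝ) ^ (n + k) * y⌋ % (r : ℤ) ^ k = 0)).card : ℝ) := by
      exact_mod_cast hcount
    rw [Nat.cast_sub (by omega)] at h9
    exact h9
  have hlow : 3 / (4 * ((d : ℝ) + 1)) ≤ ((t : ℝ) - k) / s'.1 := by
    rw [div_le_div_iff₀ (by positivity) hs'pos]
    have a1 : (s'.1 : ℝ) ≤ ((d : ℝ) + 1) * (t + 1) := by
      have : s'.1 ≤ (d + 1) * (t + 1) := by rw [h3]; nlinarith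
      exact_mod_cast this
    have a2 : (4 * (k : ℝ) + 3) ≤ t := by exact_mod_cast ht1
    nlinarith
  have hup : 1 / (r : ℝ) ^ k ≤ 2 / (4 * ((d : ℝ) + 1)) := by
    rw [div_le_div_iff₀ (by positivity) (by positivity)]
    linarith
  have e : 3 / (4 * ((d : ℝ) + 1)) = 2 / (4 * ((d : ℝ) + 1)) + 1 / (4 * ((d : ℝ) + 1)) := by ring
  linarith

/-- Main chain theorem. -/
theorem chain (r d : ℕ) (hr : 2 ≤ r) (hd : 1 ≤ d) (φ : ℝ → ℝ) (Λ : ℝ) (hΛ0 : 0 ≤ Λ)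
    (hΛ : ∀ x y, 1 / 2 ≤ x → x ≤ 1 → 1 / 2 ≤ y → y ≤ 1 → |φ x - φ y| ≤ Λ * |x - y|)
    (hS : Stage r d φ) : ∃ y : ℝ, 1 / 2 ≤ y ∧ y ≤ 1 ∧ NormalBase r (φ y) ∧ ¬ NormalBase r y := by
  obtain ⟨f, hf0, hf⟩ := exists_states r d hr φ hS
  obtain ⟨y, hy⟩ := exists_limit hr hf
  refine ⟨y, ?_, ?_, normal_image hr Λ hΛ0 hΛ hf0 hf y hy, not_normal hr hd hf y hy⟩
  · have h1 : (r : ℝ) ^ (f 0).1 ≤ 2 * (f 0).2 := by exact_mod_cast (hf0 0).1
    have hp : (0 : ℝ) < (r : ℝ) ^ (f 0).1 := by positivity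
    refine le_trans ?_ (hy 0).1
    unfold Y
    rw [le_div_iff₀ hp]; linarith
  · have h1 : ((f 0).2 : ℝ) + 1 ≤ (r : ℝ) ^ (f 0).1 := by exact_mod_cast (hf0 0).2
    have hp : (0 : ℝ) < (r : ℝ) ^ (f 0).1 := by positivity
    refine le_trans (hy 0).2 ?_
    unfold U
    rw [div_le_one hp]; linarith

end Pool.Agent.W28.NR
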