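import Pool.Agent.W28.NRLimit
import Pool.Agent.W28.NRCheb
import Pool.Agent.H520R3.Weyl
import Pool.Agent.W28.NRFinalRecip

set_option autoImplicit false

namespace Pool.Agent.W28.NR

open Finset Filter Topology

lemma ex_eq_e (x : ℝ) : ex x = Pool.Agent.H520R3.e x := by
  unfold ex Pool.Agent.H520R3.e
  congr 1
  ring

lemma ex_add (x y : ℝ) : ex (x + y) = ex x * ex y := by
  simp only [ex_eq_e]; exact Pool.Agent.H520R3.e_add x y

/-- geometric sums -/
lemma geom_ex {θ κ c : ℝ} (hκ : 0 < κ) (h : ∀ n : ℤ, κ < |θ - n|) (P : ℕ) :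
    ‖∑ p ∈ range P, ex (c + θ * p)‖ ≤ 1 / (2 * κ) := by
  have e1 : ∑ p ∈ range P, ex (c + θ * p) = ex c * ∑ p ∈ range P, Pool.Agent.H520R3.e (θ * p) := by
    rw [mul_sum]
    apply sum_congr rfl
    intro p _
    rw [ex_add, ← ex_eq_e]
  rw [e1, norm_mul, norm_ex, one_mul]
  exact Pool.Agent.H520R3.geom_bound hκ h P

/-- For irrational `b` there are infinitely many `N` such that `b t` is far from the integers for all
moderately small `t`. -/
lemma good_scales (r : ℕ) (hr : 2 ≤ r) (b : ℝ) (hb : Irrational b) (H N1 : ℕ) :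
    ∃ N, N1 ≤ N ∧ ∀ t : ℕ, 1 ≤ t → t ≤ H * r ^ (N / 16) → ∀ s : ℤ,
      1 / (r : ℝ) ^ (N / 2) < |b * t - s| := by
  by_contra hcon
  push Not at hcon
  have hr2 : (2 : ℝ) ≤ r := by exact_mod_cast hr
  have hr0 : (0 : ℝ) < r := by linarith
  have hr1 : (1 : ℝ) ≤ r := by linarith
  have hex : ∀ N, ∃ t : ℕ, ∃ s : ℤ, N1 ≤ N → (1 ≤ t ∧ t ≤ H * r ^ (N / 16) ∧
      |b * t - s| ≤ 1 / (r : ℝ) ^ (N / 2)) := by
    intro N
    by_cases hN : N1 ≤ N
    · obtain ⟨t, h1, h2, s, h3⟩ := hcon N hN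
      exact ⟨t, s, fun _ => ⟨h1, h2, h3⟩⟩
    · exact ⟨0, 0, fun h => absurd h hN⟩
  choose t s hts using hex
  -- consecutive approximations coincide
  obtain ⟨N2, hN2⟩ : ∃ N2 : ℕ, 4 * H * r < 2 ^ N2 := ⟨4 * H * r, Nat.lt_two_pow_self⟩
  have hstep : ∀ N, N1 ≤ N → 16 * N2 + 32 ≤ N → s N * t (N + 1) = s (N + 1) * t N := by
    intro N h1 h2
    obtain ⟨a1, a2, a3⟩ := hts N h1
    obtain ⟨b1, b2, b3⟩ := hts (N + 1) (by omega)
    have a2' : (t N : ℝ) ≤ H * (r : ℝ) ^ (N / 16) := by exact_mod_cast a2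
    have b2' : (t (N + 1) : ℝ) ≤ H * (r : ℝ) ^ ((N + 1) / 16) := by exact_mod_cast b2
    have hle1 : (r : ℝ) ^ (N / 16) ≤ (r : ℝ) ^ (N / 16 + 1) := pow_le_pow_right₀ hr1 (by omega)
    have hle2 : (r : ℝ) ^ ((N + 1) / 16) ≤ (r : ℝ) ^ (N / 16 + 1) := pow_le_pow_right₀ hr1 (by omega)
    have hle3 : 1 / (r : ℝ) ^ ((N + 1) / 2) ≤ 1 / (r : ℝ) ^ (N / 2) := by
      apply one_div_le_one_div_of_le (by positivity)
      exact pow_le_pow_right₀ hr1 (by omega)
    have hH0 : (0 : ℝ) ≤ H := Nat.cast_nonneg _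
    have hkey : |((s N * t (N + 1) - s (N + 1) * t N : ℤ) : ℝ)| < 1 := by
      push_cast
      have e : (s N : ℝ) * t (N + 1) - s (N + 1) * t N
          = -(t (N + 1)) * (b * t N - s N) + t N * (b * t (N + 1) - s (N + 1)) := by ring
      rw [e]
      refine lt_of_le_of_lt (abs_add_le _ _) ?_
      rw [abs_mul, abs_mul, abs_neg, Nat.abs_cast, Nat.abs_cast]
      have c1 : (t (N + 1) : ℝ) * |b * t N - s N| ≤
          (H * (r : ℝ) ^ (N / 16 + 1)) * (1 / (r : ℝ) ^ (N / 2)) := by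
        apply mul_le_mul (b2'.trans _) a3 (abs_nonneg _) (by positivity)
        exact mul_le_mul_of_nonneg_left hle2 hH0
      have c2 : (t N : ℝ) * |b * t (N + 1) - s (N + 1)| ≤
          (H * (r : ℝ) ^ (N / 16 + 1)) * (1 / (r : ℝ) ^ (N / 2)) := by
        apply mul_le_mul (a2'.trans _) (b3.trans hle3) (abs_nonneg _) (by positivity)
        exact mul_le_mul_of_nonneg_left hle1 hH0
      have c3 : (H * (r : ℝ) ^ (N / 16 + 1)) * (1 / (r : ℝ) ^ (N / 2)) ≤ 1 / 4 := by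
        rw [mul_one_div, div_le_iff₀ (by positivity)]
        have d1 : (r : ℝ) ^ (N / 2) = (r : ℝ) ^ (N / 16) * (r : ℝ) ^ (N / 2 - N / 16) := by
          rw [← pow_add]; congr 1; omega
        have d2 : 4 * (H : ℝ) * r ≤ (r : ℝ) ^ (N / 2 - N / 16) := by
          have d3 : (4 * (H : ℝ) * r) ≤ 2 ^ N2 := by exact_mod_cast hN2.le
          refine d3.trans ?_
          calc (2 : ℝ) ^ N2 ≤ (r : ℝ) ^ N2 := pow_le_pow_left₀ (by norm_num) hr2 _
            _ ≤ (r : ℝ) ^ (N / 2 - N / 16) := pow_le_pow_right₀ hr1 (by omega)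
        rw [d1, pow_succ]
        have d4 : (0 : ℝ) < (r : ℝ) ^ (N / 16) := by positivity
        nlinarith
      linarith
    have hzero : s N * t (N + 1) - s (N + 1) * t N = 0 := by
      have h3 : |s N * t (N + 1) - s (N + 1) * t N| < 1 := by exact_mod_cast hkey
      exact Int.abs_lt_one_iff.1 h3
    linarith
  set N3 := N1 + 16 * N2 + 32 with hN3
  have hconst : ∀ i, s (N3 + i) * t N3 = s N3 * t (N3 + i) := by
    intro i
    induction i with
    | zero => simp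
    | succ i ih =>
      have h1 := hstep (N3 + i) (by omega) (by omega)
      have h2 := (hts (N3 + i) (by omega)).1
      have h3 : (0 : ℤ) < t (N3 + i) := by exact_mod_cast h2
      have h4 : (t (N3 + i) : ℤ) * (s (N3 + (i + 1)) * t N3) = (t (N3 + i) : ℤ) * (s N3 * t (N3 + (i + 1))) := by
        rw [← add_assoc]
        linear_combination (-(t N3 : ℤ)) * h1 + (t (N3 + i + 1) : ℤ) * ih
      exact mul_left_cancel₀ h3.ne' h4
  have h0 := (hts N3 (by omega)).1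
  have h0' : (1 : ℝ) ≤ t N3 := by exact_mod_cast h0
  -- b = s/t
  have hle : ∀ i : ℕ, |b * t N3 - s N3| ≤ t N3 * (1 / 2) ^ (i : ℕ) := by
    intro i
    obtain ⟨a1, a2, a3⟩ := hts (N3 + 2 * i) (by omega)
    have a1' : (1 : ℝ) ≤ t (N3 + 2 * i) := by exact_mod_cast a1
    have h1 : (s (N3 + 2 * i) : ℝ) * t N3 = s N3 * t (N3 + 2 * i) := by exact_mod_cast hconst (2 * i)
    have h2 : (b * t N3 - s N3) * t (N3 + 2 * i) = t N3 * (b * t (N3 + 2 * i) - s (N3 + 2 * i)) := by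
      linear_combination h1
    have h3 : |b * t N3 - s N3| * t (N3 + 2 * i) = t N3 * |b * t (N3 + 2 * i) - s (N3 + 2 * i)| := by
      have := congrArg abs h2
      rw [abs_mul, abs_mul, Nat.abs_cast, Nat.abs_cast] at this
      exact this
    have h4 : |b * t N3 - s N3| ≤ |b * t N3 - s N3| * t (N3 + 2 * i) := by
      nlinarith [abs_nonneg (b * t N3 - s N3)]
    rw [h3] at h4
    refine h4.trans (mul_le_mul_of_nonneg_left (a3.trans ?_) (by linarith))
    calc 1 / (r : ℝ) ^ ((N3 + 2 * i) / 2) ≤ 1 / (2 : ℝ) ^ i := by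
          apply one_div_le_one_div_of_le (by positivity)
          calc (2 : ℝ) ^ i ≤ (r : ℝ) ^ i := pow_le_pow_left₀ (by norm_num) hr2 _
            _ ≤ (r : ℝ) ^ ((N3 + 2 * i) / 2) := pow_le_pow_right₀ hr1 (by omega)
      _ = (1 / 2) ^ i := by rw [one_div_pow]
  have hzero : b * t N3 - s N3 = 0 := by
    have hlim : Tendsto (fun i : ℕ => (t N3 : ℝ) * (1 / 2) ^ i) atTop (𝓝 (t N3 * 0)) :=
      (tendsto_pow_atTop_nhds_zero_of_lt_one (by norm_num) (by norm_num)).const_mul _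
    rw [mul_zero] at hlim
    have : |b * t N3 - s N3| ≤ 0 := ge_of_tendsto' hlim hle
    exact abs_nonpos_iff.1 this
  apply hb
  refine ⟨(s N3 : ℚ) / (t N3 : ℚ), ?_⟩
  push_cast
  rw [div_eq_iff (by linarith)]
  linarith

end Pool.Agent.W28.NR
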