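import Pool.Agent.W28.NRLimit
import Pool.Agent.W28.NRCheb
import Pool.Agent.Helper153.FacC

set_option autoImplicit false

namespace Pool.Agent.W28.NR

open Finset Filter Topology

lemma ex_eq_ee (x : ℝ) : ex x = Pool.Agent.Helper153.Vdc.ee x := by
  unfold ex Pool.Agent.Helper153.Vdc.ee
  congr 1
  push_cast; ring

lemma ex_mul_conj (x y : ℝ) : ex x * (starRingEnd ℂ) (ex y) = ex (x - y) := by
  simp only [ex_eq_ee]
  exact Pool.Agent.Helper153.Vdc.ee_mul_conj x y

/-- the reversed phase -/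
noncomputable def gr (X c : ℝ) (n : ℕ) : ℝ := X / (c - n)

lemma gr_d1 (X c : ℝ) (n : ℕ) (h : (n : ℝ) + 1 < c) :
    gr X c (n + 1) - gr X c n = X / ((c - n) * (c - n - 1)) := by
  unfold gr
  push_cast
  have h1 : c - ((n : ℝ) + 1) ≠ 0 := by
    have : 0 < c - ((n : ℝ) + 1) := by linarith
    exact this.ne'
  have h2 : c - (n : ℝ) ≠ 0 := by
    have : 0 < c - (n : ℝ) := by linarith
    exact this.ne'
  have h3 : c - (n : ℝ) - 1 ≠ 0 := by
    have : 0 < c - (n : ℝ) - 1 := by linarith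
    exact this.ne'
  rw [div_sub_div _ _ h1 h2, div_eq_div_iff (mul_ne_zero h1 h2) (mul_ne_zero h2 h3)]
  ring

lemma gr_d2 (X c : ℝ) (n : ℕ) (h : (n : ℝ) + 2 < c) :
    (gr X c (n + 2) - gr X c (n + 1)) - (gr X c (n + 1) - gr X c n)
      = 2 * X / ((c - n) * (c - n - 1) * (c - n - 2)) := by
  have e1 := gr_d1 X c n (by linarith)
  have e2 := gr_d1 X c (n + 1) (by push_cast; linarith)
  rw [show n + 2 = n + 1 + 1 by ring, e2, e1]
  push_cast
  have h1 : c - (n : ℝ) ≠ 0 := by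
    have : 0 < c - (n : ℝ) := by linarith
    exact this.ne'
  have h2 : c - (n : ℝ) - 1 ≠ 0 := by
    have : 0 < c - (n : ℝ) - 1 := by linarith
    exact this.ne'
  have h3 : c - (n : ℝ) - 2 ≠ 0 := by
    have : 0 < c - (n : ℝ) - 2 := by linarith
    exact this.ne'
  have e3 : c - ((n : ℝ) + 1) = c - n - 1 := by ring
  have e4 : c - ((n : ℝ) + 1) - 1 = c - n - 2 := by ring
  rw [e4, e3]
  rw [div_sub_div _ _ (mul_ne_zero h2 h3) (mul_ne_zero h1 h2),
    div_eq_div_iff (mul_ne_zero (mul_ne_zero h2 h3) (mul_ne_zero h1 h2))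
      (mul_ne_zero (mul_ne_zero h1 h2) h3)]
  ring

lemma gr_d3 (X c : ℝ) (hX : 0 ≤ X) (n : ℕ) (h : (n : ℝ) + 3 < c) :
    0 ≤ ((gr X c (n + 3) - gr X c (n + 2)) - (gr X c (n + 2) - gr X c (n + 1)))
      - ((gr X c (n + 2) - gr X c (n + 1)) - (gr X c (n + 1) - gr X c n)) := by
  have e1 := gr_d2 X c n (by linarith)
  have e2 := gr_d2 X c (n + 1) (by push_cast; linarith)
  rw [show n + 1 + 2 = n + 3 by ring, show n + 1 + 1 = n + 2 by ring] at e2
  rw [e2, e1]
  push_cast
  have h3 : 0 < c - (n : ℝ) - 3 := by linarith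
  rw [sub_nonneg]
  have e3 : (c - ((n : ℝ) + 1)) * (c - ((n : ℝ) + 1) - 1) * (c - ((n : ℝ) + 1) - 2)
      = (c - n - 1) * (c - n - 2) * (c - n - 3) := by ring
  rw [e3]
  set z : ℝ := c - n - 3 with hz
  have e4 : (c - (n:ℝ)) = z + 3 := by rw [hz]; ring
  have e5 : (c - (n:ℝ) - 1) = z + 2 := by rw [hz]; ring
  have e6 : (c - (n:ℝ) - 2) = z + 1 := by rw [hz]; ring
  rw [e5, e6, e4]
  apply div_le_div_of_nonneg_left (by linarith) (by positivity)
  nlinarith [mul_pos h3 h3, mul_pos (mul_pos h3 h3) h3]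


/-- reversal of the sum -/
lemma sum_reverse (X : ℝ) (A P : ℕ) :
    ∑ p ∈ range P, ex (X / ((A : ℝ) + p)) =
      ∑ n ∈ range P, Pool.Agent.Helper153.Vdc.ee (gr X ((A : ℝ) + P - 1) n) := by
  rw [← sum_range_reflect]
  apply sum_congr rfl
  intro n hn
  rw [mem_range] at hn
  rw [ex_eq_ee]
  congr 1
  unfold gr
  congr 1
  have : ((P - 1 - n : ℕ) : ℝ) = (P : ℝ) - 1 - n := by
    rw [Nat.cast_sub (by omega), Nat.cast_sub (by omega)]; simp
  rw [this]; ring

/-- first derivative bound -/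
lemma first_bound (X : ℝ) (A P : ℕ) (hA : 1 ≤ A) (hPA : P ≤ A) (hX : 0 < X)
    (hXA : X / (A : ℝ) ^ 2 ≤ 1 / 2) :
    ‖∑ p ∈ range P, ex (X / ((A : ℝ) + p))‖ ≤ 8 * (A : ℝ) ^ 2 / X := by
  have hA' : (1 : ℝ) ≤ A := by exact_mod_cast hA
  have hPA' : (P : ℝ) ≤ A := by exact_mod_cast hPA
  have hA2 : (0 : ℝ) < (A : ℝ) ^ 2 := by positivity
  rw [sum_reverse]
  set c : ℝ := (A : ℝ) + P - 1 with hc
  have key := Pool.Agent.Helper153.Vdc.kusmin_landau P (gr X c) (X / (4 * (A : ℝ) ^ 2))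
    (by positivity) (by
      have : X / (4 * (A : ℝ) ^ 2) = X / (A : ℝ) ^ 2 / 4 := by field_simp
      rw [this]; linarith)
    (by
      intro n hn
      have hn' : (n : ℝ) + 2 ≤ P := by exact_mod_cast hn
      have hn0 : (0 : ℝ) ≤ n := Nat.cast_nonneg _
      rw [gr_d1 X c n (by rw [hc]; linarith)]
      have h1 : (A : ℝ) ≤ c - n - 1 := by rw [hc]; linarith
      have h2 : c - n ≤ 2 * A := by rw [hc]; linarith
      constructor
      · apply div_le_div_of_nonneg_left hX.le (by nlinarith)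
        nlinarith
      · refine le_trans ?_ hXA
        apply div_le_div_of_nonneg_left hX.le hA2
        nlinarith)
    (by
      intro n hn
      have hn' : (n : ℝ) + 3 ≤ P := by exact_mod_cast hn
      have h := gr_d2 X c n (by rw [hc]; linarith)
      have h2 : 0 ≤ 2 * X / ((c - n) * (c - n - 1) * (c - n - 2)) := by
        have h3 : 0 ≤ c - n - 2 := by rw [hc]; linarith
        have h4 : 0 ≤ c - n - 1 := by linarith
        have h5 : 0 ≤ c - n := by linarith
        positivity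
      linarith)
  refine key.trans (le_of_eq ?_)
  field_simp
  norm_num

/-- second derivative bound -/
lemma second_bound : ∃ σ : ℝ, 0 < σ ∧ ∃ C : ℝ, 1 ≤ C ∧ ∀ (X : ℝ) (A P : ℕ), 1 ≤ P → P ≤ A → 0 < X →
    (P : ℝ) ^ (-(7 / 4) : ℝ) ≤ X / (4 * (A : ℝ) ^ 3) → X / (4 * (A : ℝ) ^ 3) ≤ (P : ℝ) ^ (-(1 / 4) : ℝ) →
    ‖∑ p ∈ range P, ex (X / ((A : ℝ) + p))‖ ≤ C * (P : ℝ) ^ (1 - σ) := by
  obtain ⟨σ, hσ, C, hC, H⟩ := Pool.Agent.Helper153.Vdc.vdc_base 8 (by norm_num) (1 / 4) (by norm_num)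
    (by norm_num)
  refine ⟨σ, hσ, C, hC, ?_⟩
  intro X A P hP hPA hX h1 h2
  have hA' : (1 : ℝ) ≤ A := by
    have : 1 ≤ A := hP.trans hPA
    exact_mod_cast this
  have hPA' : (P : ℝ) ≤ A := by exact_mod_cast hPA
  have hA3 : (0 : ℝ) < (A : ℝ) ^ 3 := by positivity
  rw [sum_reverse]
  set c : ℝ := (A : ℝ) + P - 1 with hc
  apply H P P (gr X c) (X / (4 * (A : ℝ) ^ 3)) hP le_rfl
  · constructor
    · intro n hn
      have hn' : (n : ℝ) + 3 ≤ P := by exact_mod_cast hn
      have hn0 : (0 : ℝ) ≤ n := Nat.cast_nonneg _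
      have e : Pool.Agent.Helper153.Vdc.dd 2 (gr X c) n
          = (gr X c (n + 2) - gr X c (n + 1)) - (gr X c (n + 1) - gr X c n) := rfl
      rw [e, gr_d2 X c n (by rw [hc]; linarith)]
      have h3 : (A : ℝ) ≤ c - n - 2 := by rw [hc]; linarith
      have h4 : c - n ≤ 2 * A := by rw [hc]; linarith
      have h5 : 0 < c - n - 2 := by linarith
      constructor
      · rw [div_le_div_iff₀ (by positivity) (by
          have : 0 < c - n - 1 := by linarith
          have : 0 < c - n := by linarith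
          positivity)]
        have h6 : (c - n) * (c - n - 1) * (c - n - 2) ≤ (2 * A) * (2 * A) * (2 * A) := by
          apply mul_le_mul _ (by linarith) h5.le (by positivity)
          apply mul_le_mul h4 (by linarith) (by linarith) (by positivity)
        nlinarith
      · have e8 : 8 * (X / (4 * (A : ℝ) ^ 3)) = 2 * X / (A : ℝ) ^ 3 := by field_simp; norm_num
        rw [e8]
        apply div_le_div_of_nonneg_left (by linarith) hA3
        have h6 : (A : ℝ) * A * A ≤ (c - n) * (c - n - 1) * (c - n - 2) := by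
          apply mul_le_mul _ h3 (by linarith) (mul_nonneg (by linarith) (by linarith))
          apply mul_le_mul (by linarith) (by linarith) (by linarith) (by linarith)
        calc (A : ℝ) ^ 3 = A * A * A := by ring
          _ ≤ _ := h6
    · intro n hn
      have hn' : (n : ℝ) + 4 ≤ P := by exact_mod_cast hn
      have e : Pool.Agent.Helper153.Vdc.dd (2 + 1) (gr X c) n
          = ((gr X c (n + 3) - gr X c (n + 2)) - (gr X c (n + 2) - gr X c (n + 1)))
      - ((gr X c (n + 2) - gr X c (n + 1)) - (gr X c (n + 1) - gr X c n)) := rfl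
      rw [e]
      exact gr_d3 X c hX.le n (by rw [hc]; linarith)
  · convert h1 using 2; norm_num
  · convert h2 using 2

end Pool.Agent.W28.NR
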