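import Pool.Agent.W28.NRFinalRecip

set_option autoImplicit false

namespace Pool.Agent.W28.NR

open Finset Filter Topology

lemma rpow_r_pow (r K : ℕ) (s : ℝ) : (((r ^ K : ℕ) : ℝ)) ^ s = (r : ℝ) ^ ((K : ℝ) * s) := by
  push_cast
  rw [← Real.rpow_natCast, ← Real.rpow_mul (Nat.cast_nonneg _)]

/-- common bounds -/
lemma common_bounds (r : ℕ) (hr : 2 ≤ r) (L K a m m' h : ℕ) (ha1 : r ^ L ≤ 2 * a) (ha2 : a < r ^ L)
    (hm : m' < m) (hh1 : 1 ≤ h) :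
    1 ≤ a ∧ (r : ℝ) ^ m / 2 * r ^ (L + K) ≤ h * ((r : ℝ) ^ m - r ^ m') * r ^ (L + K) ∧
    h * ((r : ℝ) ^ m - r ^ m') * r ^ (L + K) ≤ h * (r : ℝ) ^ m * r ^ (L + K) ∧
    (r : ℝ) ^ (L + K) ≤ 2 * ((a : ℝ) * r ^ K) ∧ (a : ℝ) * r ^ K ≤ (r : ℝ) ^ (L + K) := by
  have hr2 : (2 : ℝ) ≤ r := by exact_mod_cast hr
  have hr1 : (1 : ℝ) ≤ r := by linarith
  have hr0 : (0 : ℝ) < r := by linarith
  have ha0 : 1 ≤ a := by
    by_contra hcon
    have : a = 0 := by omega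
    rw [this] at ha1
    have : 0 < r ^ L := by positivity
    omega
  have hh1' : (1 : ℝ) ≤ h := by exact_mod_cast hh1
  have hmm : (r : ℝ) ^ m' * 2 ≤ r ^ m := by
    calc (r : ℝ) ^ m' * 2 ≤ (r : ℝ) ^ m' * r := by gcongr
      _ = (r : ℝ) ^ (m' + 1) := by rw [pow_succ]
      _ ≤ (r : ℝ) ^ m := pow_le_pow_right₀ hr1 hm
  have ha1' : (r : ℝ) ^ L ≤ 2 * a := by exact_mod_cast ha1
  have ha2' : (a : ℝ) ≤ r ^ L := by exact_mod_cast ha2.le
  refine ⟨ha0, ?_, ?_, ?_, ?_⟩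
  · have : (r : ℝ) ^ m / 2 ≤ h * ((r : ℝ) ^ m - r ^ m') := by
      have h3 : (r : ℝ) ^ m / 2 ≤ (r : ℝ) ^ m - r ^ m' := by linarith
      have h4 : (0 : ℝ) ≤ (r : ℝ) ^ m - r ^ m' := le_trans (by positivity) h3
      nlinarith
    exact mul_le_mul_of_nonneg_right this (by positivity)
  · have : (0 : ℝ) < r ^ m' := by positivity
    gcongr
    linarith
  · rw [pow_add, ← mul_assoc]; gcongr
  · rw [pow_add]; gcongr

/-- pair bound for the reciprocal phase, small exponents -/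
lemma pair_smallR (r : ℕ) (hr : 2 ≤ r) (L K a m m' h K0 H : ℕ) (ha1 : r ^ L ≤ 2 * a) (ha2 : a < r ^ L)
    (hLm' : L ≤ m') (hm : m' < m) (hmN : 2 * m ≤ L + K) (hh1 : 1 ≤ h) (hh2 : h ≤ H)
    (hK0 : 8 * H ≤ 2 ^ K0) (hK : 4 * K0 ≤ K) :
    ‖∑ p ∈ range (r ^ K), ex ((h * ((r : ℝ) ^ m - r ^ m') * r ^ (L + K)) / (((a * r ^ K : ℕ) : ℝ) + p))‖
      ≤ ((r ^ K : ℕ) : ℝ) * (16 / 2 ^ (m - L)) := by
  obtain ⟨ha0, hX1, hX2, hAlow, hAup⟩ := common_bounds r hr L K a m m' h ha1 ha2 hm hh1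
  have hr2 : (2 : ℝ) ≤ r := by exact_mod_cast hr
  have hr1 : (1 : ℝ) ≤ r := by linarith
  have hr0 : (0 : ℝ) < r := by linarith
  have hA1 : 1 ≤ a * r ^ K := Nat.one_le_iff_ne_zero.2 (by positivity)
  have hPA : r ^ K ≤ a * r ^ K := Nat.le_mul_of_pos_left _ (by omega)
  have hXpos : 0 < h * ((r : ℝ) ^ m - r ^ m') * r ^ (L + K) := lt_of_lt_of_le (by positivity) hX1
  have hAr : ((a * r ^ K : ℕ) : ℝ) = (a : ℝ) * r ^ K := by push_cast; ring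
  have ha0' : (0 : ℝ) < a := by exact_mod_cast ha0
  have hb := first_bound (h * ((r : ℝ) ^ m - r ^ m') * r ^ (L + K)) (a * r ^ K) (r ^ K) hA1 hPA hXpos
    (by
      rw [div_le_iff₀ (by rw [hAr]; positivity), hAr]
      have h8 : 8 * (h : ℝ) ≤ r ^ (L + K - m) := by
        have h9 : 8 * h ≤ r ^ (L + K - m) := by
          calc 8 * h ≤ 8 * H := by omega
            _ ≤ 2 ^ K0 := hK0
            _ ≤ r ^ K0 := Nat.pow_le_pow_left hr _
            _ ≤ r ^ (L + K - m) := Nat.pow_le_pow_right (by omega) (by omega)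
        exact_mod_cast h9
      have h10 : (r : ℝ) ^ (L + K) = r ^ (L + K - m) * r ^ m := by
        rw [← pow_add]; congr 1; omega
      have h11 : (h : ℝ) * r ^ m * r ^ (L + K) ≤ 1 / 8 * (r ^ (L + K)) ^ 2 := by
        have : (h : ℝ) * r ^ m ≤ 1 / 8 * r ^ (L + K) := by
          rw [h10]
          have : (0:ℝ) < r ^ m := by positivity
          nlinarith
        have h12 : (0 : ℝ) < (r : ℝ) ^ (L + K) := by positivity
        nlinarith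
      have h13 : ((r : ℝ) ^ (L + K)) ^ 2 ≤ (2 * ((a : ℝ) * r ^ K)) ^ 2 := by gcongr
      nlinarith)
  refine hb.trans ?_
  rw [hAr, div_le_iff₀ hXpos]
  have e1 : 8 * ((r : ℝ) ^ (L + K)) ^ 2 ≤
      ((r ^ K : ℕ) : ℝ) * (16 / 2 ^ (m - L)) * ((r : ℝ) ^ m / 2 * r ^ (L + K)) := by
    have h14 : (r : ℝ) ^ m = r ^ (m - L) * r ^ L := by rw [← pow_add]; congr 1; omega
    have h15 : (2 : ℝ) ^ (m - L) ≤ (r : ℝ) ^ (m - L) := pow_le_pow_left₀ (by norm_num) hr2 _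
    have h16 : (0 : ℝ) < 2 ^ (m - L) := by positivity
    have h17 : ((r ^ K : ℕ) : ℝ) * (16 / 2 ^ (m - L)) * ((r : ℝ) ^ m / 2 * r ^ (L + K))
        = 8 * ((r : ℝ) ^ (L + K)) ^ 2 * ((r : ℝ) ^ (m - L) / 2 ^ (m - L)) := by
      rw [h14, pow_add]
      push_cast
      field_simp
      ring
    rw [h17]
    have h18 : 1 ≤ (r : ℝ) ^ (m - L) / 2 ^ (m - L) := by rw [le_div_iff₀ h16]; linarith
    have h19 : 0 ≤ 8 * ((r : ℝ) ^ (L + K)) ^ 2 := by positivity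
    nlinarith
  calc 8 * ((a : ℝ) * r ^ K) ^ 2 ≤ 8 * ((r : ℝ) ^ (L + K)) ^ 2 := by gcongr
    _ ≤ _ := e1
    _ ≤ _ := by gcongr

/-- pair bound for the reciprocal phase, large exponents -/
lemma pair_largeR (r : ℕ) (hr : 2 ≤ r) (σ C : ℝ)
    (hsec : ∀ (X : ℝ) (A P : ℕ), 1 ≤ P → P ≤ A → 0 < X →
      (P : ℝ) ^ (-(7 / 4) : ℝ) ≤ X / (4 * (A : ℝ) ^ 3) → X / (4 * (A : ℝ) ^ 3) ≤ (P : ℝ) ^ (-(1 / 4) : ℝ) →
      ‖∑ p ∈ range P, ex (X / ((A : ℝ) + p))‖ ≤ C * (P : ℝ) ^ (1 - σ))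
    (L K a m m' h K0 H : ℕ) (ha1 : r ^ L ≤ 2 * a) (ha2 : a < r ^ L)
    (hm : m' < m) (hmN : L + K < 2 * m) (hmN2 : m < (L + K) + (L + K) / 2)
    (hh1 : 1 ≤ h) (hh2 : h ≤ H)
    (hK0 : 8 * H ≤ 2 ^ K0) (hK : 4 * K0 ≤ K) (hKL : 6 * L + 12 ≤ K) :
    ‖∑ p ∈ range (r ^ K), ex ((h * ((r : ℝ) ^ m - r ^ m') * r ^ (L + K)) / (((a * r ^ K : ℕ) : ℝ) + p))‖
      ≤ ((r ^ K : ℕ) : ℝ) * (C * ((r : ℝ) ^ (-σ)) ^ K) := by
  obtain ⟨ha0, hX1, hX2, hAlow, hAup⟩ := common_bounds r hr L K a m m' h ha1 ha2 hm hh1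
  have hr2 : (2 : ℝ) ≤ r := by exact_mod_cast hr
  have hr1 : (1 : ℝ) ≤ r := by linarith
  have hr0 : (0 : ℝ) < r := by linarith
  have hP1 : 1 ≤ r ^ K := Nat.one_le_pow _ _ (by omega)
  have hPA : r ^ K ≤ a * r ^ K := Nat.le_mul_of_pos_left _ (by omega)
  have hXpos : 0 < h * ((r : ℝ) ^ m - r ^ m') * r ^ (L + K) := lt_of_lt_of_le (by positivity) hX1
  have hAr : ((a * r ^ K : ℕ) : ℝ) = (a : ℝ) * r ^ K := by push_cast; ring
  have hApos : (0 : ℝ) < (a : ℝ) * r ^ K := by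
    have : (0 : ℝ) < a := by exact_mod_cast ha0
    positivity
  have r_pow_rpow : ∀ n : ℕ, (r : ℝ) ^ n = (r : ℝ) ^ (n : ℝ) := fun n => (Real.rpow_natCast _ n).symm
  have hmR : ((L : ℝ) + K) + 1 ≤ 2 * m := by exact_mod_cast hmN
  have hmR2 : 2 * (m : ℝ) ≤ 3 * ((L : ℝ) + K) := by
    have : 2 * m ≤ 3 * (L + K) := by omega
    exact_mod_cast this
  have hKR : 4 * (K0 : ℝ) ≤ K := by exact_mod_cast hK
  have hKLR : 6 * (L : ℝ) + 12 ≤ K := by exact_mod_cast hKL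
  have hL0 : (0 : ℝ) ≤ L := Nat.cast_nonneg _
  have hcube : (8 : ℝ) ≤ (r : ℝ) ^ (3 : ℝ) := by
    have : (8 : ℝ) = (2 : ℝ) ^ (3 : ℕ) := by norm_num
    rw [this, show (3 : ℝ) = ((3 : ℕ) : ℝ) by norm_num, Real.rpow_natCast]
    exact pow_le_pow_left₀ (by norm_num) hr2 _
  have e_cube : ((r : ℝ) ^ (L + K)) ^ 3 = (r : ℝ) ^ (3 * ((L : ℝ) + K)) := by
    rw [← pow_mul, r_pow_rpow]; congr 1; push_cast; ring
  have hb := hsec (h * ((r : ℝ) ^ m - r ^ m') * r ^ (L + K)) (a * r ^ K) (r ^ K) hP1 hPA hXpos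
    (by
      rw [hAr, rpow_r_pow, le_div_iff₀ (by positivity)]
      refine le_trans ?_ hX1
      calc (r : ℝ) ^ ((K : ℝ) * (-(7 / 4))) * (4 * ((a : ℝ) * r ^ K) ^ 3)
          ≤ (r : ℝ) ^ ((K : ℝ) * (-(7 / 4))) * (4 * ((r : ℝ) ^ (L + K)) ^ 3) := by gcongr
        _ = 8 * (r : ℝ) ^ ((K : ℝ) * (-(7 / 4)) + 3 * ((L : ℝ) + K)) / 2 := by
            rw [Real.rpow_add hr0, e_cube]; ring
        _ ≤ (r : ℝ) ^ (3 : ℝ) * (r : ℝ) ^ ((K : ℝ) * (-(7 / 4)) + 3 * ((L : ℝ) + K)) / 2 := by gcongr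
        _ = (r : ℝ) ^ (3 + ((K : ℝ) * (-(7 / 4)) + 3 * ((L : ℝ) + K))) / 2 := by
            rw [← Real.rpow_add hr0]
        _ ≤ (r : ℝ) ^ ((m : ℝ) + ((L : ℝ) + K)) / 2 := by
            apply div_le_div_of_nonneg_right _ (by norm_num)
            apply Real.rpow_le_rpow_of_exponent_le hr1
            linarith
        _ = (r : ℝ) ^ m / 2 * r ^ (L + K) := by
            rw [Real.rpow_add hr0]
            rw [r_pow_rpow m, r_pow_rpow (L + K)]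
            push_cast; ring)
    (by
      rw [hAr, rpow_r_pow, div_le_iff₀ (by positivity)]
      refine hX2.trans ?_
      have hhK : 2 * (h : ℝ) ≤ (r : ℝ) ^ (K0 : ℝ) := by
        have h9 : 2 * h ≤ 2 ^ K0 := by omega
        have h10 : 2 * (h : ℝ) ≤ 2 ^ K0 := by exact_mod_cast h9
        rw [Real.rpow_natCast]
        exact h10.trans (pow_le_pow_left₀ (by norm_num) hr2 _)
      calc (h : ℝ) * (r : ℝ) ^ m * r ^ (L + K)
          = (2 * (h : ℝ)) * (r : ℝ) ^ m * r ^ (L + K) / 2 := by ring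
        _ ≤ (r : ℝ) ^ (K0 : ℝ) * (r : ℝ) ^ m * r ^ (L + K) / 2 := by gcongr
        _ = (r : ℝ) ^ ((K0 : ℝ) + m + ((L : ℝ) + K)) / 2 := by
            rw [Real.rpow_add hr0, Real.rpow_add hr0]
            rw [r_pow_rpow m, r_pow_rpow (L + K)]
            push_cast; ring
        _ ≤ (r : ℝ) ^ ((K : ℝ) * (-(1 / 4)) + 3 * ((L : ℝ) + K)) / 2 := by
            apply div_le_div_of_nonneg_right _ (by norm_num)
            apply Real.rpow_le_rpow_of_exponent_le hr1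
            linarith
        _ = (r : ℝ) ^ ((K : ℝ) * (-(1 / 4))) * (4 * ((r : ℝ) ^ (L + K) / 2) ^ 3) := by
            rw [Real.rpow_add hr0, ← e_cube]; ring
        _ ≤ (r : ℝ) ^ ((K : ℝ) * (-(1 / 4))) * (4 * ((a : ℝ) * r ^ K) ^ 3) := by
            have : (r : ℝ) ^ (L + K) / 2 ≤ (a : ℝ) * r ^ K := by linarith
            gcongr)
  refine hb.trans (le_of_eq ?_)
  rw [rpow_r_pow]
  have e3 : (r : ℝ) ^ ((K : ℝ) * (1 - σ)) = ((r ^ K : ℕ) : ℝ) * ((r : ℝ) ^ (-σ)) ^ K := by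
    rw [← Real.rpow_natCast ((r : ℝ) ^ (-σ)), ← Real.rpow_mul hr0.le]
    push_cast
    rw [r_pow_rpow K, ← Real.rpow_add hr0]
    congr 1; ring
  rw [e3]; ring

theorem stage_recipR (r : ℕ) (hr : 2 ≤ r) : Stage r 2 (fun y => y⁻¹) := by
  obtain ⟨σ, hσ, C, hC, hsec⟩ := second_bound
  have hr2 : (2 : ℝ) ≤ r := by exact_mod_cast hr
  have hr1 : (1 : ℝ) ≤ r := by linarith
  have hr0 : (0 : ℝ) < r := by linarith
  intro ε hε H
  obtain ⟨q, hq⟩ := exists_nat_gt (max (8 * H * (4 * 16 + 1) / (ε / 2) ^ 2) (max (3 / (ε / 2)) 1))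
  have hq1 : 8 * H * (4 * (16 : ℝ) + 1) / (ε / 2) ^ 2 < q := lt_of_le_of_lt (le_max_left _ _) hq
  have hq2 : 3 / (ε / 2) < q :=
    lt_of_le_of_lt ((le_max_left _ _).trans (le_max_right _ _)) hq
  have hq3 : (1 : ℝ) < q := lt_of_le_of_lt ((le_max_right _ _).trans (le_max_right _ _)) hq
  have hq4 : 1 ≤ q := by
    have : 1 < q := by exact_mod_cast hq3
    omega
  refine ⟨q ^ 2, ?_⟩
  intro L hL a ha1 ha2 N0
  set ρ : ℝ := (r : ℝ) ^ (-σ) with hρ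
  have hρ0 : 0 ≤ ρ := by positivity
  have hρ1 : ρ < 1 := by
    rw [hρ]
    apply Real.rpow_lt_one_of_one_lt_of_neg (by linarith) (by linarith)
  obtain ⟨K0, hK0⟩ : ∃ K0 : ℕ, 8 * H ≤ 2 ^ K0 := ⟨8 * H, Nat.lt_two_pow_self.le⟩
  obtain ⟨K, hK1, hK2⟩ := ((sq_mul_pow_small C ρ hρ0 hρ1).and
    (eventually_ge_atTop (N0 + 4 * K0 + (6 * L + 12)))).exists
  refine ⟨L + K, by omega, by omega, ?_⟩
  have eK : L + K - L = K := by omega
  rw [eK]
  set F : ℕ → ℕ → ℕ → ℂ := fun h m p =>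
    ex (h * ((r : ℝ) ^ m * (((a * r ^ K + p : ℕ) : ℝ) / (r : ℝ) ^ (L + K))⁻¹)) with hF
  obtain ⟨G, hG1, hG2, hG3⟩ := cheb (r ^ K) H L (L + K + (L + K) / 2) F (fun h m p => norm_ex _)
    16 (C * ρ ^ K) (ε / 2) (by norm_num) (by positivity) (by positivity)
    (Nat.one_le_pow _ _ (by omega))
    (by omega)
    (by
      refine le_trans ?_ hK1
      have h1 : ((L + K + (L + K) / 2 - L : ℕ) : ℝ) ≤ 4 * (K : ℝ) := by
        have h2 : L + K + (L + K) / 2 - L ≤ 4 * K := by omega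
        exact_mod_cast h2
      gcongr)
    q hq4 hL hq1 hq2.le
    (by
      intro h hh1 hh2 m' m hm1 hm2 hm3
      have e : ∑ p ∈ range (r ^ K), F h m p * (starRingEnd ℂ) (F h m' p)
          = ∑ p ∈ range (r ^ K),
            ex ((h * ((r : ℝ) ^ m - r ^ m') * r ^ (L + K)) / (((a * r ^ K : ℕ) : ℝ) + p)) := by
        apply sum_congr rfl
        intro p _
        simp only [hF]
        rw [ex_mul_conj]
        congr 1
        rw [inv_div]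
        push_cast
        ring
      rw [e]
      rcases le_or_gt (2 * m) (L + K) with hcase | hcase
      · refine (pair_smallR r hr L K a m m' h K0 H ha1 ha2 hm1 hm2 hcase hh1 hh2 hK0 (by omega)).trans ?_
        apply mul_le_mul_of_nonneg_left _ (Nat.cast_nonneg _)
        have : 0 ≤ C * ρ ^ K := by positivity
        linarith
      · refine (pair_largeR r hr σ C hsec L K a m m' h K0 H ha1 ha2 hm2 hcase hm3 hh1 hh2 hK0
          (by omega) (by omega)).trans ?_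
        apply mul_le_mul_of_nonneg_left _ (Nat.cast_nonneg _)
        have : (0 : ℝ) ≤ 16 / 2 ^ (m - L) := by positivity
        linarith)
  have hGne : G.Nonempty := by
    rw [nonempty_iff_ne_empty]
    rintro rfl
    simp at hG2
  obtain ⟨p, hp⟩ := hGne
  refine ⟨p, mem_range.1 (hG1 hp), ?_⟩
  intro h hh1 hh2 M hM1 hM2
  have := hG3 p hp h hh1 hh2 M hM1 hM2
  simp only [hF] at this
  exact this.trans (le_of_eq (by ring))

theorem recip_normalR (r : ℕ) (hr : 2 ≤ r) : ∃ x : ℝ, NormalBase r x ∧ ¬ NormalBase r x⁻¹ := by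
  obtain ⟨y, hy1, hy2, h1, h2⟩ := chain r 2 hr (by norm_num) (fun y => y⁻¹) 4 (by norm_num)
    (by
      intro x y hx1 hx2 hy1 hy2
      have hx0 : x ≠ 0 := by intro h; rw [h] at hx1; norm_num at hx1
      have hy0 : y ≠ 0 := by intro h; rw [h] at hy1; norm_num at hy1
      rw [inv_sub_inv hx0 hy0, abs_div, abs_sub_comm, div_le_iff₀ (by positivity), abs_mul,
        abs_of_pos (by linarith : 0 < x), abs_of_pos (by linarith : 0 < y)]
      have : 1 ≤ 4 * (x * y) := by nlinarith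
      nlinarith [abs_nonneg (x - y)]) (stage_recipR r hr)
  refine ⟨y⁻¹, h1, ?_⟩
  rw [inv_inv]; exact h2

end Pool.Agent.W28.NR
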