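import Pool.Agent.W28.NRRecip

set_option autoImplicit false

namespace Pool.Agent.W28.NR

open Finset Filter Topology

lemma rpow_two_pow (K : ℕ) (s : ℝ) : (((2 ^ K : ℕ) : ℝ)) ^ s = (2 : ℝ) ^ ((K : ℝ) * s) := by
  push_cast
  rw [← Real.rpow_natCast, ← Real.rpow_mul (by norm_num)]

/-- pair bound for the reciprocal phase, small exponents -/
lemma pair_small (L K a m m' h K0 H : ℕ) (ha1 : 2 ^ L ≤ 2 * a) (ha2 : a < 2 ^ L)
    (hLm' : L ≤ m') (hm : m' < m) (hmN : 2 * m ≤ L + K) (hh1 : 1 ≤ h) (hh2 : h ≤ H)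
    (hK0 : 8 * H ≤ 2 ^ K0) (hK : 4 * K0 ≤ K) :
    ‖∑ p ∈ range (2 ^ K), ex ((h * ((2 : ℝ) ^ m - 2 ^ m') * 2 ^ (L + K)) / (((a * 2 ^ K : ℕ) : ℝ) + p))‖
      ≤ ((2 ^ K : ℕ) : ℝ) * (16 / 2 ^ (m - L)) := by
  have ha0 : 1 ≤ a := by
    by_contra hcon
    have : a = 0 := by omega
    rw [this] at ha1
    have : 0 < 2 ^ L := by positivity
    omega
  have hA1 : 1 ≤ a * 2 ^ K := Nat.one_le_iff_ne_zero.2 (by positivity)
  have hPA : 2 ^ K ≤ a * 2 ^ K := Nat.le_mul_of_pos_left _ (by omega)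
  have hh1' : (1 : ℝ) ≤ h := by exact_mod_cast hh1
  have hmm : (2 : ℝ) ^ m' * 2 ≤ 2 ^ m := by
    rw [← pow_succ]; exact pow_le_pow_right₀ (by norm_num) (by omega)
  have hX1 : (2 : ℝ) ^ m / 2 * 2 ^ (L + K) ≤ h * ((2 : ℝ) ^ m - 2 ^ m') * 2 ^ (L + K) := by
    have : (2 : ℝ) ^ m / 2 ≤ h * ((2 : ℝ) ^ m - 2 ^ m') := by
      have h3 : (2 : ℝ) ^ m / 2 ≤ (2 : ℝ) ^ m - 2 ^ m' := by linarith
      have h4 : (0 : ℝ) ≤ (2 : ℝ) ^ m - 2 ^ m' := le_trans (by positivity) h3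
      nlinarith
    exact mul_le_mul_of_nonneg_right this (by positivity)
  have hX2 : h * ((2 : ℝ) ^ m - 2 ^ m') * 2 ^ (L + K) ≤ h * (2 : ℝ) ^ m * 2 ^ (L + K) := by
    have : (0 : ℝ) < 2 ^ m' := by positivity
    gcongr
    linarith
  have hXpos : 0 < h * ((2 : ℝ) ^ m - 2 ^ m') * 2 ^ (L + K) := lt_of_lt_of_le (by positivity) hX1
  have hAr : ((a * 2 ^ K : ℕ) : ℝ) = (a : ℝ) * 2 ^ K := by push_cast; ring
  have ha1' : (2 : ℝ) ^ L ≤ 2 * a := by exact_mod_cast ha1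
  have ha2' : (a : ℝ) ≤ 2 ^ L := by exact_mod_cast ha2.le
  have hAlow : (2 : ℝ) ^ (L + K) ≤ 2 * ((a : ℝ) * 2 ^ K) := by
    rw [pow_add, ← mul_assoc]; gcongr
  have hAup : (a : ℝ) * 2 ^ K ≤ (2 : ℝ) ^ (L + K) := by
    rw [pow_add]; gcongr
  have hb := first_bound (h * ((2 : ℝ) ^ m - 2 ^ m') * 2 ^ (L + K)) (a * 2 ^ K) (2 ^ K) hA1 hPA hXpos
    (by
      rw [div_le_iff₀ (by rw [hAr]; positivity), hAr]
      have h8 : 8 * (h : ℝ) ≤ 2 ^ (L + K - m) := by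
        have h9 : 8 * h ≤ 2 ^ (L + K - m) := by
          calc 8 * h ≤ 8 * H := by omega
            _ ≤ 2 ^ K0 := hK0
            _ ≤ 2 ^ (L + K - m) := Nat.pow_le_pow_right (by norm_num) (by omega)
        exact_mod_cast h9
      have h10 : (2 : ℝ) ^ (L + K) = 2 ^ (L + K - m) * 2 ^ m := by
        rw [← pow_add]; congr 1; omega
      have h11 : (h : ℝ) * 2 ^ m * 2 ^ (L + K) ≤ 1 / 8 * (2 ^ (L + K)) ^ 2 := by
        have : (h : ℝ) * 2 ^ m ≤ 1 / 8 * 2 ^ (L + K) := by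
          rw [h10]
          have : (0:ℝ) < 2 ^ m := by positivity
          nlinarith
        have h12 : (0 : ℝ) < 2 ^ (L + K) := by positivity
        nlinarith
      have h13 : ((2 : ℝ) ^ (L + K)) ^ 2 ≤ (2 * ((a : ℝ) * 2 ^ K)) ^ 2 := by gcongr
      nlinarith)
  refine hb.trans ?_
  rw [hAr, div_le_iff₀ hXpos]
  have e1 : ((2 ^ K : ℕ) : ℝ) * (16 / 2 ^ (m - L)) * ((2 : ℝ) ^ m / 2 * 2 ^ (L + K))
      = 8 * ((2 : ℝ) ^ (L + K)) ^ 2 := by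
    have h14 : (2 : ℝ) ^ m = 2 ^ (m - L) * 2 ^ L := by rw [← pow_add]; congr 1; omega
    rw [h14]
    push_cast
    field_simp
    ring
  calc 8 * ((a : ℝ) * 2 ^ K) ^ 2 ≤ 8 * ((2 : ℝ) ^ (L + K)) ^ 2 := by gcongr
    _ = _ := e1.symm
    _ ≤ _ := by gcongr

/-- pair bound for the reciprocal phase, large exponents -/
lemma pair_large (σ C : ℝ)
    (hsec : ∀ (X : ℝ) (A P : ℕ), 1 ≤ P → P ≤ A → 0 < X →
      (P : ℝ) ^ (-(7 / 4) : ℝ) ≤ X / (4 * (A : ℝ) ^ 3) → X / (4 * (A : ℝ) ^ 3) ≤ (P : ℝ) ^ (-(1 / 4) : ℝ) →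
      ‖∑ p ∈ range P, ex (X / ((A : ℝ) + p))‖ ≤ C * (P : ℝ) ^ (1 - σ))
    (L K a m m' h K0 H : ℕ) (ha1 : 2 ^ L ≤ 2 * a) (ha2 : a < 2 ^ L)
    (hm : m' < m) (hmN : L + K < 2 * m) (hmN2 : m < (L + K) + (L + K) / 2)
    (hh1 : 1 ≤ h) (hh2 : h ≤ H)
    (hK0 : 8 * H ≤ 2 ^ K0) (hK : 4 * K0 ≤ K) (hKL : 6 * L + 12 ≤ K) :
    ‖∑ p ∈ range (2 ^ K), ex ((h * ((2 : ℝ) ^ m - 2 ^ m') * 2 ^ (L + K)) / (((a * 2 ^ K : ℕ) : ℝ) + p))‖
      ≤ ((2 ^ K : ℕ) : ℝ) * (C * ((2 : ℝ) ^ (-σ)) ^ K) := by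
  have ha0 : 1 ≤ a := by
    by_contra hcon
    have : a = 0 := by omega
    rw [this] at ha1
    have : 0 < 2 ^ L := by positivity
    omega
  have hP1 : 1 ≤ 2 ^ K := Nat.one_le_two_pow
  have hPA : 2 ^ K ≤ a * 2 ^ K := Nat.le_mul_of_pos_left _ (by omega)
  have hh1' : (1 : ℝ) ≤ h := by exact_mod_cast hh1
  have hmm : (2 : ℝ) ^ m' * 2 ≤ 2 ^ m := by
    rw [← pow_succ]; exact pow_le_pow_right₀ (by norm_num) (by omega)
  have hX1 : (2 : ℝ) ^ m / 2 * 2 ^ (L + K) ≤ h * ((2 : ℝ) ^ m - 2 ^ m') * 2 ^ (L + K) := by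
    have : (2 : ℝ) ^ m / 2 ≤ h * ((2 : ℝ) ^ m - 2 ^ m') := by
      have h3 : (2 : ℝ) ^ m / 2 ≤ (2 : ℝ) ^ m - 2 ^ m' := by linarith
      have h4 : (0 : ℝ) ≤ (2 : ℝ) ^ m - 2 ^ m' := le_trans (by positivity) h3
      nlinarith
    exact mul_le_mul_of_nonneg_right this (by positivity)
  have hX2 : h * ((2 : ℝ) ^ m - 2 ^ m') * 2 ^ (L + K) ≤ h * (2 : ℝ) ^ m * 2 ^ (L + K) := by
    have : (0 : ℝ) < 2 ^ m' := by positivity
    gcongr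
    linarith
  have hXpos : 0 < h * ((2 : ℝ) ^ m - 2 ^ m') * 2 ^ (L + K) := lt_of_lt_of_le (by positivity) hX1
  have hAr : ((a * 2 ^ K : ℕ) : ℝ) = (a : ℝ) * 2 ^ K := by push_cast; ring
  have ha1' : (2 : ℝ) ^ L ≤ 2 * a := by exact_mod_cast ha1
  have ha2' : (a : ℝ) ≤ 2 ^ L := by exact_mod_cast ha2.le
  have hAlow : (2 : ℝ) ^ (L + K) ≤ 2 * ((a : ℝ) * 2 ^ K) := by
    rw [pow_add, ← mul_assoc]; gcongr
  have hAup : (a : ℝ) * 2 ^ K ≤ (2 : ℝ) ^ (L + K) := by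
    rw [pow_add]; gcongr
  have hApos : (0 : ℝ) < (a : ℝ) * 2 ^ K := by
    have : (0 : ℝ) < a := by exact_mod_cast ha0
    positivity
  have two_pow_rpow : ∀ n : ℕ, (2 : ℝ) ^ n = (2 : ℝ) ^ (n : ℝ) := fun n => (Real.rpow_natCast 2 n).symm
  have hmR : ((L : ℝ) + K) + 1 ≤ 2 * m := by exact_mod_cast hmN
  have hmR2 : 2 * (m : ℝ) ≤ 3 * ((L : ℝ) + K) := by
    have : 2 * m ≤ 3 * (L + K) := by omega
    exact_mod_cast this
  have hKR : 4 * (K0 : ℝ) ≤ K := by exact_mod_cast hK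
  have hKLR : 6 * (L : ℝ) + 12 ≤ K := by exact_mod_cast hKL
  have hL0 : (0 : ℝ) ≤ L := Nat.cast_nonneg _
  have hb := hsec (h * ((2 : ℝ) ^ m - 2 ^ m') * 2 ^ (L + K)) (a * 2 ^ K) (2 ^ K) hP1 hPA hXpos
    (by
      rw [hAr, rpow_two_pow, le_div_iff₀ (by positivity)]
      refine le_trans ?_ hX1
      calc (2 : ℝ) ^ ((K : ℝ) * (-(7 / 4))) * (4 * ((a : ℝ) * 2 ^ K) ^ 3)
          ≤ (2 : ℝ) ^ ((K : ℝ) * (-(7 / 4))) * (4 * ((2 : ℝ) ^ (L + K)) ^ 3) := by gcongr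
        _ = (2 : ℝ) ^ ((K : ℝ) * (-(7 / 4)) + 2 + 3 * ((L : ℝ) + K)) := by
            rw [Real.rpow_add (by norm_num), Real.rpow_add (by norm_num)]
            have e1 : ((2 : ℝ) ^ (L + K)) ^ 3 = (2 : ℝ) ^ (3 * ((L : ℝ) + K)) := by
              rw [← pow_mul, two_pow_rpow]; congr 1; push_cast; ring
            have e2 : (2 : ℝ) ^ (2 : ℝ) = 4 := by
              rw [show (2 : ℝ) = ((2 : ℕ) : ℝ) by norm_num, Real.rpow_natCast]; norm_num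
            rw [e1, e2]; ring
        _ ≤ (2 : ℝ) ^ ((m : ℝ) - 1 + ((L : ℝ) + K)) := by
            apply Real.rpow_le_rpow_of_exponent_le (by norm_num)
            linarith
        _ = (2 : ℝ) ^ m / 2 * 2 ^ (L + K) := by
            rw [Real.rpow_add (by norm_num), Real.rpow_sub (by norm_num), Real.rpow_one]
            rw [two_pow_rpow m, two_pow_rpow (L + K)]
            push_cast; ring)
    (by
      rw [hAr, rpow_two_pow, div_le_iff₀ (by positivity)]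
      refine hX2.trans ?_
      have hhK : (h : ℝ) ≤ (2 : ℝ) ^ ((K0 : ℝ) - 3) := by
        have h9 : 8 * h ≤ 2 ^ K0 := by omega
        have h10 : 8 * (h : ℝ) ≤ 2 ^ K0 := by exact_mod_cast h9
        rw [Real.rpow_sub (by norm_num), Real.rpow_natCast]
        have e2 : (2 : ℝ) ^ (3 : ℝ) = 8 := by
          rw [show (3 : ℝ) = ((3 : ℕ) : ℝ) by norm_num, Real.rpow_natCast]; norm_num
        rw [e2, le_div_iff₀ (by norm_num)]; linarith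
      calc (h : ℝ) * (2 : ℝ) ^ m * 2 ^ (L + K)
          ≤ (2 : ℝ) ^ ((K0 : ℝ) - 3) * (2 : ℝ) ^ m * 2 ^ (L + K) := by gcongr
        _ = (2 : ℝ) ^ ((K0 : ℝ) - 3 + m + ((L : ℝ) + K)) := by
            rw [Real.rpow_add (by norm_num), Real.rpow_add (by norm_num)]
            rw [two_pow_rpow m, two_pow_rpow (L + K)]
            push_cast; ring
        _ ≤ (2 : ℝ) ^ ((K : ℝ) * (-(1 / 4)) + 2 + 3 * (((L : ℝ) + K) - 1)) := by
            apply Real.rpow_le_rpow_of_exponent_le (by norm_num)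
            linarith
        _ = (2 : ℝ) ^ ((K : ℝ) * (-(1 / 4))) * (4 * ((2 : ℝ) ^ (L + K) / 2) ^ 3) := by
            rw [Real.rpow_add (by norm_num), Real.rpow_add (by norm_num)]
            have e1 : ((2 : ℝ) ^ (L + K) / 2) ^ 3 = (2 : ℝ) ^ (3 * (((L : ℝ) + K) - 1)) := by
              have : (2 : ℝ) ^ (L + K) / 2 = (2 : ℝ) ^ (((L : ℝ) + K) - 1) := by
                rw [Real.rpow_sub (by norm_num), Real.rpow_one, two_pow_rpow]; push_cast; ring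
              rw [this, ← Real.rpow_natCast, ← Real.rpow_mul (by norm_num)]; congr 1; push_cast; ring
            have e2 : (2 : ℝ) ^ (2 : ℝ) = 4 := by
              rw [show (2 : ℝ) = ((2 : ℕ) : ℝ) by norm_num, Real.rpow_natCast]; norm_num
            rw [e1, e2]; ring
        _ ≤ (2 : ℝ) ^ ((K : ℝ) * (-(1 / 4))) * (4 * ((a : ℝ) * 2 ^ K) ^ 3) := by
            have : (2 : ℝ) ^ (L + K) / 2 ≤ (a : ℝ) * 2 ^ K := by linarith
            gcongr)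
  refine hb.trans (le_of_eq ?_)
  rw [rpow_two_pow]
  have e3 : (2 : ℝ) ^ ((K : ℝ) * (1 - σ)) = ((2 ^ K : ℕ) : ℝ) * ((2 : ℝ) ^ (-σ)) ^ K := by
    rw [← Real.rpow_natCast ((2 : ℝ) ^ (-σ)), ← Real.rpow_mul (by norm_num)]
    push_cast
    rw [two_pow_rpow K, ← Real.rpow_add (by norm_num)]
    congr 1; ring
  rw [e3]; ring

end Pool.Agent.W28.NR
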